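import Mathlib

set_option autoImplicit false

open Set Topology Filter

namespace Pool.Agent.H59.Lam

/-- the model vector space -/
abbrev V4 := ℂ × ℂ × ℂ × ℂ

lemma exists_alpha : ∃ a : ℝ, 1 < a ∧ a < 2 ∧ a ^ 3 = a + 1 := by
  have hc : ContinuousOn (fun x : ℝ => x ^ 3 - x - 1) (Icc 1 2) := by fun_prop
  have h := intermediate_value_Ioo (by norm_num : (1:ℝ) ≤ 2) hc
  have h0 : (0:ℝ) ∈ Ioo ((1:ℝ) ^ 3 - 1 - 1) ((2:ℝ) ^ 3 - 2 - 1) := by constructor <;> norm_num
  obtain ⟨a, ha, ha2⟩ := h h0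
  exact ⟨a, ha.1, ha.2, by linarith⟩

/-- the real root of `x³ = x + 1` -/
noncomputable def al : ℝ := Classical.choose exists_alpha

lemma al_gt : 1 < al := (Classical.choose_spec exists_alpha).1
lemma al_lt : al < 2 := (Classical.choose_spec exists_alpha).2.1
lemma al_cube : al ^ 3 = al + 1 := (Classical.choose_spec exists_alpha).2.2
lemma al_pos : 0 < al := lt_trans one_pos al_gt
lemma al_ne : al ≠ 0 := al_pos.ne'

lemma al_sq : al ^ 2 = 1 + 1 / al := by
  have h := al_cube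
  have := al_ne
  field_simp
  linarith

lemma al_sq_gt : 3 / 2 < al ^ 2 := by
  rw [al_sq]
  have : 1 / 2 < 1 / al := one_div_lt_one_div_of_lt al_pos al_lt
  linarith

/-- the imaginary part of `β` -/
noncomputable def bi : ℝ := Real.sqrt (3 * al ^ 2 - 4) / 2

lemma bi_sq : bi ^ 2 = (3 * al ^ 2 - 4) / 4 := by
  unfold bi
  rw [div_pow, Real.sq_sqrt (by linarith [al_sq_gt])]
  norm_num

lemma bi_pos : 0 < bi := by
  unfold bi
  have : 0 < 3 * al ^ 2 - 4 := by linarith [al_sq_gt]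
  positivity

/-- a complex root of `x³ = x + 1` -/
noncomputable def be : ℂ := ⟨-al / 2, bi⟩

lemma be_sq : be ^ 2 = -(al : ℂ) * be - ((al ^ 2 - 1 : ℝ) : ℂ) := by
  apply Complex.ext
  · simp [be, pow_two]
    have := bi_sq
    nlinarith
  · simp [be, pow_two]
    ring

lemma be_cube : be ^ 3 = be + 1 := by
  have h := be_sq
  have h3 : ((al : ℂ)) ^ 3 = al + 1 := by exact_mod_cast al_cube
  have e : be ^ 3 = be * be ^ 2 := by ring
  rw [e, h]
  push_cast
  have e2 : be * (-(al:ℂ) * be - ((al:ℂ) ^ 2 - 1)) = -(al:ℂ) * be ^ 2 - ((al:ℂ) ^ 2 - 1) * be := by ring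
  rw [e2, h]
  push_cast
  linear_combination h3

lemma be_normSq : Complex.normSq be = 1 / al := by
  rw [Complex.normSq_apply]
  simp only [be]
  have := bi_sq
  have h2 := al_sq
  nlinarith

lemma be_ne : be ≠ 0 := by
  intro h
  have := be_normSq
  rw [h] at this
  simp at this
  exact al_ne this.symm

lemma be_norm_lt : ‖be‖ < 1 := by
  have h := be_normSq
  rw [Complex.normSq_eq_norm_sq] at h
  have h1 : 1 / al < 1 := by
    rw [div_lt_one al_pos]; exact al_gt
  rw [← h] at h1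
  nlinarith [norm_nonneg be]

/-- the monodromy -/
noncomputable def D : V4 ≃L[ℂ] V4 :=
  ContinuousLinearEquiv.equivOfInverse
    ({ toFun := fun p => ((al : ℂ) * p.1, be * p.2.1, 4 * p.2.2.1 - p.2.2.2, p.2.2.1)
       map_add' := fun p q => by ext <;> simp <;> ring
       map_smul' := fun c p => by ext <;> simp <;> ring
       cont := by fun_prop } : V4 →L[ℂ] V4)
    ({ toFun := fun p => ((al : ℂ)⁻¹ * p.1, be⁻¹ * p.2.1, p.2.2.2, 4 * p.2.2.2 - p.2.2.1)
       map_add' := fun p q => by ext <;> simp <;> ring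
       map_smul' := fun c p => by ext <;> simp <;> ring
       cont := by fun_prop } : V4 →L[ℂ] V4)
    (by
      intro p
      have h1 : (al : ℂ) ≠ 0 := by exact_mod_cast al_ne
      have h2 := be_ne
      ext <;> simp [h1, h2])
    (by
      intro p
      have h1 : (al : ℂ) ≠ 0 := by exact_mod_cast al_ne
      have h2 := be_ne
      ext <;> simp [h1, h2])

lemma D_apply (p : V4) :
    D p = ((al : ℂ) * p.1, be * p.2.1, 4 * p.2.2.1 - p.2.2.2, p.2.2.1) := rfl

lemma D_symm_apply (p : V4) :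
    D.symm p = ((al : ℂ)⁻¹ * p.1, be⁻¹ * p.2.1, p.2.2.2, 4 * p.2.2.2 - p.2.2.1) := rfl

/-- the lattice -/
noncomputable def lat (k : Fin 7 → ℤ) : V4 :=
  ((k 0 : ℂ) + k 1 * al + k 2 * al ^ 2, (k 0 : ℂ) + k 1 * be + k 2 * be ^ 2,
    (k 3 : ℂ) + k 4 * Complex.I, (k 5 : ℂ) + k 6 * Complex.I)

/-- the lattice as a subgroup -/
noncomputable def Lt : AddSubgroup V4 where
  carrier := range lat
  zero_mem' := ⟨0, by simp [lat]⟩
  add_mem' := by
    rintro _ _ ⟨k, rfl⟩ ⟨l, rfl⟩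
    refine ⟨k + l, ?_⟩
    simp only [lat, Pi.add_apply, Int.cast_add, Prod.mk_add_mk]
    ext <;> simp <;> ring
  neg_mem' := by
    rintro _ ⟨k, rfl⟩
    refine ⟨-k, ?_⟩
    simp only [lat, Pi.neg_apply, Int.cast_neg, Prod.neg_mk]
    ext <;> simp <;> ring

lemma lat_mem (k : Fin 7 → ℤ) : lat k ∈ Lt := ⟨k, rfl⟩

lemma Lt_im {l : V4} (h : l ∈ Lt) : l.1.im = 0 := by
  obtain ⟨k, rfl⟩ := h
  have h1 : ((al : ℂ) ^ 2).im = 0 := by rw [← Complex.ofReal_pow, Complex.ofReal_im]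
  simp [lat, h1]

lemma D_mem {l : V4} (h : l ∈ Lt) : D l ∈ Lt := by
  obtain ⟨k, rfl⟩ := h
  refine ⟨![k 2, k 0 + k 2, k 1, 4 * k 3 - k 5, 4 * k 4 - k 6, k 3, k 4], ?_⟩
  have h3 : ((al : ℂ)) ^ 3 = al + 1 := by exact_mod_cast al_cube
  have h4 := be_cube
  rw [D_apply]
  simp only [lat]
  refine Prod.ext ?_ (Prod.ext ?_ (Prod.ext ?_ ?_))
  · simp
    linear_combination (-(k 2 : ℂ)) * h3
  · simp
    linear_combination (-(k 2 : ℂ)) * h4
  · simp
    ring
  · simp

lemma D_symm_mem {l : V4} (h : l ∈ Lt) : D.symm l ∈ Lt := by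
  obtain ⟨k, rfl⟩ := h
  have key : D (lat ![k 1 - k 0, k 2, k 0, k 5, k 6, 4 * k 5 - k 3, 4 * k 6 - k 4]) = lat k := by
    have h3 : ((al : ℂ)) ^ 3 = al + 1 := by exact_mod_cast al_cube
    have h4 := be_cube
    rw [D_apply]
    simp only [lat]
    refine Prod.ext ?_ (Prod.ext ?_ (Prod.ext ?_ ?_))
    · simp
      linear_combination ((k 0 : ℂ)) * h3
    · simp
      linear_combination ((k 0 : ℂ)) * h4
    · simp
      ring
    · simp
  rw [← key, ContinuousLinearEquiv.symm_apply_apply]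
  exact lat_mem _

lemma Dz_mem (n : ℤ) {l : V4} (h : l ∈ Lt) : (D ^ n) l ∈ Lt := by
  induction n using Int.induction_on with
  | zero => rw [zpow_zero]; exact h
  | succ i ih =>
    rw [add_comm, zpow_add, zpow_one]
    exact D_mem ih
  | pred i ih =>
    rw [sub_eq_add_neg, add_comm, zpow_add, zpow_neg_one]
    exact D_symm_mem ih

/-- the torus part of the monodromy -/
noncomputable def AA : (ℂ × ℂ) ≃L[ℂ] (ℂ × ℂ) :=
  ContinuousLinearEquiv.equivOfInverse
    ({ toFun := fun p => (4 * p.1 - p.2, p.1)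
       map_add' := fun p q => by ext <;> simp <;> ring
       map_smul' := fun c p => by ext <;> simp <;> ring
       cont := by fun_prop } : (ℂ × ℂ) →L[ℂ] (ℂ × ℂ))
    ({ toFun := fun p => (p.2, 4 * p.2 - p.1)
       map_add' := fun p q => by ext <;> simp <;> ring
       map_smul' := fun c p => by ext <;> simp <;> ring
       cont := by fun_prop } : (ℂ × ℂ) →L[ℂ] (ℂ × ℂ))
    (by intro p; ext <;> simp)
    (by intro p; ext <;> simp)

lemma AA_apply (p : ℂ × ℂ) : AA p = (4 * p.1 - p.2, p.1) := rfl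
lemma AA_symm_apply (p : ℂ × ℂ) : AA.symm p = (p.2, 4 * p.2 - p.1) := rfl

lemma D_eq (p : V4) : D p = ((al : ℂ) * p.1, be * p.2.1, AA p.2.2) := rfl

lemma Dz_apply (n : ℤ) (p : V4) :
    (D ^ n) p = ((al : ℂ) ^ n * p.1, be ^ n * p.2.1, (AA ^ n) p.2.2) := by
  have h1 : (al : ℂ) ≠ 0 := by exact_mod_cast al_ne
  have h2 := be_ne
  induction n using Int.induction_on with
  | zero => simp only [zpow_zero, one_mul]; rfl
  | succ i ih =>
    have e : (D ^ ((i : ℤ) + 1)) p = D ((D ^ (i : ℤ)) p) := by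
      rw [add_comm, zpow_add, zpow_one]; rfl
    rw [e, ih, D_eq]
    have e2 : (AA ^ ((i : ℤ) + 1)) p.2.2 = AA ((AA ^ (i : ℤ)) p.2.2) := by
      rw [add_comm, zpow_add, zpow_one]; rfl
    rw [e2, zpow_add₀ h1, zpow_add₀ h2, zpow_one, zpow_one]
    simp only [Prod.mk.injEq, and_true]
    constructor <;> ring
  | pred i ih =>
    have e : (D ^ (-(i : ℤ) - 1)) p = D.symm ((D ^ (-(i : ℤ))) p) := by
      rw [sub_eq_add_neg, add_comm, zpow_add, zpow_neg_one]; rfl
    rw [e, ih]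
    have e2 : (AA ^ (-(i : ℤ) - 1)) p.2.2 = AA.symm ((AA ^ (-(i : ℤ))) p.2.2) := by
      rw [sub_eq_add_neg, add_comm, zpow_add, zpow_neg_one]; rfl
    rw [e2, zpow_sub₀ h1, zpow_sub₀ h2, zpow_one, zpow_one, D_symm_apply]
    simp only [AA_symm_apply, Prod.mk.injEq, and_true]
    constructor <;> field_simp

lemma Dz_im (n : ℤ) (p : V4) : ((D ^ n) p).1.im = al ^ n * p.1.im := by
  rw [Dz_apply]
  have : (al : ℂ) ^ n = ((al ^ n : ℝ) : ℂ) := by push_cast; rfl
  simp only [this, Complex.im_ofReal_mul]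

lemma Dz_add_apply (n m : ℤ) (p : V4) : (D ^ (n + m)) p = (D ^ n) ((D ^ m) p) := by
  rw [zpow_add]; rfl

/-- radius of discreteness -/
noncomputable def rr : ℝ := bi / (bi + 3)

lemma rr_pos : 0 < rr := by unfold rr; have := bi_pos; positivity

lemma rr_lt : rr < 1 := by
  unfold rr; have := bi_pos
  rw [div_lt_one (by positivity)]; linarith

lemma Lt_discrete {l : V4} (hl : l ∈ Lt) (h : ‖l‖ < rr) : l = 0 := by
  obtain ⟨k, rfl⟩ := hl
  have hb := bi_pos
  have h1 : ‖(lat k).1‖ < rr := lt_of_le_of_lt (norm_fst_le _) h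
  have h2 : ‖(lat k).2‖ < rr := lt_of_le_of_lt (norm_snd_le _) h
  have h3 : ‖(lat k).2.1‖ < rr := lt_of_le_of_lt (norm_fst_le _) h2
  have h4 : ‖(lat k).2.2‖ < rr := lt_of_le_of_lt (norm_snd_le _) h2
  have h5 : ‖(lat k).2.2.1‖ < rr := lt_of_le_of_lt (norm_fst_le _) h4
  have h6 : ‖(lat k).2.2.2‖ < rr := lt_of_le_of_lt (norm_snd_le _) h4
  have hr1 := rr_lt
  have int0 : ∀ m : ℤ, |(m : ℝ)| < 1 → m = 0 := by
    intro m hm
    have : |m| < 1 := by exact_mod_cast hm
    exact Int.abs_lt_one_iff.mp this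
  have a5 := (Complex.abs_re_le_norm _).trans_lt h5
  have b5 := (Complex.abs_im_le_norm _).trans_lt h5
  have a6 := (Complex.abs_re_le_norm _).trans_lt h6
  have b6 := (Complex.abs_im_le_norm _).trans_lt h6
  have a1 := (Complex.abs_re_le_norm _).trans_lt h1
  have a3 := (Complex.abs_re_le_norm _).trans_lt h3
  have b3 := (Complex.abs_im_le_norm _).trans_lt h3
  have hsqre : ((al : ℂ) ^ 2).re = al ^ 2 := by rw [← Complex.ofReal_pow, Complex.ofReal_re]
  have hbre : (be ^ 2).re = 1 - al ^ 2 / 2 := by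
    have := bi_sq
    simp only [be, pow_two, Complex.mul_re]
    nlinarith
  have hbim : (be ^ 2).im = - al * bi := by
    simp only [be, pow_two, Complex.mul_im]
    ring
  simp [lat, hsqre, hbre, hbim] at a1 a3 b3 a5 b5 a6 b6
  have ebr : be.re = - al / 2 := rfl
  have ebi : be.im = bi := rfl
  rw [ebr] at a3
  rw [ebi] at b3
  have k3 : k 3 = 0 := int0 _ (a5.trans hr1)
  have k4 : k 4 = 0 := int0 _ (b5.trans hr1)
  have k5 : k 5 = 0 := int0 _ (a6.trans hr1)
  have k6 : k 6 = 0 := int0 _ (b6.trans hr1)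
  -- t
  have ht : |((k 1 : ℝ) - al * k 2)| < 1 / (bi + 3) := by
    have e : (k 1 : ℝ) * bi + -(k 2 * (al * bi)) = bi * ((k 1 : ℝ) - al * k 2) := by ring
    rw [e, abs_mul, abs_of_pos hb] at b3
    unfold rr at b3
    rw [lt_div_iff₀ (by positivity)]
    rw [lt_div_iff₀ (by positivity)] at b3
    nlinarith
  have hc : |(k 2 : ℝ)| * (3 * al ^ 2 - 1) < 2 := by
    have e : (k 2 : ℝ) * (3 * al ^ 2 - 1) * 1 = (((k 0 : ℝ) + k 1 * al + k 2 * al ^ 2)) -
        (((k 0 : ℝ) + k 1 * (-al / 2) + k 2 * (1 - al ^ 2 / 2))) - (3 * al / 2) * ((k 1 : ℝ) - al * k 2) := by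
      ring
    have hpos : 0 < 3 * al ^ 2 - 1 := by linarith [al_sq_gt]
    have e2 : |(k 2 : ℝ)| * (3 * al ^ 2 - 1) = |(k 2 : ℝ) * (3 * al ^ 2 - 1) * 1| := by
      rw [mul_one, abs_mul, abs_of_pos hpos]
    rw [e2, e]
    have hal : |3 * al / 2| < 3 := by
      rw [abs_of_pos (by linarith [al_pos])]; linarith [al_lt]
    calc _ ≤ |((k 0 : ℝ) + k 1 * al + k 2 * al ^ 2)| +
          |((k 0 : ℝ) + k 1 * (-al / 2) + k 2 * (1 - al ^ 2 / 2))| +
          |(3 * al / 2) * ((k 1 : ℝ) - al * k 2)| := by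
            refine (abs_sub _ _).trans ?_
            gcongr
            exact abs_sub _ _
      _ ≤ rr + rr + 3 * (1 / (bi + 3)) := by
            rw [abs_mul]
            gcongr
      _ < 2 := by
            unfold rr
            rw [← add_div, mul_one_div, ← add_div, div_lt_iff₀ (by positivity)]
            linarith
  have k2 : k 2 = 0 := by
    apply int0
    have := al_sq_gt
    by_contra hcon
    push Not at hcon
    nlinarith [abs_nonneg (k 2 : ℝ)]
  have k1 : k 1 = 0 := by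
    apply int0
    rw [k2] at ht
    simp only [Int.cast_zero, mul_zero, sub_zero] at ht
    refine ht.trans ?_
    rw [div_lt_one (by positivity)]; linarith
  have k0 : k 0 = 0 := by
    apply int0
    rw [k1, k2] at a1
    simp only [Int.cast_zero, zero_mul, add_zero] at a1
    exact a1.trans hr1
  simp [lat, k0, k1, k2, k3, k4, k5, k6]

lemma exists_real_coords (x : ℝ) (z : ℂ) : ∃ a b c : ℝ,
    x = a + b * al + c * al ^ 2 ∧ z = (a : ℂ) + b * be + c * be ^ 2 := by
  have hb := bi_pos.ne'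
  have hpos : 0 < 3 * al ^ 2 - 1 := by linarith [al_sq_gt]
  set t := z.im / bi with ht
  set c := (x - z.re - (3 * al / 2) * t) / (3 * al ^ 2 - 1) with hc
  have hcc : c * (3 * al ^ 2 - 1) = x - z.re - (3 * al / 2) * t := by
    rw [hc]; field_simp
  have htt : t * bi = z.im := by rw [ht]; field_simp
  refine ⟨x - (al * c + t) * al - c * al ^ 2, al * c + t, c, by ring, ?_⟩
  have hbre : (be ^ 2).re = 1 - al ^ 2 / 2 := by
    have := bi_sq
    simp only [be, pow_two, Complex.mul_re]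
    nlinarith
  have hbim : (be ^ 2).im = - al * bi := by
    simp only [be, pow_two, Complex.mul_im]
    ring
  have ebr : be.re = - al / 2 := rfl
  have ebi : be.im = bi := rfl
  apply Complex.ext
  · simp only [Complex.add_re, Complex.re_ofReal_mul, Complex.ofReal_re, hbre, ebr]
    linarith
  · simp only [Complex.add_im, Complex.im_ofReal_mul, Complex.ofReal_im, hbim, ebi]
    linarith

/-- reduction modulo the lattice to a bounded region -/
lemma exists_reduce (p : V4) : ∃ l ∈ Lt, |(p + l).1.re| ≤ 8 ∧ (p + l).1.im = p.1.im ∧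
    ‖(p + l).2‖ ≤ 8 := by
  obtain ⟨a, b, c, h1, h2⟩ := exists_real_coords p.1.re p.2.1
  refine ⟨lat ![-⌊a⌋, -⌊b⌋, -⌊c⌋, -⌊p.2.2.1.re⌋, -⌊p.2.2.1.im⌋, -⌊p.2.2.2.re⌋, -⌊p.2.2.2.im⌋],
    lat_mem _, ?_, ?_, ?_⟩
  · have hsqre : ((al : ℂ) ^ 2).re = al ^ 2 := by rw [← Complex.ofReal_pow, Complex.ofReal_re]
    have hsqim : ((al : ℂ) ^ 2).im = 0 := by rw [← Complex.ofReal_pow, Complex.ofReal_im]
    have e : (p + lat ![-⌊a⌋, -⌊b⌋, -⌊c⌋, -⌊p.2.2.1.re⌋, -⌊p.2.2.1.im⌋, -⌊p.2.2.2.re⌋,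
        -⌊p.2.2.2.im⌋]).1.re = Int.fract a + Int.fract b * al + Int.fract c * al ^ 2 := by
      simp [lat, hsqre]
      rw [h1, Int.fract, Int.fract, Int.fract]; ring
    rw [e]
    have f1 := Int.fract_nonneg a
    have f2 := Int.fract_nonneg b
    have f3 := Int.fract_nonneg c
    have g1 := (Int.fract_lt_one a).le
    have g2 := (Int.fract_lt_one b).le
    have g3 := (Int.fract_lt_one c).le
    have h5 := al_lt
    have h6 := al_pos
    rw [abs_of_nonneg (by positivity)]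
    have h7 : al ^ 2 ≤ 4 := by nlinarith
    nlinarith
  · have hsqim : ((al : ℂ) ^ 2).im = 0 := by rw [← Complex.ofReal_pow, Complex.ofReal_im]
    simp [lat, hsqim]
  · rw [Prod.norm_def, Prod.norm_def]
    have hfr : ∀ x y : ℝ, ‖((x : ℂ) + y * Complex.I) + ((-⌊x⌋ : ℤ) + (-⌊y⌋ : ℤ) * Complex.I)‖ ≤ 8 := by
      intro x y
      have e : ((x : ℂ) + y * Complex.I) + ((-⌊x⌋ : ℤ) + (-⌊y⌋ : ℤ) * Complex.I) =
          ((Int.fract x : ℝ) : ℂ) + ((Int.fract y : ℝ) : ℂ) * Complex.I := by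
        rw [Int.fract, Int.fract]; push_cast; ring
      rw [e]
      refine (norm_add_le _ _).trans ?_
      rw [norm_mul, Complex.norm_I, mul_one, Complex.norm_real, Complex.norm_real,
        Real.norm_of_nonneg (Int.fract_nonneg _), Real.norm_of_nonneg (Int.fract_nonneg _)]
      have g1 := (Int.fract_lt_one x).le
      have g2 := (Int.fract_lt_one y).le
      linarith
    refine max_le ?_ (max_le ?_ ?_)
    · have e : (p + lat ![-⌊a⌋, -⌊b⌋, -⌊c⌋, -⌊p.2.2.1.re⌋, -⌊p.2.2.1.im⌋, -⌊p.2.2.2.re⌋,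
          -⌊p.2.2.2.im⌋]).2.1 = ((Int.fract a : ℝ) : ℂ) + ((Int.fract b : ℝ) : ℂ) * be +
            ((Int.fract c : ℝ) : ℂ) * be ^ 2 := by
        simp [lat]
        rw [h2, Int.fract, Int.fract, Int.fract]; push_cast; ring
      rw [e]
      refine (norm_add_le _ _).trans ?_
      refine (add_le_add_left (norm_add_le _ _) _).trans ?_
      rw [norm_mul, norm_mul, norm_pow, Complex.norm_real, Complex.norm_real, Complex.norm_real,
        Real.norm_of_nonneg (Int.fract_nonneg _), Real.norm_of_nonneg (Int.fract_nonneg _),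
        Real.norm_of_nonneg (Int.fract_nonneg _)]
      have g1 := (Int.fract_lt_one a).le
      have g2 := (Int.fract_lt_one b).le
      have g3 := (Int.fract_lt_one c).le
      have f2 := Int.fract_nonneg b
      have f3 := Int.fract_nonneg c
      have h8 := be_norm_lt.le
      have h9 := norm_nonneg be
      have h10 : ‖be‖ ^ 2 ≤ 1 := by nlinarith
      have h11 : Int.fract b * ‖be‖ ≤ 1 := by nlinarith
      have h12 : Int.fract c * ‖be‖ ^ 2 ≤ 1 := by nlinarith [sq_nonneg ‖be‖]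
      linarith
    · have := hfr p.2.2.1.re p.2.2.1.im
      rw [Complex.re_add_im] at this
      simpa [lat] using this
    · have := hfr p.2.2.2.re p.2.2.2.im
      rw [Complex.re_add_im] at this
      simpa [lat] using this

end Pool.Agent.H59.Lam
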