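import Pool.Agent.H59.Lam.Quot

set_option autoImplicit false

open Set Topology Filter
open scoped Manifold ContDiff

namespace Pool.Agent.H59.Lam

/-- the homeomorphism of an open set on which the projection is injective onto its image -/
noncomputable def secB (B : Set V4) (hB : IsOpen B) (hU : B ⊆ U) (hi : InjOn pr B) :
    OpenPartialHomeomorph V4 XX :=
  OpenPartialHomeomorph.ofContinuousOpenRestrict (BijOn.toPartialEquiv pr B (pr '' B) hi.bijOn_image)
    (pr_continuousOn.mono hU)
    (by
      intro O hO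
      have h1 : IsOpen ((↑) '' O : Set V4) := hB.isOpenMap_subtype_val O hO
      have h2 := pr_open h1 (by rintro _ ⟨p, _, rfl⟩; exact hU p.2)
      convert h2 using 1
      rw [image_image]
      rfl)
    hB

/-- the chart at (the image of) a point of the universal cover -/
noncomputable def ech (p : V4) (hp : p ∈ U) : OpenPartialHomeomorph XX V4 :=
  (secB (Metric.ball p (ep p)) Metric.isOpen_ball (ball_sub_U hp) (injOn_ball hp)).symm

lemma ech_target {p : V4} (hp : p ∈ U) : (ech p hp).target = Metric.ball p (ep p) := rfl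

lemma ech_symm {p : V4} (hp : p ∈ U) (v : V4) : (ech p hp).symm v = pr v := rfl

lemma mem_ech_target {p : V4} (hp : p ∈ U) : p ∈ (ech p hp).target := by
  rw [ech_target]
  exact Metric.mem_ball_self (ep_pos hp)

lemma mem_ech_source {p : V4} (hp : p ∈ U) : pr p ∈ (ech p hp).source :=
  (ech p hp).map_target (mem_ech_target hp)

/-- a point of the universal cover above `x` -/
noncomputable def lft (x : XX) : V4 := Classical.choose (pr_surj x)

lemma lft_mem (x : XX) : lft x ∈ U := (Classical.choose_spec (pr_surj x)).1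

lemma pr_lft (x : XX) : pr (lft x) = x := (Classical.choose_spec (pr_surj x)).2

/-- all the local inverses of the covering projection -/
def atl : Set (OpenPartialHomeomorph XX V4) := {e | e.target ⊆ U ∧ ∀ v ∈ e.target, e.symm v = pr v}

noncomputable instance instCh : ChartedSpace V4 XX where
  atlas := atl
  chartAt x := ech (lft x) (lft_mem x)
  mem_chart_source x := by
    have key : ∀ (q : V4) (hq : q ∈ U), pr q = x → x ∈ (ech q hq).source := by
      rintro q hq rfl
      exact mem_ech_source hq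
    exact key _ _ (pr_lft x)
  chart_mem_atlas x := ⟨ball_sub_U (lft_mem x), fun v _ => rfl⟩

lemma mem_atlas_iff {e : OpenPartialHomeomorph XX V4} :
    e ∈ atlas V4 XX ↔ e.target ⊆ U ∧ ∀ v ∈ e.target, e.symm v = pr v := by
  show e ∈ atl ↔ _
  exact Iff.rfl

lemma ech_mem {p : V4} (hp : p ∈ U) : ech p hp ∈ atlas V4 XX :=
  mem_atlas_iff.mpr ⟨ball_sub_U hp, fun v _ => rfl⟩

lemma atlas_sub {e : OpenPartialHomeomorph XX V4} (he : e ∈ atlas V4 XX) : e.target ⊆ U :=
  (mem_atlas_iff.mp he).1

lemma atlas_symm {e : OpenPartialHomeomorph XX V4} (he : e ∈ atlas V4 XX) {v : V4}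
    (hv : v ∈ e.target) : e.symm v = pr v :=
  (mem_atlas_iff.mp he).2 v hv

/-- if `v` is in the target of a chart, the chart sends `pr v` to `v` -/
lemma chart_pr {e : OpenPartialHomeomorph XX V4} (he : e ∈ atlas V4 XX) {v : V4}
    (hv : v ∈ e.target) : e (pr v) = v := by
  rw [← atlas_symm he hv]
  exact e.right_inv hv

lemma pr_mem_source {e : OpenPartialHomeomorph XX V4} (he : e ∈ atlas V4 XX) {v : V4}
    (hv : v ∈ e.target) : pr v ∈ e.source := by
  rw [← atlas_symm he hv]
  exact e.map_target hv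

lemma pr_move {p l : V4} (hp : p ∈ U) (hl : l ∈ Lt) (n : ℤ) : pr ((D ^ n) p + l) = pr p :=
  ((pr_eq_iff hp (add_U (Dz_U n hp) hl)).mpr ⟨n, l, hl, rfl⟩).symm

/-- local form of the changes of charts -/
lemma trans_local {e e' : OpenPartialHomeomorph XX V4} (he : e ∈ atlas V4 XX)
    (he' : e' ∈ atlas V4 XX) {y : V4} (hy : y ∈ (e.symm.trans e').source) :
    ∃ n : ℤ, ∃ l ∈ Lt, e' (e.symm y) = (D ^ n) y + l ∧ (D ^ n) y + l ∈ e'.target ∧
      (fun v => e' (e.symm v)) =ᶠ[𝓝 y] fun v => (D ^ n) v + l := by
  rw [OpenPartialHomeomorph.trans_source, OpenPartialHomeomorph.symm_source] at hy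
  obtain ⟨hy1, hy2⟩ := hy
  have hy2' : e.symm y ∈ e'.source := hy2
  have hyU : y ∈ U := atlas_sub he hy1
  have hy3 : e' (e.symm y) ∈ e'.target := e'.map_source hy2'
  have h1 : pr y = pr (e' (e.symm y)) := by
    rw [← atlas_symm he' hy3, e'.left_inv hy2', atlas_symm he hy1]
  rw [pr_eq_iff hyU (atlas_sub he' hy3)] at h1
  obtain ⟨n, l, hl, hn⟩ := h1
  refine ⟨n, l, hl, hn, by rw [← hn]; exact hy3, ?_⟩
  have hc : Continuous fun v : V4 => (D ^ n) v + l := ((D ^ n).continuous).add continuous_const
  have h2 : ∀ᶠ v in 𝓝 y, (D ^ n) v + l ∈ e'.target := by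
    apply hc.continuousAt.eventually
    exact e'.open_target.mem_nhds (by show (D ^ n) y + l ∈ e'.target; rw [← hn]; exact hy3)
  filter_upwards [h2, e.open_target.mem_nhds hy1] with v hv hv1
  rw [atlas_symm he hv1, ← pr_move (atlas_sub he hv1) hl n]
  exact chart_pr he' hv

instance : IsManifold 𝓘(ℂ, V4) ω XX := by
  apply isManifold_of_contDiffOn
  intro e e' he he'
  simp only [modelWithCornersSelf_coe, modelWithCornersSelf_coe_symm, Function.comp_id,
    Function.id_comp, preimage_id_eq, id_eq, range_id, inter_univ]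
  intro y hy
  obtain ⟨n, l, hl, -, -, hn⟩ := trans_local he he' hy
  have : ContDiffAt ℂ ω (fun v : V4 => (D ^ n) v + l) y :=
    ((D ^ n).contDiff.add contDiff_const).contDiffAt
  exact (this.congr_of_eventuallyEq hn).contDiffWithinAt

end Pool.Agent.H59.Lam
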