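import Pool.Agent.H59.Lam.Toeplitz
set_option autoImplicit false
open Set Topology Filter
namespace Pool.Agent.H59.Lam

namespace Coding

noncomputable def q : ℝ := 2 - Real.sqrt 3

theorem sqrt3_sq : Real.sqrt 3 ^ 2 = 3 := Real.sq_sqrt (by norm_num)

theorem sqrt3_lo : 1 < Real.sqrt 3 := by
  have h := sqrt3_sq
  have h0 := Real.sqrt_nonneg (3:ℝ)
  nlinarith

theorem sqrt3_hi : Real.sqrt 3 < 2 := by
  have h := sqrt3_sq
  have h0 := Real.sqrt_nonneg (3:ℝ)
  nlinarith

theorem q_pos : 0 < q := by unfold q; linarith [sqrt3_hi]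

theorem q_lt : q < 1 := by unfold q; linarith [sqrt3_lo]

theorem q_eq : q ^ 2 - 4 * q + 1 = 0 := by
  unfold q
  have h := sqrt3_sq
  linear_combination h

theorem den_eq : 4 - 2 * q = 2 * Real.sqrt 3 := by unfold q; ring

theorem den_pos : 0 < 4 - 2 * q := by rw [den_eq]; linarith [sqrt3_lo]

/-- the kernel -/
noncomputable def G (m : ℤ) : ℝ := -(q ^ m.natAbs) / (4 - 2 * q)

theorem abs_G (m : ℤ) : |G m| = q ^ m.natAbs / (4 - 2 * q) := by
  unfold G
  rw [abs_div, abs_neg, abs_of_pos den_pos, abs_of_pos (pow_pos q_pos _)]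

theorem hasSum_abs_G : HasSum (fun m : ℤ => |G m|) (1 / 2) := by
  have h1 : HasSum (fun n : ℕ => q ^ n) (1 - q)⁻¹ := hasSum_geometric_of_lt_one q_pos.le q_lt
  have h2 : HasSum (fun n : ℕ => |G (n : ℤ)|) ((1 - q)⁻¹ / (4 - 2 * q)) := by
    have := h1.div_const (4 - 2 * q)
    refine this.congr_fun ?_ |> fun h => h
    intro n
    rw [abs_G]; simp
  have h3 : HasSum (fun n : ℕ => |G (-((n : ℤ) + 1))|) (q * (1 - q)⁻¹ / (4 - 2 * q)) := by
    have := (h1.mul_left q).div_const (4 - 2 * q)
    refine this.congr_fun ?_ |> fun h => h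
    intro n
    rw [abs_G]
    have : (-((n : ℤ) + 1)).natAbs = n + 1 := by omega
    rw [this, pow_succ']
  have h4 := HasSum.of_nat_of_neg_add_one (f := fun m : ℤ => |G m|) h2 h3
  have e1 : 1 - q ≠ 0 := by linarith [q_lt]
  have e2 : 4 - 2 * q ≠ 0 := den_pos.ne'
  have e3 : (1 - q)⁻¹ / (4 - 2 * q) + q * (1 - q)⁻¹ / (4 - 2 * q) =
      (1 + q) / ((1 - q) * (4 - 2 * q)) := by
    field_simp
  have e4 : (1 + q) / ((1 - q) * (4 - 2 * q)) = 1 / 2 := by
    rw [div_eq_div_iff (mul_ne_zero e1 e2) two_ne_zero]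
    have := q_eq
    linear_combination (-2) * this
  rw [e3, e4] at h4
  exact h4

theorem summable_abs_G : Summable (fun m : ℤ => |G m|) := hasSum_abs_G.summable

theorem G_rec (m : ℤ) : G (m - 1) - 4 * G m + G (m + 1) = if m = 0 then 1 else 0 := by
  have e2 : 4 - 2 * q ≠ 0 := den_pos.ne'
  have hq := q_eq
  rcases lt_trichotomy m 0 with h | h | h
  · obtain ⟨n, rfl⟩ : ∃ n : ℕ, m = -((n : ℤ) + 1) := ⟨(-m - 1).toNat, by omega⟩
    have a1 : (-((n : ℤ) + 1) - 1).natAbs = n + 2 := by omega
    have a2 : (-((n : ℤ) + 1)).natAbs = n + 1 := by omega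
    have a3 : (-((n : ℤ) + 1) + 1).natAbs = n := by omega
    unfold G
    rw [a1, a2, a3, if_neg (by omega)]
    field_simp
    linear_combination (-(q ^ n)) * hq
  · subst h
    have g1 : G (0 - 1) = -q / (4 - 2 * q) := by unfold G; simp
    have g0 : G 0 = -1 / (4 - 2 * q) := by unfold G; simp
    have g2 : G (0 + 1) = -q / (4 - 2 * q) := by unfold G; simp
    rw [g1, g0, g2, if_pos rfl]
    have g3 : -q / (4 - 2 * q) - 4 * (-1 / (4 - 2 * q)) + -q / (4 - 2 * q) =
        (4 - 2 * q) / (4 - 2 * q) := by ring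
    rw [g3, div_self e2]
  · obtain ⟨n, rfl⟩ : ∃ n : ℕ, m = (n : ℤ) + 1 := ⟨(m - 1).toNat, by omega⟩
    have a1 : ((n : ℤ) + 1 - 1).natAbs = n := by omega
    have a2 : ((n : ℤ) + 1).natAbs = n + 1 := by omega
    have a3 : ((n : ℤ) + 1 + 1).natAbs = n + 2 := by omega
    unfold G
    rw [a1, a2, a3, if_neg (by omega)]
    field_simp
    linear_combination (-(q ^ n)) * hq

/-- real value of a bit -/
noncomputable def c (b : Bool) : ℝ := if b = true then 1 else 0

theorem c_nonneg (b : Bool) : 0 ≤ c b := by unfold c; split_ifs <;> norm_num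

theorem c_le (b : Bool) : c b ≤ 1 := by unfold c; split_ifs <;> norm_num

theorem abs_c (b : Bool) : |c b| ≤ 1 := by rw [abs_of_nonneg (c_nonneg b)]; exact c_le b

theorem c_inj {a b : Bool} (h : c a = c b) : a = b := by
  unfold c at h
  cases a <;> cases b <;> simp at h ⊢

noncomputable def t (x : Seq) : ℝ := ∑' m : ℤ, G m * c (x m)

theorem term_bound (x : Seq) (m : ℤ) : ‖G m * c (x m)‖ ≤ |G m| := by
  rw [Real.norm_eq_abs, abs_mul]
  exact mul_le_of_le_one_right (abs_nonneg _) (abs_c _)

theorem summable_t (x : Seq) : Summable fun m : ℤ => G m * c (x m) :=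
  Summable.of_norm_bounded summable_abs_G (term_bound x)

theorem continuous_t : Continuous t := by
  refine continuous_tsum (fun m => ?_) summable_abs_G (fun m x => term_bound x m)
  have h1 : Continuous fun x : Seq => x m := continuous_apply m
  have h2 : Continuous c := continuous_of_discreteTopology
  exact continuous_const.mul (h2.comp h1)

/-- inverse shift -/
def shinv (x : Seq) : Seq := fun n => x (n - 1)

theorem shinv_sh (x : Seq) : shinv (sh x) = x := by
  funext n; simp [shinv, sh]

theorem sh_shinv (x : Seq) : sh (shinv x) = x := by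
  funext n; simp [shinv, sh]

theorem continuous_shinv : Continuous shinv :=
  continuous_pi fun n => continuous_apply (n - 1)

theorem t_sh (x : Seq) : t (sh x) = ∑' m : ℤ, G (m - 1) * c (x m) := by
  unfold t sh
  rw [← (Equiv.addRight (1:ℤ)).tsum_eq (fun m => G (m - 1) * c (x m))]
  simp

theorem summable_sh (x : Seq) : Summable fun m : ℤ => G (m - 1) * c (x m) := by
  have := summable_t (sh x)
  rw [← (Equiv.addRight (1:ℤ)).summable_iff]
  refine this.congr fun m => ?_
  simp [sh]

theorem t_shinv (x : Seq) : t (shinv x) = ∑' m : ℤ, G (m + 1) * c (x m) := by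
  unfold t shinv
  rw [← (Equiv.subRight (1:ℤ)).tsum_eq (fun m => G (m + 1) * c (x m))]
  simp

theorem summable_shinv (x : Seq) : Summable fun m : ℤ => G (m + 1) * c (x m) := by
  have := summable_t (shinv x)
  rw [← (Equiv.subRight (1:ℤ)).summable_iff]
  refine this.congr fun m => ?_
  simp [shinv]

theorem t_rec (x : Seq) : t (sh x) - 4 * t x + t (shinv x) = c (x 0) := by
  rw [t_sh, t_shinv]
  unfold t
  rw [← tsum_mul_left, ← (summable_sh x).tsum_sub ((summable_t x).mul_left 4),
    ← ((summable_sh x).sub ((summable_t x).mul_left 4)).tsum_add (summable_shinv x)]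
  rw [tsum_eq_single (0:ℤ)]
  · have := G_rec 0
    simp only [if_true] at this
    linear_combination c (x 0) * this
  · intro m hm
    have := G_rec m
    rw [if_neg hm] at this
    linear_combination c (x m) * this

theorem t_diff (x y : Seq) : |t x - t y| ≤ 1 / 2 := by
  unfold t
  rw [← (summable_t x).tsum_sub (summable_t y), ← hasSum_abs_G.tsum_eq, ← Real.norm_eq_abs]
  refine tsum_of_norm_bounded summable_abs_G.hasSum fun m => ?_
  rw [← mul_sub, norm_mul, Real.norm_eq_abs, Real.norm_eq_abs]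
  refine mul_le_of_le_one_right (abs_nonneg _) ?_
  rw [abs_le]
  constructor <;> linarith [c_nonneg (x m), c_le (x m), c_nonneg (y m), c_le (y m)]

theorem int_zero {d : ℝ} (h : |d| ≤ 1 / 2) {a : ℤ} (ha : d = a) : d = 0 := by
  rw [ha] at h ⊢
  have h1 : |a| < 1 := by
    have : |(a : ℝ)| < 1 := by linarith
    exact_mod_cast this
  have : a = 0 := Int.abs_lt_one_iff.mp h1
  rw [this]; simp

def R (x y : Seq) : Prop := t x = t y ∧ t (shinv x) = t (shinv y)

theorem R_fwd {x y : Seq} (h : R x y) : x 0 = y 0 ∧ R (sh x) (sh y) := by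
  obtain ⟨h1, h2⟩ := h
  have e1 := t_rec x
  have e2 := t_rec y
  have h3 : t (sh x) - t (sh y) = c (x 0) - c (y 0) := by linarith
  have h4 : ∃ a : ℤ, t (sh x) - t (sh y) = a := by
    rw [h3]; unfold c
    split_ifs
    · exact ⟨0, by norm_num⟩
    · exact ⟨1, by norm_num⟩
    · exact ⟨-1, by norm_num⟩
    · exact ⟨0, by norm_num⟩
  obtain ⟨a, ha⟩ := h4
  have h5 := int_zero (t_diff _ _) ha
  refine ⟨c_inj (by linarith), by linarith, ?_⟩
  rw [shinv_sh, shinv_sh]; exact h1

theorem R_bwd {x y : Seq} (h : R x y) : R (shinv x) (shinv y) := by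
  obtain ⟨h1, h2⟩ := h
  have e1 := t_rec (shinv x)
  have e2 := t_rec (shinv y)
  rw [sh_shinv] at e1 e2
  have h3 : t (shinv (shinv x)) - t (shinv (shinv y)) = c (shinv x 0) - c (shinv y 0) := by
    linarith
  have h4 : ∃ a : ℤ, t (shinv (shinv x)) - t (shinv (shinv y)) = a := by
    rw [h3]; unfold c
    split_ifs
    · exact ⟨0, by norm_num⟩
    · exact ⟨1, by norm_num⟩
    · exact ⟨-1, by norm_num⟩
    · exact ⟨0, by norm_num⟩
  obtain ⟨a, ha⟩ := h4
  have h5 := int_zero (t_diff _ _) ha
  exact ⟨h2, by linarith⟩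

theorem R_eq {x y : Seq} (h : R x y) : x = y := by
  have hf : ∀ n : ℕ, R (sh^[n] x) (sh^[n] y) := by
    intro n
    induction n with
    | zero => exact h
    | succ n ih => rw [Function.iterate_succ_apply', Function.iterate_succ_apply']; exact (R_fwd ih).2
  have hb : ∀ n : ℕ, R (shinv^[n] x) (shinv^[n] y) := by
    intro n
    induction n with
    | zero => exact h
    | succ n ih => rw [Function.iterate_succ_apply', Function.iterate_succ_apply']; exact R_bwd ih
  have sf : ∀ (n : ℕ) (z : Seq) (k : ℤ), sh^[n] z k = z (k + n) := by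
    intro n
    induction n with
    | zero => intro z k; simp
    | succ n ih =>
      intro z k
      rw [Function.iterate_succ_apply, ih]
      simp only [sh]
      congr 1
      push_cast; ring
  have sb : ∀ (n : ℕ) (z : Seq) (k : ℤ), shinv^[n] z k = z (k - n) := by
    intro n
    induction n with
    | zero => intro z k; simp
    | succ n ih =>
      intro z k
      rw [Function.iterate_succ_apply, ih]
      simp only [shinv]
      congr 1
      push_cast; ring
  funext k
  rcases le_total 0 k with hk | hk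
  · obtain ⟨n, rfl⟩ := Int.eq_ofNat_of_zero_le hk
    have := (R_fwd (hf n)).1
    rw [sf, sf] at this
    simpa using this
  · obtain ⟨n, hn⟩ := Int.eq_ofNat_of_zero_le (show 0 ≤ -k by omega)
    have := (R_fwd (hb n)).1
    rw [sb, sb] at this
    have e : (0:ℤ) - n = k := by omega
    rwa [e] at this

end Coding

open Coding in
theorem exists_coding : ∃ F : Seq → ℝ × ℝ, Continuous F ∧
    (∀ x, F (sh x) = (4 * (F x).1 - (F x).2 + (if x 0 = true then 1 else 0), (F x).1)) ∧
    (∀ x y, (∃ a b : ℤ, F x = F y + ((a : ℝ), (b : ℝ))) → x = y) := by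
  refine ⟨fun x => (t x, t (shinv x)), continuous_t.prodMk (continuous_t.comp continuous_shinv),
    ?_, ?_⟩
  · intro x
    have := t_rec x
    simp only [shinv_sh]
    refine Prod.ext ?_ rfl
    change t (sh x) = 4 * t x - t (shinv x) + c (x 0)
    linarith
  · rintro x y ⟨a, b, hab⟩
    have h1 : t x = t y + a := congrArg Prod.fst hab
    have h2 : t (shinv x) = t (shinv y) + b := congrArg Prod.snd hab
    apply R_eq
    constructor
    · have := int_zero (t_diff x y) (a := a) (by linarith)
      linarith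
    · have := int_zero (t_diff (shinv x) (shinv y)) (a := b) (by linarith)
      linarith

end Pool.Agent.H59.Lam
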