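import Pool.Agent.H59.Lam.Forms

set_option autoImplicit false

open Set Topology Filter
open scoped Manifold ContDiff

namespace Pool.Agent.H59.Lam

/-- the direction of the leaves -/
noncomputable def e0 : V4 := (1, 0, 0, 0)

lemma DR_e0 (n : ℤ) : DR n e0 = (al ^ n : ℝ) • e0 := by
  rw [DR_apply, Dz_apply]
  refine Prod.ext ?_ (Prod.ext ?_ ?_)
  · simp [e0]
  · simp [e0]
  · show (AA ^ n) ((0 : ℂ), (0 : ℂ)) = _
    rw [show ((0 : ℂ), (0 : ℂ)) = (0 : ℂ × ℂ) from rfl, map_zero]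
    simp [e0]
    rfl

lemma DR_I (n : ℤ) (v : V4) : DR n (Complex.I • v) = Complex.I • DR n v := by
  rw [DR_apply, DR_apply, map_smul]

/-- leafwise coefficient with respect to the hyperbolic area form -/
noncomputable def co (w : V4 → V4 [⋀^Fin 2]→L[ℝ] ℝ) (p : V4) : ℝ :=
  p.1.im ^ 2 * w p ![e0, Complex.I • e0]

/-- imaginary part of the first coordinate -/
noncomputable def imL : V4 →L[ℝ] ℝ := Complex.imCLM.comp (ContinuousLinearMap.fst ℝ ℂ (ℂ × ℂ × ℂ))
/-- real part of the first coordinate -/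
noncomputable def reL : V4 →L[ℝ] ℝ := Complex.reCLM.comp (ContinuousLinearMap.fst ℝ ℂ (ℂ × ℂ × ℂ))

lemma imL_apply (p : V4) : imL p = p.1.im := rfl
lemma reL_apply (p : V4) : reL p = p.1.re := rfl

lemma im_ne {p : V4} (hp : p ∈ U) : imL p ≠ 0 := ne_of_gt hp

lemma co_SInv {w : V4 → V4 [⋀^Fin 2]→L[ℝ] ℝ} (h : FInv 2 w) : SInv (co w) := by
  refine ⟨?_, ?_⟩
  · have h1 : ContDiffOn ℝ ∞ (fun p : V4 => imL p ^ 2) U := (imL.contDiff.pow 2).contDiffOn
    have h2 : ContDiffOn ℝ ∞ (fun p : V4 => w p ![e0, Complex.I • e0]) U :=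
      (ContinuousAlternatingMap.apply ℝ V4 ℝ ![e0, Complex.I • e0]).contDiff.comp_contDiffOn h.1
    exact h1.mul h2
  · intro n l hl p hp
    unfold co
    rw [mv_im hl, h.2 n l hl p hp]
    rw [ContinuousAlternatingMap.compContinuousLinearMap_apply]
    have e : (⇑(DR n) ∘ ![e0, Complex.I • e0]) = fun i => (al ^ n : ℝ) • (![e0, Complex.I • e0] : Fin 2 → V4) i := by
      funext i
      fin_cases i
      · simp [DR_e0]
      · simp only [Function.comp]
        show DR n (Complex.I • e0) = (al ^ n : ℝ) • (Complex.I • e0)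
        rw [DR_I, DR_e0, smul_comm]
    rw [e]
    have e2 := (w (mv n l p)).map_smul_univ (fun _ => (al ^ n : ℝ)) (![e0, Complex.I • e0])
    rw [e2]
    simp only [Finset.prod_const, Finset.card_univ, Fintype.card_fin, smul_eq_mul]
    ring

/-- the form `dx` -/
noncomputable def dx1 : V4 [⋀^Fin 1]→L[ℝ] ℝ :=
  ContinuousAlternatingMap.ofSubsingleton ℝ V4 ℝ (0 : Fin 1) reL

/-- the form `dx ∧ dy` -/
noncomputable def om0 : V4 [⋀^Fin 2]→L[ℝ] ℝ :=
  ContinuousAlternatingMap.alternatizeUncurryFin (-(imL.smulRight dx1))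

lemma om0_apply (v : Fin 2 → V4) :
    om0 v = (v 0).1.re * (v 1).1.im - (v 0).1.im * (v 1).1.re := by
  unfold om0
  rw [ContinuousAlternatingMap.alternatizeUncurryFin_apply, Fin.sum_univ_two]
  simp [dx1, imL_apply, reL_apply, Fin.removeNth, Fin.tail]
  ring

lemma om0_comp (n : ℤ) : om0.compContinuousLinearMap (DR n) = ((al ^ n) ^ 2 : ℝ) • om0 := by
  ext v
  rw [ContinuousAlternatingMap.compContinuousLinearMap_apply, om0_apply,
    ContinuousAlternatingMap.smul_apply, om0_apply]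
  have e : ∀ q : V4, ((DR n q).1).re = al ^ n * q.1.re ∧ ((DR n q).1).im = al ^ n * q.1.im := by
    intro q
    rw [DR_apply, Dz_apply]
    have : (al : ℂ) ^ n = ((al ^ n : ℝ) : ℂ) := by push_cast; rfl
    simp only [this, Complex.re_ofReal_mul, Complex.im_ofReal_mul, and_self]
  simp only [Function.comp, (e _).1, (e _).2, smul_eq_mul]
  ring

/-- the form `a dx ∧ dy / y²` -/
noncomputable def bet (a : V4 → ℝ) (p : V4) : V4 [⋀^Fin 2]→L[ℝ] ℝ :=
  (a p * (imL p ^ 2)⁻¹) • om0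

lemma bet_FInv {a : V4 → ℝ} (h : SInv a) : FInv 2 (bet a) := by
  refine ⟨?_, ?_⟩
  · have h1 : ContDiffOn ℝ ∞ (fun p : V4 => (imL p ^ 2)⁻¹) U :=
      ((imL.contDiff.pow 2).contDiffOn).inv (fun p hp => pow_ne_zero 2 (im_ne hp))
    exact (h.1.mul h1).smul contDiffOn_const
  · intro n l hl p hp
    unfold bet
    rw [h.2 n l hl p hp]
    ext v
    rw [ContinuousAlternatingMap.compContinuousLinearMap_apply, ContinuousAlternatingMap.smul_apply,
      ContinuousAlternatingMap.smul_apply, ← ContinuousAlternatingMap.compContinuousLinearMap_apply,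
      om0_comp, ContinuousAlternatingMap.smul_apply]
    rw [imL_apply, imL_apply, mv_im hl]
    have h1 : al ^ n ≠ 0 := (zpow_pos al_pos n).ne'
    have h2 : p.1.im ≠ 0 := im_ne hp
    simp only [smul_eq_mul]
    field_simp

lemma co_bet (a : V4 → ℝ) {p : V4} (hp : p ∈ U) : co (bet a) p = a p := by
  unfold co bet
  rw [ContinuousAlternatingMap.smul_apply, om0_apply, imL_apply]
  have h2 : p.1.im ≠ 0 := im_ne hp
  simp [e0]
  field_simp

/-- the form `dx / y` -/
noncomputable def the (p : V4) : V4 [⋀^Fin 1]→L[ℝ] ℝ := (imL p)⁻¹ • dx1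

lemma the_FInv : FInv 1 the := by
  refine ⟨?_, ?_⟩
  · have h1 : ContDiffOn ℝ ∞ (fun p : V4 => (imL p)⁻¹) U :=
      (imL.contDiff.contDiffOn).inv (fun p hp => (im_ne hp))
    exact h1.smul contDiffOn_const
  · intro n l hl p hp
    unfold the
    ext v
    rw [ContinuousAlternatingMap.compContinuousLinearMap_apply, ContinuousAlternatingMap.smul_apply,
      ContinuousAlternatingMap.smul_apply]
    rw [imL_apply, imL_apply, mv_im hl]
    have h1 : al ^ n ≠ 0 := (zpow_pos al_pos n).ne'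
    have h2 : p.1.im ≠ 0 := im_ne hp
    have e : dx1 (⇑(DR n) ∘ v) = al ^ n * dx1 v := by
      simp only [dx1, ContinuousAlternatingMap.ofSubsingleton_apply_apply, Function.comp, reL_apply]
      rw [DR_apply, Dz_apply]
      have : (al : ℂ) ^ n = ((al ^ n : ℝ) : ℂ) := by push_cast; rfl
      simp only [this, Complex.re_ofReal_mul]
    rw [e]
    simp only [smul_eq_mul]
    field_simp

lemma extDeriv_the {p : V4} (hp : p ∈ U) : extDeriv the p = bet (fun _ => 1) p := by
  have h : HasFDerivAt the ((-(imL p ^ 2)⁻¹ • imL).smulRight dx1) p := by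
    have h1 : HasFDerivAt (fun q : V4 => (imL q)⁻¹) (-(imL p ^ 2)⁻¹ • imL) p := by
      have := (hasDerivAt_inv (im_ne hp)).comp_hasFDerivAt p imL.hasFDerivAt
      exact this
    exact h1.smul_const dx1
  rw [extDeriv, h.fderiv]
  unfold bet om0
  rw [one_mul, ← ContinuousAlternatingMap.alternatizeUncurryFin_smul]
  congr 1
  refine ContinuousLinearMap.ext fun v => ContinuousAlternatingMap.ext fun w => ?_
  simp
  ring

/-- the leafwise Laplacian -/
noncomputable def lap (f : V4 → ℝ) (p : V4) : ℝ :=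
  fderiv ℝ (fun q => fderiv ℝ f q e0) p e0 +
    fderiv ℝ (fun q => fderiv ℝ f q (Complex.I • e0)) p (Complex.I • e0)

lemma mulI_apply (v : V4) : mulI v = Complex.I • v := rfl

lemma dc_congr {f g : V4 → ℝ} {p : V4} (h : f =ᶠ[𝓝 p] g) : dc f =ᶠ[𝓝 p] dc g := by
  filter_upwards [h.fderiv (𝕜 := ℝ)] with q hq
  unfold dc
  rw [hq]

lemma dc_contDiffAt {f : V4 → ℝ} {p : V4} (h : ContDiffAt ℝ ∞ f p) : ContDiffAt ℝ ∞ (dc f) p := by
  have h1 : ContDiffAt ℝ ∞ (fderiv ℝ f) p := h.fderiv_right (by simp)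
  have h2 : ContDiffAt ℝ ∞ (fun q => (fderiv ℝ f q).comp (mulI : V4 →L[ℝ] V4)) p :=
    h1.clm_comp contDiffAt_const
  have h3 := h2.const_smul (-(2 * Real.pi)⁻¹)
  exact ((ContinuousAlternatingMap.ofSubsingletonLIE (𝕜 := ℝ) (E := V4) (F := ℝ)
    (0 : Fin 1)).contDiff.contDiffAt).comp p h3

lemma extDeriv_contDiffAt {k : ℕ} {w : V4 → V4 [⋀^Fin k]→L[ℝ] ℝ} {p : V4} (h : ContDiffAt ℝ ∞ w p) :
    ContDiffAt ℝ ∞ (extDeriv w) p := by
  have h1 : ContDiffAt ℝ ∞ (fderiv ℝ w) p := h.fderiv_right (by simp)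
  exact ((ContinuousAlternatingMap.alternatizeUncurryFinCLM ℝ V4 ℝ).contDiff.contDiffAt).comp p h1

/-- `dd^c` of an invariant function -/
noncomputable def ddc (f : V4 → ℝ) (p : V4) : V4 [⋀^Fin 2]→L[ℝ] ℝ := extDeriv (dc f) p

lemma SInv.contDiffAt {a : V4 → ℝ} (h : SInv a) {p : V4} (hp : p ∈ U) : ContDiffAt ℝ ∞ a p :=
  h.1.contDiffAt (U_open.mem_nhds hp)

lemma ddc_FInv {f : V4 → ℝ} (h : SInv f) : FInv 2 (ddc f) := by
  refine ⟨fun p hp => (extDeriv_contDiffAt (dc_contDiffAt (h.contDiffAt hp))).contDiffWithinAt, ?_⟩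
  intro n l hl p hp
  have hq : mv n l p ∈ U := mv_U hl hp
  have hd : DifferentiableAt ℝ (dc f) (mv n l p) :=
    (dc_contDiffAt (h.contDiffAt hq)).differentiableAt (by simp)
  have key := extDeriv_pullback (𝕜 := ℝ) (r := ∞) (f := mv n l) (x := p)
    hd (mv_contDiff n l).contDiffAt
    (by
      rw [minSmoothness_of_isRCLikeNormedField]
      show ((2 : ℕ∞) : WithTop ℕ∞) ≤ ((⊤ : ℕ∞) : WithTop ℕ∞)
      exact WithTop.coe_le_coe.mpr le_top)
  rw [mv_fderiv] at key
  unfold ddc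
  rw [← key]
  apply Filter.EventuallyEq.extDeriv_eq
  filter_upwards [U_open.mem_nhds hp] with q hq
  rw [mv_fderiv]
  have h1 : f =ᶠ[𝓝 q] fun r => f (mv n l r) := by
    filter_upwards [U_open.mem_nhds hq] with r hr
    exact (h.2 n l hl r hr).symm
  have h2 : fderiv ℝ f q = (fderiv ℝ f (mv n l q)).comp (DR n) := by
    rw [h1.fderiv_eq]
    have h3 : DifferentiableAt ℝ f (mv n l q) :=
      (h.contDiffAt (mv_U hl hq)).differentiableAt (by simp)
    exact (h3.hasFDerivAt.comp q (mv_hasFDerivAt n l q)).fderiv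
  unfold dc
  rw [h2]
  ext v
  simp only [ContinuousAlternatingMap.ofSubsingleton_apply_apply,
    ContinuousAlternatingMap.compContinuousLinearMap_apply, smul_apply,
    ContinuousLinearMap.comp_apply, mulI_apply, Function.comp]
  rw [DR_I]

lemma co_ddc {f : V4 → ℝ} {p : V4} (h : ContDiffAt ℝ ∞ f p) :
    co (ddc f) p = (2 * Real.pi)⁻¹ * (p.1.im ^ 2 * lap f p) := by
  unfold co ddc lap
  rw [extDeriv_apply ((dc_contDiffAt h).differentiableAt (by simp)), Fin.sum_univ_two]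
  have h1 : DifferentiableAt ℝ (fderiv ℝ f) p := (h.fderiv_right (m := ∞) (by simp)).differentiableAt (by simp)
  have h2 : ∀ v : V4, DifferentiableAt ℝ (fun q => fderiv ℝ f q v) p := fun v =>
    h1.clm_apply (differentiableAt_const v)
  have e1 : (fun q => dc f q ((0 : Fin 2).removeNth ![e0, Complex.I • e0])) =
      fun q => (2 * Real.pi)⁻¹ * fderiv ℝ f q e0 := by
    funext q
    have : Complex.I • Complex.I • e0 = - e0 := by
      rw [smul_smul, Complex.I_mul_I, neg_one_smul]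
    simp [dc, mulI_apply, this]
  have e2 : (fun q => dc f q ((1 : Fin 2).removeNth ![e0, Complex.I • e0])) =
      fun q => (-(2 * Real.pi)⁻¹) * fderiv ℝ f q (Complex.I • e0) := by
    funext q
    simp [dc, mulI_apply, Fin.removeNth]
  rw [e1, e2, fderiv_const_mul (h2 _), fderiv_const_mul (h2 _)]
  simp
  ring

end Pool.Agent.H59.Lam
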