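import Pool.Agent.H59.Lam.Leaves

set_option autoImplicit false

open Set Topology Filter
open scoped Manifold ContDiff

namespace Pool.Agent.H59.Lam

/-- value of an alternating 2-form on a complex line -/
lemma alt_line (w : V4 [⋀^Fin 2]→L[ℝ] ℝ) (c : ℂ) (v : V4) :
    w ![c • v, Complex.I • (c • v)] = Complex.normSq c * w ![v, Complex.I • v] := by
  have add1 : ∀ x y z : V4, w ![x + y, z] = w ![x, z] + w ![y, z] := fun x y z =>
    w.toAlternatingMap.map_vecCons_add ![z] x y
  have smul1 : ∀ (r : ℝ) (x z : V4), w ![r • x, z] = r * w ![x, z] := fun r x z =>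
    w.toAlternatingMap.map_vecCons_smul ![z] r x
  have swap : ∀ x y : V4, w ![x, y] = - w ![y, x] := by
    intro x y
    have h := w.toAlternatingMap.map_swap ![y, x] (i := 0) (j := 1) (by decide)
    have e : (![y, x] ∘ (Equiv.swap (0 : Fin 2) 1)) = ![x, y] := by
      funext i
      fin_cases i <;> simp
    rw [e] at h
    exact h
  have self : ∀ x : V4, w ![x, x] = 0 := by
    intro x
    have := swap x x
    linarith
  have add2 : ∀ x y z : V4, w ![z, x + y] = w ![z, x] + w ![z, y] := by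
    intro x y z
    rw [swap, add1, swap z x, swap z y]; ring
  have smul2 : ∀ (r : ℝ) (x z : V4), w ![z, r • x] = r * w ![z, x] := by
    intro r x z
    rw [swap, smul1, swap z x]; ring
  have e1 : c • v = c.re • v + c.im • (Complex.I • v) := by
    conv_lhs => rw [← Complex.re_add_im c]
    rw [add_smul, mul_smul]
    simp only [Complex.coe_smul]
  have e2 : Complex.I • (c • v) = c.re • (Complex.I • v) + (-c.im) • v := by
    rw [e1, smul_add, smul_comm Complex.I c.re, smul_comm Complex.I c.im, smul_smul Complex.I,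
      Complex.I_mul_I, neg_one_smul, smul_neg, neg_smul]
  rw [e2, e1, add1, add2, add2, smul1, smul1, smul1, smul1, smul2, smul2, smul2, smul2, self, self,
    swap (Complex.I • v) v, Complex.normSq_apply]
  ring

lemma SInv.add {a b : V4 → ℝ} (ha : SInv a) (hb : SInv b) : SInv (a + b) :=
  ⟨ha.1.add hb.1, fun n l hl p hp => by
    rw [Pi.add_apply, Pi.add_apply, ha.2 n l hl p hp, hb.2 n l hl p hp]⟩

lemma SInv.smul {a : V4 → ℝ} (c : ℝ) (ha : SInv a) : SInv (c • a) :=
  ⟨ha.1.const_smul c, fun n l hl p hp => by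
    rw [Pi.smul_apply, Pi.smul_apply, ha.2 n l hl p hp]⟩

lemma SInv.const (c : ℝ) : SInv (fun _ => c) := ⟨contDiffOn_const, fun _ _ _ _ _ => rfl⟩

lemma SInv.comp {a : V4 → ℝ} (ha : SInv a) {g : ℝ → ℝ} (hg : ContDiff ℝ ∞ g) :
    SInv (fun p => g (a p)) :=
  ⟨hg.comp_contDiffOn ha.1, fun n l hl p hp => by
    show g (a (mv n l p)) = g (a p)
    rw [ha.2 n l hl p hp]⟩

/-- invariant continuous functions are bounded -/
lemma bdd_of_inv {a : V4 → ℝ} (hc : ContinuousOn a U)
    (hi : ∀ n : ℤ, ∀ l ∈ Lt, ∀ p ∈ U, a (mv n l p) = a p) : ∃ C, 0 ≤ C ∧ ∀ p ∈ U, |a p| ≤ C := by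
  obtain ⟨C, hC⟩ := CC_compact.exists_bound_of_continuousOn (hc.mono CC_sub)
  refine ⟨max C 0, le_max_right _ _, fun p hp => ?_⟩
  obtain ⟨q, hq, n, l, hl, rfl⟩ := exists_rel_CC hp
  rw [← hi n l hl p hp]
  exact (hC _ hq).trans (le_max_left _ _)

lemma SInv.bdd {a : V4 → ℝ} (ha : SInv a) : ∃ C, 0 ≤ C ∧ ∀ p ∈ U, |a p| ≤ C :=
  bdd_of_inv ha.1.continuousOn ha.2

/-- the space of smooth invariant functions -/
def SI : Submodule ℝ (V4 → ℝ) where
  carrier := {a | SInv a}
  add_mem' := fun ha hb => SInv.add ha hb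
  zero_mem' := SInv.const 0
  smul_mem' := fun c _ ha => SInv.smul c ha

/-- the form with given leafwise coefficient -/
noncomputable def Bl : SI →ₗ[ℝ] smoothForm V4 XX 2 where
  toFun a := mkForm (bet a.1) (bet_FInv a.2)
  map_add' a b := by
    apply Subtype.ext
    funext e p
    show bet (a.1 + b.1) p = bet a.1 p + bet b.1 p
    unfold bet
    rw [Pi.add_apply, add_mul, add_smul]
  map_smul' c a := by
    apply Subtype.ext
    funext e p
    show bet (c • a.1) p = c • bet a.1 p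
    unfold bet
    rw [Pi.smul_apply, smul_eq_mul, mul_assoc, smul_smul]

/-- leafwise coefficient of a form on the quotient -/
noncomputable def cfl : smoothForm V4 XX 2 →ₗ[ℝ] SI where
  toFun η := ⟨co (tl η), co_SInv (tl_inv η)⟩
  map_add' η θ := by
    apply Subtype.ext
    funext p
    show co (tl (η + θ)) p = co (tl η) p + co (tl θ) p
    unfold co
    rw [tl_add, ContinuousAlternatingMap.add_apply, mul_add]
  map_smul' c η := by
    apply Subtype.ext
    funext p
    show co (tl (c • η)) p = c • co (tl η) p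
    unfold co
    rw [tl_smul, ContinuousAlternatingMap.smul_apply, smul_eq_mul, smul_eq_mul]
    ring

lemma cfl_apply (η : smoothForm V4 XX 2) (p : V4) : (cfl η).1 p = co (tl η) p := rfl

lemma cfl_mkForm {w : V4 → V4 [⋀^Fin 2]→L[ℝ] ℝ} (h : FInv 2 w) {p : V4} (hp : p ∈ U) :
    (cfl (mkForm w h)).1 p = co w p := by
  rw [cfl_apply]
  unfold co
  rw [tl_mkForm w h hp]

lemma cfl_Bl (a : SI) {p : V4} (hp : p ∈ U) : (cfl (Bl a)).1 p = a.1 p := by
  show (cfl (mkForm (bet a.1) (bet_FInv a.2))).1 p = a.1 p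
  rw [cfl_mkForm _ hp, co_bet _ hp]

/-- the constant function one -/
noncomputable def oneSI : SI := ⟨fun _ => 1, SInv.const 1⟩

namespace KData

variable (κ : KData)

/-- if the coefficient vanishes on the lamination, so does the current -/
lemma dir_zero {T : Current V4 XX} (hd : κ.lam.IsDirected T) {η : smoothForm V4 XX 2}
    (h : ∀ p ∈ U, p.2.2 ∈ κ.K → (cfl η).1 p = 0) : T η = 0 := by
  apply hd
  intro e he y hy v hv
  obtain ⟨hyK, c, rfl⟩ := κ.tangent_of he hy hv
  rw [alt_line]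
  have hyU := atlas_sub he hy
  have h1 := h y hyU hyK
  rw [cfl_apply, co, ← tl_eq η he hy] at h1
  have h2 : y.1.im ^ 2 ≠ 0 := pow_ne_zero 2 (im_ne hyU)
  rw [(mul_eq_zero.mp h1).resolve_left h2, mul_zero]

lemma dir_congr {T : Current V4 XX} (hd : κ.lam.IsDirected T) {η θ : smoothForm V4 XX 2}
    (h : ∀ p ∈ U, p.2.2 ∈ κ.K → (cfl η).1 p = (cfl θ).1 p) : T η = T θ := by
  have : T (η + (-1 : ℝ) • θ) = 0 := by
    apply κ.dir_zero hd
    intro p hp hK
    rw [map_add, map_smul]
    show (cfl η).1 p + (-1 : ℝ) • (cfl θ).1 p = 0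
    rw [h p hp hK, smul_eq_mul]
    ring
  rw [map_add, map_smul, smul_eq_mul] at this
  linarith

/-- smooth positive part -/
noncomputable def Psi (ε t : ℝ) : ℝ := (t + ε) * Real.smoothTransition ((t + ε) / ε)

lemma Psi_nonneg {ε : ℝ} (hε : 0 < ε) (t : ℝ) : 0 ≤ Psi ε t := by
  unfold Psi
  rcases le_or_gt (t + ε) 0 with h | h
  · rw [Real.smoothTransition.zero_of_nonpos (div_nonpos_of_nonpos_of_nonneg h hε.le), mul_zero]
  · exact mul_nonneg h.le (Real.smoothTransition.nonneg _)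

lemma Psi_eq {ε : ℝ} (hε : 0 < ε) {t : ℝ} (ht : 0 ≤ t) : Psi ε t = t + ε := by
  unfold Psi
  rw [Real.smoothTransition.one_of_one_le, mul_one]
  rw [le_div_iff₀ hε]; linarith

lemma Psi_contDiff (ε : ℝ) : ContDiff ℝ ∞ (Psi ε) := by
  unfold Psi
  exact (contDiff_id.add contDiff_const).mul
    (Real.smoothTransition.contDiff.comp ((contDiff_id.add contDiff_const).div_const ε))

lemma Bl_pos {T : Current V4 XX} (hp : IsPositive T) {a : SI} (h : ∀ p ∈ U, 0 ≤ a.1 p) :
    0 ≤ T (Bl a) := by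
  apply hp
  intro e he y hy v
  show 0 ≤ bet a.1 y ![v, Complex.I • v]
  unfold bet
  rw [ContinuousAlternatingMap.smul_apply, om0_apply, smul_eq_mul]
  have hyU := atlas_sub he hy
  have h1 := h y hyU
  have h2 : 0 ≤ (imL y ^ 2)⁻¹ := by positivity
  have h3 : 0 ≤ ((![v, Complex.I • v] : Fin 2 → V4) 0).1.re *
      ((![v, Complex.I • v] : Fin 2 → V4) 1).1.im -
      ((![v, Complex.I • v] : Fin 2 → V4) 0).1.im *
      ((![v, Complex.I • v] : Fin 2 → V4) 1).1.re := by
    simp
    nlinarith [sq_nonneg v.1.re, sq_nonneg v.1.im]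
  positivity

/-- a positive directed current is nonnegative on forms nonnegative along the lamination -/
lemma pos_of {T : Current V4 XX} (hp : IsPositive T) (hd : κ.lam.IsDirected T)
    {η : smoothForm V4 XX 2} (h : ∀ p ∈ U, p.2.2 ∈ κ.K → 0 ≤ (cfl η).1 p) : 0 ≤ T η := by
  have key : ∀ ε : ℝ, 0 < ε → 0 ≤ T η + ε * T (Bl oneSI) := by
    intro ε hε
    have h1 : 0 ≤ T (Bl ⟨fun p => Psi ε ((cfl η).1 p), (cfl η).2.comp (Psi_contDiff ε)⟩) :=
      Bl_pos hp (fun p _ => Psi_nonneg hε _)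
    have h2 : T (Bl ⟨fun p => Psi ε ((cfl η).1 p), (cfl η).2.comp (Psi_contDiff ε)⟩) =
        T (η + ε • Bl oneSI) := by
      apply κ.dir_congr hd
      intro p hpU hK
      rw [cfl_Bl _ hpU, map_add, map_smul]
      show Psi ε ((cfl η).1 p) = (cfl η).1 p + ε • (cfl (Bl oneSI)).1 p
      rw [cfl_Bl _ hpU, Psi_eq hε (h p hpU hK)]
      simp [oneSI]
    rw [h2, map_add, map_smul, smul_eq_mul] at h1
    exact h1
  have h1 : 0 ≤ T (Bl oneSI) := Bl_pos hp (fun p _ => by show (0:ℝ) ≤ 1; norm_num)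
  by_contra hneg
  push Not at hneg
  have h2 := key ((-T η) / (2 * (T (Bl oneSI) + 1))) (div_pos (by linarith) (by linarith))
  have h3 : (-T η) / (2 * (T (Bl oneSI) + 1)) * T (Bl oneSI) ≤ (-T η) / 2 := by
    rw [div_mul_eq_mul_div, div_le_div_iff₀ (by linarith) (by norm_num)]
    nlinarith
  linarith

lemma abs_le_of {T : Current V4 XX} (hp : IsPositive T) (hd : κ.lam.IsDirected T)
    {η : smoothForm V4 XX 2} {C : ℝ} (h : ∀ p ∈ U, p.2.2 ∈ κ.K → |(cfl η).1 p| ≤ C) :
    |T η| ≤ C * T (Bl oneSI) := by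
  rw [abs_le]
  constructor
  · have h1 : 0 ≤ T (C • Bl oneSI + η) := by
      apply κ.pos_of hp hd
      intro p hpU hK
      rw [map_add, map_smul]
      show 0 ≤ C • (cfl (Bl oneSI)).1 p + (cfl η).1 p
      rw [cfl_Bl _ hpU]
      have := (abs_le.mp (h p hpU hK)).1
      simp only [oneSI, smul_eq_mul, mul_one]
      linarith
    rw [map_add, map_smul, smul_eq_mul] at h1
    linarith
  · have h1 : 0 ≤ T (C • Bl oneSI + (-1 : ℝ) • η) := by
      apply κ.pos_of hp hd
      intro p hpU hK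
      rw [map_add, map_smul, map_smul]
      show 0 ≤ C • (cfl (Bl oneSI)).1 p + (-1 : ℝ) • (cfl η).1 p
      rw [cfl_Bl _ hpU]
      have := (abs_le.mp (h p hpU hK)).2
      simp only [oneSI, smul_eq_mul, mul_one]
      linarith
    rw [map_add, map_smul, map_smul, smul_eq_mul, smul_eq_mul] at h1
    linarith

lemma eq_zero_of {T : Current V4 XX} (hp : IsPositive T) (hd : κ.lam.IsDirected T)
    (h1 : T (Bl oneSI) = 0) : T = 0 := by
  ext η
  obtain ⟨C, -, hC⟩ := (cfl η).2.bdd
  have := κ.abs_le_of hp hd (η := η) (fun p hpU _ => hC p hpU)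
  rw [h1, mul_zero] at this
  exact abs_eq_zero.mp (le_antisymm this (abs_nonneg _))

/-- nonzero positive directed currents are not closed -/
lemma not_closed {T : Current V4 XX} (hp : IsPositive T) (hd : κ.lam.IsDirected T) (h0 : T ≠ 0) :
    ¬ IsClosedCurrent T := by
  intro hc
  apply h0
  apply κ.eq_zero_of hp hd
  apply hc (mkForm the the_FInv) (Bl oneSI)
  intro e he y hy
  show bet (fun _ => 1) y = extDeriv the y
  rw [extDeriv_the (atlas_sub he hy)]

end KData

/-- descent of an invariant function -/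
noncomputable def des (a : V4 → ℝ) (x : XX) : ℝ := a (lft x)

lemma des_pr {a : V4 → ℝ} (h : SInv a) {p : V4} (hp : p ∈ U) : des a (pr p) = a p := by
  unfold des
  have h1 : rel p (lft (pr p)) := by
    rw [← pr_eq_iff hp (lft_mem _), pr_lft]
  obtain ⟨n, l, hl, hn⟩ := h1
  rw [hn]
  exact h.2 n l hl p hp

lemma ddc_zero {T : Current V4 XX} (h : IsDdcClosed T) {a : V4 → ℝ} (ha : SInv a) :
    T (mkForm (ddc a) (ddc_FInv ha)) = 0 := by
  have loc : ∀ e ∈ atlas V4 XX, ∀ y ∈ e.target, (fun v => des a (e.symm v)) =ᶠ[𝓝 y] a := by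
    intro e he y hy
    filter_upwards [e.open_target.mem_nhds hy] with v hv
    rw [atlas_symm he hv, des_pr ha (atlas_sub he hv)]
  apply h (des a)
  · intro e he y hy
    exact ((ha.contDiffAt (atlas_sub he hy)).congr_of_eventuallyEq (loc e he y hy)).contDiffWithinAt
  · intro e he y hy
    show extDeriv (dc a) y = _
    exact (dc_congr (loc e he y hy).symm).extDeriv_eq

/-- a criterion for harmonicity -/
lemma KData.harmonic_of (κ : KData) {T : Current V4 XX}
    (h1 : ∀ η : smoothForm V4 XX 2, (∀ p ∈ U, p.2.2 ∈ κ.K → 0 ≤ (cfl η).1 p) → 0 ≤ T η)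
    (h2 : ∀ a : V4 → ℝ, SInv a → ∀ η : smoothForm V4 XX 2,
      (∀ p ∈ U, (cfl η).1 p = co (ddc a) p) → T η = 0) : κ.lam.IsHarmonic T := by
  refine ⟨?_, ?_, ?_⟩
  · intro η hη
    apply h1
    intro p hp _
    rw [cfl_apply, co, ← tl_eq η (ech_mem hp) (mem_ech_target hp)]
    exact mul_nonneg (sq_nonneg _) (hη _ (ech_mem hp) p (mem_ech_target hp) e0)
  · intro η hη
    have key : ∀ p ∈ U, p.2.2 ∈ κ.K → (cfl η).1 p = 0 := by
      intro p hp hK
      rw [cfl_apply, co, ← tl_eq η (ech_mem hp) (mem_ech_target hp),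
        hη _ (ech_mem hp) p (mem_ech_target hp) e0 (κ.tangent_e0 (ech_mem hp) (mem_ech_target hp) hK),
        mul_zero]
    have h3 := h1 η (fun p hp hK => (key p hp hK).ge)
    have h4 := h1 ((-1 : ℝ) • η) (fun p hp hK => by
      rw [map_smul]
      show 0 ≤ (-1 : ℝ) • (cfl η).1 p
      rw [key p hp hK, smul_zero])
    rw [map_smul, smul_eq_mul] at h4
    linarith
  · intro f hf η hη
    have hs : ∀ p ∈ U, ContDiffAt ℝ ∞ (fun v => f (pr v)) p := by
      intro p hp
      exact (hf _ (ech_mem hp)).contDiffAt ((ech p hp).open_target.mem_nhds (mem_ech_target hp))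
    have ha : SInv (fun v => f (pr v)) := by
      refine ⟨fun p hp => (hs p hp).contDiffWithinAt, ?_⟩
      intro n l hl p hp
      show f (pr (mv n l p)) = f (pr p)
      rw [pr_mv hl hp]
    apply h2 _ ha η
    intro p hp
    rw [cfl_apply, co, co, ← tl_eq η (ech_mem hp) (mem_ech_target hp),
      hη _ (ech_mem hp) p (mem_ech_target hp)]
    rfl

end Pool.Agent.H59.Lam
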