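import Pool.Agent.H59.Lam.Stmt

set_option autoImplicit false

open Set Topology Filter
open scoped Manifold ContDiff

namespace Pool.Agent.H59.Lam

section Forms

variable (V : Type) [NormedAddCommGroup V] [NormedSpace ℂ V]
  (X : Type) [TopologicalSpace X] [ChartedSpace V X]

/-- Alternating real `k`-forms on the complex vector space `V`. -/
abbrev Alt (k : ℕ) : Type := V [⋀^Fin k]→L[ℝ] ℝ

/-- Families of `k`-forms on (open subsets of) `V`, one for each chart. -/
def Fam (k : ℕ) : Type := OpenPartialHomeomorph X V → V → Alt V k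

noncomputable instance instFamGroup (k : ℕ) : AddCommGroup (Fam V X k) :=
  inferInstanceAs (AddCommGroup (OpenPartialHomeomorph X V → V → Alt V k))

noncomputable instance instFamModule (k : ℕ) : Module ℝ (Fam V X k) :=
  inferInstanceAs (Module ℝ (OpenPartialHomeomorph X V → V → Alt V k))

variable {V X}

/-- The family `η` defines a smooth real `k`-form on the complex manifold `X` modelled on `V`:
for each chart `e` of the atlas, `η e` is `C^∞` on the open set `e.target`, and `η e` is the
pullback of `η e'` by the transition map from `e` to `e'`. -/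
def IsSmoothForm {k : ℕ} (η : Fam V X k) : Prop :=
  (∀ e ∈ atlas V X, ContDiffOn ℝ ∞ (η e) e.target) ∧
    ∀ e ∈ atlas V X, ∀ e' ∈ atlas V X, ∀ y ∈ (e.symm.trans e').source,
      η e y = (η e' (e' (e.symm y))).compContinuousLinearMap
        (fderiv ℝ (fun v => e' (e.symm v)) y)

lemma IsSmoothForm.add {k : ℕ} {η θ : Fam V X k} (h : IsSmoothForm η) (h' : IsSmoothForm θ) :
    IsSmoothForm (η + θ) := by
  refine ⟨fun e he => (h.1 e he).add (h'.1 e he), fun e he e' he' y hy => ?_⟩
  show η e y + θ e y = _
  rw [h.2 e he e' he' y hy, h'.2 e he e' he' y hy]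
  rfl

lemma IsSmoothForm.zero {k : ℕ} : IsSmoothForm (0 : Fam V X k) :=
  ⟨fun _ _ => contDiffOn_const, fun _ _ _ _ _ _ => rfl⟩

lemma IsSmoothForm.smul {k : ℕ} (c : ℝ) {η : Fam V X k} (h : IsSmoothForm η) :
    IsSmoothForm (c • η) := by
  refine ⟨fun e he => (h.1 e he).const_smul c, fun e he e' he' y hy => ?_⟩
  show c • η e y = _
  rw [h.2 e he e' he' y hy]
  rfl

variable (V X)

/-- The submodule of smooth forms. -/
def smoothForms (k : ℕ) : Submodule ℝ (Fam V X k) where
  carrier := {η | IsSmoothForm η}
  add_mem' := IsSmoothForm.add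
  zero_mem' := IsSmoothForm.zero
  smul_mem' := fun c _ => IsSmoothForm.smul c

/-- The real vector space of smooth real differential `k`-forms on the complex manifold `X`
modelled on `V`. -/
def smoothForm (k : ℕ) : Type := smoothForms V X k

noncomputable instance instFormGroup (k : ℕ) : AddCommGroup (smoothForm V X k) :=
  inferInstanceAs (AddCommGroup (smoothForms V X k))

noncomputable instance instFormModule (k : ℕ) : Module ℝ (smoothForm V X k) :=
  inferInstanceAs (Module ℝ (smoothForms V X k))

variable {V X}

/-- The expression of a form in the chart `e`. -/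
def smoothForm.form {k : ℕ} (η : smoothForm V X k) (e : OpenPartialHomeomorph X V) (y : V) :
    Alt V k := (η : smoothForms V X k).1 e y

variable (V X)

/-- Functionals on smooth real 2-forms; the positive ones below are the positive currents of
bidimension `(1,1)`. -/
abbrev Current : Type := smoothForm V X 2 →ₗ[ℝ] ℝ

variable {V X}

/-- `T` is positive: it is nonnegative on every 2-form `η` with `η(v, iv) ≥ 0` for all `v`. -/
def IsPositive (T : Current V X) : Prop :=
  ∀ η : smoothForm V X 2,
    (∀ e ∈ atlas V X, ∀ y ∈ e.target, ∀ v : V, 0 ≤ η.form e y ![v, Complex.I • v]) → 0 ≤ T η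

/-- `T` is `dd^c`-closed: `T (dd^c f) = 0` for every smooth real function `f` on `X`. -/
def IsDdcClosed (T : Current V X) : Prop :=
  ∀ f : X → ℝ, (∀ e ∈ atlas V X, ContDiffOn ℝ ∞ (fun v => f (e.symm v)) e.target) →
    ∀ η : smoothForm V X 2,
      (∀ e ∈ atlas V X, ∀ y ∈ e.target, η.form e y = extDeriv (dc fun v => f (e.symm v)) y) →
        T η = 0

/-- `T` is closed: `T (dθ) = 0` for every smooth real 1-form `θ` on `X`. -/
def IsClosedCurrent (T : Current V X) : Prop :=
  ∀ (θ : smoothForm V X 1) (η : smoothForm V X 2),
    (∀ e ∈ atlas V X, ∀ y ∈ e.target, η.form e y = extDeriv (θ.form e) y) → T η = 0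

end Forms

section Laminations

variable (V : Type) [NormedAddCommGroup V] [NormedSpace ℂ V]
  (X : Type) [TopologicalSpace X] [ChartedSpace V X]

variable {V X}

namespace Lamination

variable (L : Lamination V X)

/-- `T` is directed by `L`: it vanishes on every 2-form whose restriction to the leaves of `L`
vanishes (so `T` is supported on `L` and tangent to the leaves). -/
def IsDirected (T : Current V X) : Prop :=
  ∀ η : smoothForm V X 2,
    (∀ e ∈ atlas V X, ∀ y ∈ e.target, ∀ v : V, L.IsTangent e y v →
      η.form e y ![v, Complex.I • v] = 0) → T η = 0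

/-- The convex cone of positive `dd^c`-closed currents directed by `L`. -/
def IsHarmonic (T : Current V X) : Prop :=
  IsPositive T ∧ L.IsDirected T ∧ IsDdcClosed T

/-- `T` spans an extremal ray of the cone of positive `dd^c`-closed currents directed by `L`. -/
def IsExtremal (T : Current V X) : Prop :=
  T ≠ 0 ∧ L.IsHarmonic T ∧
    ∀ T₁ T₂ : Current V X, L.IsHarmonic T₁ → L.IsHarmonic T₂ → T = T₁ + T₂ →
      ∃ c : ℝ, T₁ = c • T

end Lamination

end Laminations

end Pool.Agent.H59.Lam

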