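import Pool.Agent.H59.Lam.Toeplitz

set_option autoImplicit false

open MeasureTheory Filter Topology

namespace Pool.Agent.H59.Lam

lemma continuous_sh : Continuous sh := continuous_pi fun n => continuous_apply (n + 1)

open MeasureTheory Filter Topology in
/-- L² mean ergodic theorem for the shift -/
theorem mean_ergodic_sq {μ : Measure Seq} [IsProbabilityMeasure μ] (h : Ergodic sh μ) {g : Seq → ℝ}
    (hg : Continuous g) :
    Tendsto (fun N : ℕ => ∫ x, ((N : ℝ)⁻¹ * ∑ i ∈ Finset.range N, g (sh^[i] x) - ∫ y, g y ∂μ) ^ 2 ∂μ)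
      atTop (𝓝 0) := by
  have hmp := h.toMeasurePreserving
  let W : Lp ℝ 2 μ →ₗᵢ[ℝ] Lp ℝ 2 μ := Lp.compMeasurePreservingₗᵢ ℝ sh hmp
  let f : Lp ℝ 2 μ →L[ℝ] Lp ℝ 2 μ := W.toContinuousLinearMap
  have hf : ‖f‖ ≤ 1 := W.norm_toContinuousLinearMap_le
  let G : Lp ℝ 2 μ := ContinuousMap.toLp (E := ℝ) 2 μ ℝ ⟨g, hg⟩
  have hG : G =ᵐ[μ] g := ContinuousMap.coeFn_toLp (E := ℝ) μ (𝕜 := ℝ) ⟨g, hg⟩
  have hlim := f.tendsto_birkhoffAverage_orthogonalProjection hf G
  set c : Lp ℝ 2 μ := ((f.eqLocus (1 : Lp ℝ 2 μ →L[ℝ] Lp ℝ 2 μ)).orthogonalProjectionOnto G : Lp ℝ 2 μ)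
    with hc
  have hfix : f c = c := ((f.eqLocus (1 : Lp ℝ 2 μ →L[ℝ] Lp ℝ 2 μ)).orthogonalProjectionOnto G).2
  have hWc : ∀ F : Lp ℝ 2 μ, (f F : Seq → ℝ) =ᵐ[μ] F ∘ sh := fun F =>
    Lp.coeFn_compMeasurePreserving F hmp
  obtain ⟨r, hr⟩ : ∃ r : ℝ, (c : Seq → ℝ) =ᵐ[μ] Function.const Seq r := by
    apply h.ae_eq_const_of_ae_eq_comp_ae (Lp.aestronglyMeasurable c)
    have h1 := hWc c
    rw [hfix] at h1
    exact h1.symm
  have hiter : ∀ i : ℕ, (f^[i] G : Seq → ℝ) =ᵐ[μ] fun x => g (sh^[i] x) := by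
    intro i
    induction i with
    | zero => exact hG
    | succ i ih =>
      rw [Function.iterate_succ_apply']
      refine (hWc _).trans ?_
      have h1 := hmp.quasiMeasurePreserving.ae_eq_comp ih
      refine h1.trans (Eventually.of_forall fun x => ?_)
      show g (sh^[i] (sh x)) = g (sh^[i + 1] x)
      rw [Function.iterate_succ_apply]
  set a : ℕ → Seq → ℝ := fun N x => (N : ℝ)⁻¹ * ∑ i ∈ Finset.range N, g (sh^[i] x) with ha
  have hac : ∀ N, Continuous (a N) := fun N =>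
    continuous_const.mul (continuous_finsetSum _ fun i _ => hg.comp (continuous_sh.iterate i))
  have hav : ∀ N : ℕ, ((birkhoffAverage ℝ f _root_.id N G : Lp ℝ 2 μ) : Seq → ℝ) =ᵐ[μ] a N := by
    intro N
    have e : birkhoffAverage ℝ f _root_.id N G = (N : ℝ)⁻¹ • ∑ i ∈ Finset.range N, f^[i] G := rfl
    rw [e]
    refine (Lp.coeFn_smul _ _).trans ?_
    have h1 : ((∑ i ∈ Finset.range N, f^[i] G : Lp ℝ 2 μ) : Seq → ℝ) =ᵐ[μ]
        fun x => ∑ i ∈ Finset.range N, g (sh^[i] x) := by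
      clear e
      induction N with
      | zero =>
        simp only [Finset.range_zero, Finset.sum_empty]
        exact Lp.coeFn_zero _ _ _
      | succ N ih =>
        simp only [Finset.sum_range_succ]
        refine (Lp.coeFn_add _ _).trans ?_
        filter_upwards [ih, hiter N] with x h1 h2
        rw [Pi.add_apply, h1, h2]
    filter_upwards [h1] with x hx
    rw [Pi.smul_apply, hx, smul_eq_mul]
  have hint : ∀ F : Seq → ℝ, Continuous F → Integrable F μ := fun F hF =>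
    hF.integrable_of_hasCompactSupport (HasCompactSupport.of_compactSpace _)
  have hshi : ∀ i : ℕ, ∫ x, g (sh^[i] x) ∂μ = ∫ x, g x ∂μ := by
    intro i
    have h1 := hmp.iterate i
    have h2 := integral_map (μ := μ) h1.measurable.aemeasurable (f := g) hg.aestronglyMeasurable
    rw [h1.map_eq] at h2
    exact h2.symm
  have hmean : ∀ N : ℕ, 0 < N → ∫ x, a N x ∂μ = ∫ x, g x ∂μ := by
    intro N hN
    rw [ha]
    simp only
    have i0 : ∀ i ∈ Finset.range N, Integrable (fun x => g (sh^[i] x)) μ :=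
      fun i _ => hint _ (hg.comp (continuous_sh.iterate i))
    rw [integral_const_mul, integral_finsetSum _ i0]
    simp_rw [hshi]
    rw [Finset.sum_const, Finset.card_range, nsmul_eq_mul]
    have : (N : ℝ) ≠ 0 := by exact_mod_cast hN.ne'
    field_simp
  have hnorm : ∀ N : ℕ, ‖birkhoffAverage ℝ f _root_.id N G - c‖ ^ 2 = ∫ x, (a N x - r) ^ 2 ∂μ := by
    intro N
    rw [← real_inner_self_eq_norm_sq, L2.inner_def]
    apply integral_congr_ae
    filter_upwards [Lp.coeFn_sub (birkhoffAverage ℝ f _root_.id N G) c, hav N, hr] with x h1 h2 h3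
    rw [h1, Pi.sub_apply, h2, h3]
    simp only [Function.const_apply, real_inner_self_eq_norm_sq, Real.norm_eq_abs, sq_abs]
  have hle : ∀ N : ℕ, 0 < N → ∫ x, (a N x - ∫ y, g y ∂μ) ^ 2 ∂μ ≤ ∫ x, (a N x - r) ^ 2 ∂μ := by
    intro N hN
    set m := ∫ y, g y ∂μ with hm
    have e : ∀ x, (a N x - r) ^ 2 = (a N x - m) ^ 2 + ((2 * (m - r)) * (a N x) +
        (r ^ 2 - m ^ 2 )) := by
      intro x; ring
    simp_rw [e]
    have i1 : Integrable (fun x => (a N x - m) ^ 2) μ := hint _ (((hac N).sub continuous_const).pow 2)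
    have i2 : Integrable (fun x => (2 * (m - r)) * (a N x)) μ := hint _ (continuous_const.mul (hac N))
    have i3 : Integrable (fun _ : Seq => (r ^ 2 - m ^ 2)) μ := integrable_const _
    have i4 : Integrable (fun x => (2 * (m - r)) * (a N x) + (r ^ 2 - m ^ 2)) μ := i2.add i3
    rw [integral_add i1 i4, integral_add i2 i3, integral_const_mul, hmean N hN,
      integral_const]
    simp only [probReal_univ, one_smul]
    nlinarith [sq_nonneg (m - r)]
  have hlim2 : Tendsto (fun N : ℕ => ∫ x, (a N x - r) ^ 2 ∂μ) atTop (𝓝 0) := by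
    have h1 : Tendsto (fun N : ℕ => ‖birkhoffAverage ℝ f _root_.id N G - c‖ ^ 2) atTop (𝓝 (‖c - c‖ ^ 2)) :=
      ((hlim.sub_const c).norm).pow 2
    rw [sub_self, norm_zero, zero_pow two_ne_zero] at h1
    simpa only [hnorm] using h1
  refine squeeze_zero' (Eventually.of_forall fun N => integral_nonneg fun x => sq_nonneg _) ?_ hlim2
  filter_upwards [eventually_gt_atTop 0] with N hN using hle N hN

end Pool.Agent.H59.Lam
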