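import Pool.Agent.H59.Lam.Defs

set_option autoImplicit false

open Set Topology Filter
open scoped Manifold ContDiff

namespace Pool.Agent.H59.Lam

variable {V : Type} [NormedAddCommGroup V] [NormedSpace ℂ V]
  {X : Type} [TopologicalSpace X] [ChartedSpace V X]

/-- a smooth form (as a structure) seen in the vector space of smooth forms -/
def SmoothForm.old {k : ℕ} (η : SmoothForm V X k) : smoothForm V X k :=
  (⟨η.form, η.smooth, η.compat⟩ : smoothForms V X k)

/-- the converse -/
def smoothForm.new {k : ℕ} (η : smoothForm V X k) : SmoothForm V X k where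
  form := η.form
  smooth := (η : smoothForms V X k).2.1
  compat := (η : smoothForms V X k).2.2

lemma SmoothForm.old_new {k : ℕ} (η : SmoothForm V X k) : η.old.new = η := rfl

lemma smoothForm.new_old {k : ℕ} (η : smoothForm V X k) : η.new.old = η := rfl

/-- the functional defined by a linear form -/
noncomputable def Current.new (T : Current V X) : SmoothForm V X 2 → ℝ := fun η => T η.old

lemma Current.new_apply (T : Current V X) (η : SmoothForm V X 2) : T.new η = T η.old := rfl

lemma Current.new_inj {T T' : Current V X} (h : T.new = T'.new) : T = T' := by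
  apply LinearMap.ext
  intro η
  exact congrFun h η.new

/-- the linear form defined by a functional -/
noncomputable def toOld (T : SmoothForm V X 2 → ℝ) (h : IsLin T) : Current V X where
  toFun η := T η.new
  map_add' η θ := by
    have := h 1 1 η.new θ.new (η + θ).new (fun e _ y _ => by rw [one_smul, one_smul]; rfl)
    rw [this, one_mul, one_mul]
  map_smul' c η := by
    have := h c 0 η.new η.new (c • η).new (fun e _ y _ => by rw [zero_smul, add_zero]; rfl)
    rw [this, zero_mul, add_zero]
    rfl

lemma toOld_new (T : SmoothForm V X 2 → ℝ) (h : IsLin T) : (toOld T h).new = T := rfl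

lemma old_isHarmonic {L : Lamination V X} {T : SmoothForm V X 2 → ℝ} (h : L.Harmonic T) :
    L.IsHarmonic (toOld T h.1) := by
  refine ⟨fun η hη => h.2.1 η.new hη, fun η hη => ?_, fun f hf η hη => h.2.2.2 f hf η.new hη⟩
  have h1 : 0 ≤ toOld T h.1 η := h.2.2.1 η.new fun e he y hy v hv => (hη e he y hy v hv).ge
  have h2 : 0 ≤ toOld T h.1 ((-1 : ℝ) • η) := by
    apply h.2.2.1 ((-1 : ℝ) • η).new
    intro e he y hy v hv
    show 0 ≤ (-1 : ℝ) • η.form e y ![v, Complex.I • v]
    rw [hη e he y hy v hv, smul_zero]
  rw [map_smul, smul_eq_mul] at h2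
  linarith

/-- positive directed currents of the lamination are nonnegative on forms nonnegative along the
leaves -/
def Good (L : Lamination V X) : Prop :=
  ∀ T : Current V X, IsPositive T → L.IsDirected T → ∀ η : smoothForm V X 2,
    (∀ e ∈ atlas V X, ∀ y ∈ e.target, ∀ v : V, L.IsTangent e y v →
      0 ≤ η.form e y ![v, Complex.I • v]) → 0 ≤ T η

lemma new_isHarmonic {L : Lamination V X} (hL : Good L) {T : Current V X} (h : L.IsHarmonic T) :
    L.Harmonic T.new := by
  refine ⟨?_, fun η hη => h.1 η.old hη, fun η hη => hL T h.1 h.2.1 η.old hη, fun f hf η hη =>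
    h.2.2 f hf η.old hη⟩
  intro a b η θ ψ hψ
  have h1 : T (ψ.old + (-1 : ℝ) • (a • η.old + b • θ.old)) = 0 := by
    apply h.2.1
    intro e he y hy v _
    have h2 : (ψ.old + (-1 : ℝ) • (a • η.old + b • θ.old)).form e y =
        ψ.form e y + (-1 : ℝ) • (a • η.form e y + b • θ.form e y) := rfl
    rw [h2, hψ e he y hy]
    simp
    ring
  rw [map_add, map_smul, map_add, map_smul, map_smul] at h1
  simp only [smul_eq_mul] at h1
  show T ψ.old = a * T η.old + b * T θ.old
  linarith

lemma new_isExtremal {L : Lamination V X} (hL : Good L) {T : Current V X} (h : L.IsExtremal T) :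
    L.Extremal T.new := by
  refine ⟨?_, new_isHarmonic hL h.2.1, ?_⟩
  · intro h0
    apply h.1
    apply Current.new_inj
    rw [h0]
    rfl
  · intro T₁ T₂ h₁ h₂ hs
    obtain ⟨c, hc⟩ := h.2.2 (toOld T₁ h₁.1) (toOld T₂ h₂.1) (old_isHarmonic h₁) (old_isHarmonic h₂)
      (by
        apply Current.new_inj
        rw [hs]
        rfl)
    refine ⟨c, ?_⟩
    have := congrArg Current.new hc
    rw [toOld_new] at this
    rw [this]
    rfl

lemma new_not_closed {T : Current V X} (h : ¬ IsClosedCurrent T) : ¬ DClosed T.new := by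
  intro h'
  exact h fun θ η hη => h' θ.new η.new hη

lemma hasUncountablyMany_of {L : Lamination V X} (hL : Good L) {S : Set (Current V X)}
    (h1 : ¬ S.Countable) (h2 : ∀ T ∈ S, L.IsExtremal T ∧ ¬ IsClosedCurrent T)
    (h3 : S.Pairwise fun T T' => ∀ c : ℝ, T' ≠ c • T) : L.HasUncountablyMany := by
  refine ⟨Current.new '' S, ?_, ?_, ?_⟩
  · intro hc
    apply h1
    have hi : InjOn Current.new S := fun T _ T' _ h => Current.new_inj h
    exact countable_of_injective_of_countable_image hi hc
  · rintro _ ⟨T, hT, rfl⟩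
    exact ⟨new_isExtremal hL (h2 T hT).1, new_not_closed (h2 T hT).2⟩
  · rintro _ ⟨T, hT, rfl⟩ _ ⟨T', hT', rfl⟩ hne c hc
    have hne' : T ≠ T' := fun h => hne (by rw [h])
    apply h3 hT hT' hne' c
    apply Current.new_inj
    rw [hc]
    rfl

end Pool.Agent.H59.Lam
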