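import Pool.Agent.H59.Lam.Torus
import Pool.Agent.H59.Lam.Trans
import Pool.Agent.H59.Lam.MeanErg

set_option autoImplicit false

open Set Topology Filter MeasureTheory
open scoped Manifold ContDiff Pointwise

namespace Pool.Agent.H59.Lam

/-- Cauchy–Schwarz for positive functionals -/
lemma KData.cauchy (κ : KData) {I : Bp →ₗ[ℝ] ℝ} (hI : κ.IF I) (b : Bp) :
    (I b) ^ 2 ≤ I 1 * I (b * b) := by
  have key : ∀ t : ℝ, 0 ≤ I (b * b) - 2 * t * I b + t ^ 2 * I 1 := by
    intro t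
    have h1 : 0 ≤ I ((b + (-t) • (1 : Bp)) * (b + (-t) • (1 : Bp))) := by
      apply hI.1
      intro u _
      exact mul_self_nonneg ((b + (-t) • (1 : Bp)).1 u)
    have e : (b + (-t) • (1 : Bp)) * (b + (-t) • (1 : Bp)) =
        b * b + ((-(2 * t)) • b + (t ^ 2) • (1 : Bp)) := by
      apply Subtype.ext
      funext u
      show (b.1 u + (-t) * 1) * (b.1 u + (-t) * 1) = b.1 u * b.1 u + (-(2 * t) * b.1 u + t ^ 2 * 1)
      ring
    rw [e, map_add, map_add, map_smul, map_smul, smul_eq_mul, smul_eq_mul] at h1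
    linarith
  have h1 : 0 ≤ I 1 := hI.1 1 (fun u _ => by show (0:ℝ) ≤ 1; norm_num)
  have h2 : 0 ≤ I (b * b) := hI.1 _ (fun u _ => mul_self_nonneg (b.1 u))
  rcases h1.eq_or_lt with h0 | hpos
  · -- I 1 = 0
    have h3 : I b = 0 := by
      by_contra hne
      have h4 := key ((I (b * b) + 1) / (2 * I b))
      rw [← h0, mul_zero, add_zero] at h4
      have h5 : 2 * ((I (b * b) + 1) / (2 * I b)) * I b = I (b * b) + 1 := by
        field_simp
      rw [h5] at h4
      linarith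
    rw [h3, ← h0]; simp
  · have h4 := key (I b / I 1)
    have h5 : I (b * b) - 2 * (I b / I 1) * I b + (I b / I 1) ^ 2 * I 1 =
        I (b * b) - (I b) ^ 2 / I 1 := by
      field_simp
      ring
    rw [h5] at h4
    have h6 : (I b) ^ 2 / I 1 ≤ I (b * b) := by linarith
    rw [div_le_iff₀ hpos] at h6
    linarith

namespace Cod

variable (C : Cod)

/-- ergodic measures give indecomposable functionals -/
lemma erg {μ : Measure Seq} [IsProbabilityMeasure μ] (hE : Ergodic sh μ)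
    {I₁ I₂ : Bp →ₗ[ℝ] ℝ} (h₁ : C.toK.IF I₁) (h₂ : C.toK.IF I₂) (hs : I₁ + I₂ = C.Im μ) :
    ∃ c : ℝ, I₁ = c • C.Im μ := by
  refine ⟨I₁ 1, ?_⟩
  ext b
  set m := C.Im μ b with hm
  set c := I₁ 1 with hc
  have hc0 : 0 ≤ c := h₁.1 1 (fun u _ => by show (0:ℝ) ≤ 1; norm_num)
  have key : ∀ N : ℕ, 0 < N → (I₁ b - m * c) ^ 2 ≤ c *
      ∫ x, ((N : ℝ)⁻¹ * ∑ i ∈ Finset.range N, b.1 (C.Phi (sh^[i] x)) -
        ∫ y, b.1 (C.Phi y) ∂μ) ^ 2 ∂μ := by
    intro N hN
    have hN' : (N : ℝ) ≠ 0 := by exact_mod_cast hN.ne'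
    set bN : Bp := (N : ℝ)⁻¹ • ∑ i ∈ Finset.range N, Bc (i : ℤ) b + (-m) • (1 : Bp) with hbN
    have e1 : I₁ bN = I₁ b - m * c := by
      rw [hbN, map_add, map_smul, map_smul, map_sum]
      simp_rw [Bc_inv_all h₁.2]
      rw [Finset.sum_const, Finset.card_range, smul_eq_mul, smul_eq_mul, nsmul_eq_mul]
      field_simp
      ring
    have e2 : ∀ x, bN.1 (C.Phi x) = (N : ℝ)⁻¹ * ∑ i ∈ Finset.range N, b.1 (C.Phi (sh^[i] x)) -
        ∫ y, b.1 (C.Phi y) ∂μ := by
      intro x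
      have e3 : bN.1 (C.Phi x) = (N : ℝ)⁻¹ * (∑ i ∈ Finset.range N, Bc (i : ℤ) b : Bp).1 (C.Phi x) +
          (-m) * 1 := rfl
      rw [e3, AddSubmonoidClass.coe_finsetSum, Finset.sum_apply]
      simp_rw [C.Bc_Phi]
      rw [hm, Im_apply]
      ring
    have h3 := C.toK.cauchy h₁ bN
    rw [e1] at h3
    refine h3.trans (mul_le_mul_of_nonneg_left ?_ hc0)
    have h4 : I₁ (bN * bN) + I₂ (bN * bN) = C.Im μ (bN * bN) := by rw [← hs]; rfl
    have h5 : 0 ≤ I₂ (bN * bN) := h₂.1 _ (fun u _ => mul_self_nonneg (bN.1 u))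
    have h6 : C.Im μ (bN * bN) = ∫ x, ((N : ℝ)⁻¹ * ∑ i ∈ Finset.range N, b.1 (C.Phi (sh^[i] x)) -
        ∫ y, b.1 (C.Phi y) ∂μ) ^ 2 ∂μ := by
      rw [Im_apply]
      congr 1
      funext x
      rw [← e2 x, pow_two]
      rfl
    linarith
  have hlim := (mean_ergodic_sq hE (C.b_cont b)).const_mul c
  rw [mul_zero] at hlim
  have h7 : (I₁ b - m * c) ^ 2 ≤ 0 := by
    apply ge_of_tendsto hlim
    filter_upwards [eventually_gt_atTop 0] with N hN using key N hN
  have h8 : I₁ b - m * c = 0 := by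
    have := le_antisymm h7 (sq_nonneg _)
    exact pow_eq_zero_iff (two_ne_zero) |>.mp this
  show I₁ b = c * m
  linarith

end Cod

/-- for the laminations of the example, positivity along the leaves is automatic -/
lemma KData.good (κ : KData) : Good κ.lam := by
  intro T hp hd η hη
  apply κ.pos_of hp hd
  intro p hpU hK
  rw [cfl_apply, co, ← tl_eq η (ech_mem hpU) (mem_ech_target hpU)]
  exact mul_nonneg (sq_nonneg _) (hη _ (ech_mem hpU) p (mem_ech_target hpU) e0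
    (κ.tangent_e0 (ech_mem hpU) (mem_ech_target hpU) hK))

end Pool.Agent.H59.Lam
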