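import Pool.Agent.H59.Lam.PosKey

set_option autoImplicit false

open Set Topology Filter MeasureTheory
open scoped Manifold ContDiff

namespace Pool.Agent.H59.Lam

lemma riesz_graph {E : Type} [AddCommGroup E] [Module ℝ E] (s : PointedCone ℝ E)
    (G : Submodule ℝ (E × ℝ)) (hpos : ∀ x ∈ G, x.1 ∈ s → 0 ≤ x.2)
    (hd : ∀ y : E, ∃ x ∈ G, x.1 + y ∈ s) :
    ∃ g : E →ₗ[ℝ] ℝ, (∀ x ∈ G, g x.1 = x.2) ∧ ∀ y ∈ s, 0 ≤ g y := by
  have hg : ∀ (x : E × ℝ) (_ : x ∈ G) (_ : x.1 = 0), x.2 = 0 := by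
    intro x hx hx0
    have h1 := hpos x hx (by rw [hx0]; exact s.zero_mem)
    have h2 := hpos (-x) (G.neg_mem hx) (by rw [Prod.fst_neg, hx0, neg_zero]; exact s.zero_mem)
    rw [Prod.snd_neg] at h2
    linarith
  have key : ∀ x ∈ G, ∀ hx : x.1 ∈ G.toLinearPMap.domain, G.toLinearPMap ⟨x.1, hx⟩ = x.2 := by
    intro x hxG hx
    have h1 := G.mem_graph_toLinearPMap hg ⟨x.1, hx⟩
    have h2 := G.sub_mem h1 hxG
    have h3 := hg _ h2 (by simp)
    exact sub_eq_zero.mp h3
  obtain ⟨g, hg1, hg2⟩ := riesz_extension s G.toLinearPMap (by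
    rintro ⟨x, hx⟩ hxs
    have h1 := G.mem_graph_toLinearPMap hg ⟨x, hx⟩
    exact hpos _ h1 hxs) (by
    intro y
    obtain ⟨x, hx, hxs⟩ := hd y
    exact ⟨⟨x.1, Submodule.mem_map.mpr ⟨x, hx, rfl⟩⟩, hxs⟩)
  refine ⟨g, ?_, hg2⟩
  intro x hx
  have hxd : x.1 ∈ G.toLinearPMap.domain := Submodule.mem_map.mpr ⟨x, hx, rfl⟩
  rw [hg1 ⟨x.1, hxd⟩]
  exact key x hx hxd

lemma exists_F' (S R : ℝ) : ∃ F : Finset ℤ, ∀ t, |t| ≤ S → ∀ n ∉ F, R < |t + n * ta| := by
  obtain ⟨M, hM⟩ := exists_nat_gt ((S + R) / ta)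
  rw [div_lt_iff₀ ta_pos] at hM
  refine ⟨Finset.Icc (-(M : ℤ)) M, fun t ht n hn => ?_⟩
  have h1 : (M : ℝ) < |(n : ℝ)| := by
    rw [Finset.mem_Icc, ← abs_le, not_le] at hn
    exact_mod_cast hn
  have h2 : |(n : ℝ) * ta| = |(n : ℝ)| * ta := by rw [abs_mul, abs_of_pos ta_pos]
  have h4 : |(n : ℝ) * ta| - |t| ≤ |t + n * ta| := by
    have := abs_sub_abs_le_abs_sub ((n : ℝ) * ta) (-t)
    rw [abs_neg, sub_neg_eq_add, add_comm _ t] at this
    exact this
  have h5 := ta_pos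
  nlinarith

lemma ab_pp (u : ℂ × ℂ) (b : ℂ × ℂ → ℝ) (z : ℝ × ℝ) :
    ab psi b (pp u z) = ∑' n : ℤ, psi (z.2 + n * ta) * b ((AA ^ n) u) := by
  unfold ab tm
  rw [pp_imL, pp_22, Real.log_exp]

lemma Bc_inv_all {I : Bp →ₗ[ℝ] ℝ} (hinv : ∀ b, I (Bc 1 b) = I b) (n : ℤ) (b : Bp) :
    I (Bc n b) = I b := by
  induction n using Int.induction_on generalizing b with
  | zero => rw [Bc_zero]
  | succ i ih =>
    have : Bc ((i : ℤ) + 1) b = Bc 1 (Bc (i : ℤ) b) := by rw [Bc_Bc]
    rw [this, hinv, ih]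
  | pred i ih =>
    have : Bc (-(i : ℤ)) b = Bc 1 (Bc (-(i : ℤ) - 1) b) := by
      rw [Bc_Bc]; congr 1; ring
    have e : I (Bc (-(i : ℤ)) b) = I (Bc (-(i : ℤ) - 1) b) := by rw [this, hinv]
    rw [← e, ih]

lemma lap_contDiff_add {f g : V4 → ℝ} (hf : SInv f) (hg : SInv g) {p : V4} (hp : p ∈ U) :
    co (ddc (f + g)) p = co (ddc f) p + co (ddc g) p := by
  rw [co_ddc (hf.contDiffAt hp), co_ddc (hg.contDiffAt hp), co_ddc ((hf.add hg).contDiffAt hp)]
  have key : ∀ v : V4, fderiv ℝ (fun q => fderiv ℝ (f + g) q v) p v =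
      fderiv ℝ (fun q => fderiv ℝ f q v) p v + fderiv ℝ (fun q => fderiv ℝ g q v) p v := by
    intro v
    have h1 : (fun q => fderiv ℝ (f + g) q v) =ᶠ[𝓝 p]
        fun q => fderiv ℝ f q v + fderiv ℝ g q v := by
      filter_upwards [U_open.mem_nhds hp] with q hq
      rw [fderiv_add ((hf.contDiffAt hq).differentiableAt (by simp))
        ((hg.contDiffAt hq).differentiableAt (by simp)), add_apply]
    rw [h1.fderiv_eq, fderiv_fun_add ((hf.dir_contDiffAt v hp).differentiableAt (by simp))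
      ((hg.dir_contDiffAt v hp).differentiableAt (by simp)), add_apply]
  unfold lap
  rw [key, key]
  ring

lemma lap_contDiff_smul (c : ℝ) {f : V4 → ℝ} (hf : SInv f) {p : V4} (hp : p ∈ U) :
    co (ddc (c • f)) p = c * co (ddc f) p := by
  rw [co_ddc (hf.contDiffAt hp), co_ddc ((hf.smul c).contDiffAt hp)]
  have key : ∀ v : V4, fderiv ℝ (fun q => fderiv ℝ (c • f) q v) p v =
      c * fderiv ℝ (fun q => fderiv ℝ f q v) p v := by
    intro v
    have h1 : (fun q => fderiv ℝ (c • f) q v) =ᶠ[𝓝 p]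
        fun q => c * fderiv ℝ f q v := by
      filter_upwards [U_open.mem_nhds hp] with q hq
      rw [fderiv_const_smul ((hf.contDiffAt hq).differentiableAt (by simp)), smul_apply,
        smul_eq_mul]
    rw [h1.fderiv_eq, fderiv_const_mul ((hf.dir_contDiffAt v hp).differentiableAt (by simp)),
      smul_apply, smul_eq_mul]
  unfold lap
  rw [key, key]
  ring

lemma lap_zero {p : V4} (hp : p ∈ U) : co (ddc (fun _ => (0 : ℝ))) p = 0 := by
  have h := lap_contDiff_smul 0 (SInv.const 0) hp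
  have e : ((0 : ℝ) • (fun _ : V4 => (0 : ℝ))) = fun _ => (0 : ℝ) := by
    funext q; simp
  rw [e, zero_mul] at h
  exact h

namespace KData

variable (κ : KData)

/-- an invariant positive functional is nonnegative on limits of leafwise Laplacians -/
lemma key_pos {I : Bp →ₗ[ℝ] ℝ} (hpos : ∀ b : Bp, (∀ u ∈ κ.K, 0 ≤ b.1 u) → 0 ≤ I b)
    (hinv : ∀ b, I (Bc 1 b) = I b) {f : V4 → ℝ} (hf : SInv f) {b : Bp}
    (h : ∀ p ∈ U, p.2.2 ∈ κ.K → 0 ≤ co (ddc f) p + ab psi b.1 p) : 0 ≤ I b := by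
  obtain ⟨C, hC, hle⟩ := leaf_ineq hf
  obtain ⟨P, hP, hPd, hPi⟩ := exists_prim psi_TF.1
  obtain ⟨hψ, Rr, hRr⟩ := psi_TF
  have key : ∀ S : ℝ, 0 < S → 0 ≤ C * I 1 + (2 * Real.pi) * (S * I b) := by
    intro S hS
    obtain ⟨F, hF⟩ := exists_F' S Rr
    have hF0 : ∀ s ∈ Icc 0 S, ∀ n ∉ F, psi (s + n * ta) = 0 := by
      intro s hs n hn
      exact hRr _ (hF s (by rw [abs_of_nonneg hs.1]; exact hs.2) n hn)
    set b' : Bp := C • (1 : Bp) + (2 * Real.pi) • ∑ n ∈ F, (P (S + n * ta) - P (0 + n * ta)) • Bc n b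
      with hb'
    have h1 : ∀ u ∈ κ.K, 0 ≤ b'.1 u := by
      intro u hu
      have h2 := hle u S hS
        (fun s => (2 * Real.pi) * ∑ n ∈ F, P (s + n * ta) * b.1 ((AA ^ n) u))
        (fun s => (2 * Real.pi) * ∑ n ∈ F, psi (s + n * ta) * b.1 ((AA ^ n) u))
        (by
          have := hP.continuous
          fun_prop)
        (by
          intro s _
          apply HasDerivAt.const_mul
          apply HasDerivAt.fun_sum
          intro n _
          exact ((hPd (s + n * ta)).comp_add_const s (n * ta)).mul_const _)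
        (by
          have := hψ.continuous
          fun_prop)
        (by
          intro z hz
          have h3 := h (pp u z) (pp_U u z) (by rw [pp_22]; exact hu)
          rw [co_ddc (hf.contDiffAt (pp_U u z)), ab_pp,
            tsum_eq_sum (s := F) (fun n hn => by rw [hF0 _ hz n hn, zero_mul])] at h3
          have hpi : 0 < 2 * Real.pi := by positivity
          have h4 := mul_nonneg hpi.le h3
          have e : 2 * Real.pi * ((2 * Real.pi)⁻¹ * ((pp u z).1.im ^ 2 * lap f (pp u z)) +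
              ∑ n ∈ F, psi (z.2 + n * ta) * b.1 ((AA ^ n) u)) =
              (pp u z).1.im ^ 2 * lap f (pp u z) +
              2 * Real.pi * ∑ n ∈ F, psi (z.2 + n * ta) * b.1 ((AA ^ n) u) := by
            rw [mul_add, ← mul_assoc, mul_inv_cancel₀ hpi.ne', one_mul]
          rw [e] at h4
          exact h4)
      have e : b'.1 u = C + (2 * Real.pi) * ∑ n ∈ F, (P (S + n * ta) - P (0 + n * ta)) * b.1 ((AA ^ n) u) := by
        rw [hb']
        show C * 1 + (2 * Real.pi) * (∑ n ∈ F, (P (S + n * ta) - P (0 + n * ta)) • Bc n b : Bp).1 u = _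
        rw [mul_one, AddSubmonoidClass.coe_finsetSum, Finset.sum_apply]
        rfl
      rw [e]
      have e2 : ∑ n ∈ F, (P (S + n * ta) - P (0 + n * ta)) * b.1 ((AA ^ n) u) =
          ∑ n ∈ F, P (S + n * ta) * b.1 ((AA ^ n) u) - ∑ n ∈ F, P (0 + n * ta) * b.1 ((AA ^ n) u) := by
        rw [← Finset.sum_sub_distrib]
        exact Finset.sum_congr rfl fun n _ => by ring
      rw [e2, mul_sub]
      exact h2
    have h5 := hpos b' h1
    rw [hb', map_add, map_smul, map_smul, map_sum] at h5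
    have h6 : ∑ n ∈ F, I ((P (S + n * ta) - P (0 + n * ta)) • Bc n b) = S * I b := by
      simp_rw [map_smul, Bc_inv_all hinv, smul_eq_mul, ← Finset.sum_mul]
      congr 1
      have h7 : ∀ n : ℤ, P (S + n * ta) - P (0 + n * ta) = ∫ s in (0:ℝ)..S, psi (s + n * ta) := by
        intro n
        rw [hPi, intervalIntegral.integral_comp_add_right]
      simp_rw [h7]
      rw [← intervalIntegral.integral_finsetSum]
      · have h8 : ∫ s in (0:ℝ)..S, ∑ n ∈ F, psi (s + n * ta) = ∫ s in (0:ℝ)..S, (1 : ℝ) := by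
          apply intervalIntegral.integral_congr
          intro s hs
          rw [uIcc_of_le hS.le] at hs
          show ∑ n ∈ F, psi (s + n * ta) = 1
          have h9 : ∑' n : ℤ, psi (s + n * ta) = ∑ n ∈ F, psi (s + n * ta) :=
            tsum_eq_sum (fun n hn => hF0 s hs n hn)
          rw [← h9]
          exact (psi_hasSum s).tsum_eq
        rw [h8]
        simp
      · intro n _
        have := hψ.continuous
        exact (by fun_prop : Continuous fun s : ℝ => psi (s + n * ta)).intervalIntegrable _ _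
    rw [h6] at h5
    exact h5
  by_contra hneg
  push Not at hneg
  have hpi : 0 < 2 * Real.pi := by positivity
  have h1 := hpos 1 (fun u _ => by show (0:ℝ) ≤ 1; norm_num)
  have h2 := key ((C * I 1 + 1) / (2 * Real.pi * (-I b))) (by
    apply div_pos
    · positivity
    · exact mul_pos hpi (by linarith))
  have h3 : (2 * Real.pi) * (((C * I 1 + 1) / (2 * Real.pi * (-I b))) * I b) = -(C * I 1 + 1) := by
    have : I b ≠ 0 := hneg.ne
    field_simp
  rw [h3] at h2
  linarith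

/-- existence of a harmonic current with given transverse functional -/
lemma exists_current {I : Bp →ₗ[ℝ] ℝ} (hpos : ∀ b : Bp, (∀ u ∈ κ.K, 0 ≤ b.1 u) → 0 ≤ I b)
    (hinv : ∀ b, I (Bc 1 b) = I b) : ∃ T : Current V4 XX, κ.lam.IsHarmonic T ∧ mT T = I := by
  have ab0 : ∀ p, ab psi ((0 : Bp) : ℂ × ℂ → ℝ) p = 0 := by
    intro p
    show ab psi (0 : ℂ × ℂ → ℝ) p = 0
    have := ab_smul_right 0 psi 0 p
    rwa [zero_smul, zero_mul] at this
  let s : PointedCone ℝ SI :=
    { carrier := {a | ∀ p ∈ U, p.2.2 ∈ κ.K → 0 ≤ a.1 p}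
      add_mem' := by
        intro η θ h1 h2 p hp hK
        exact add_nonneg (h1 p hp hK) (h2 p hp hK)
      zero_mem' := by
        intro p hp hK
        exact le_refl (0 : ℝ)
      smul_mem' := by
        intro c η h1 p hp hK
        exact mul_nonneg c.2 (h1 p hp hK) }
  let G : Submodule ℝ (SI × ℝ) :=
    { carrier := {x | ∃ (f : V4 → ℝ) (b : Bp), SInv f ∧ (∀ p ∈ U, p.2.2 ∈ κ.K →
        x.1.1 p = co (ddc f) p + ab psi b.1 p) ∧ x.2 = I b}
      add_mem' := by
        rintro ⟨η, r⟩ ⟨θ, t⟩ ⟨f, b, hf, h1, h2⟩ ⟨f', b', hf', h1', h2'⟩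
        refine ⟨f + f', b + b', hf.add hf', ?_, ?_⟩
        · intro p hp hK
          rw [lap_contDiff_add hf hf' hp]
          show η.1 p + θ.1 p = _ + ab psi (b.1 + b'.1) p
          rw [h1 p hp hK, h1' p hp hK, ab_add_right psi_TF]
          ring
        · show r + t = I (b + b')
          rw [map_add, ← h2, ← h2']
      zero_mem' := by
        refine ⟨fun _ => 0, 0, SInv.const 0, ?_, ?_⟩
        · intro p hp hK
          rw [lap_zero hp, ab0, add_zero]
          rfl
        · show (0 : ℝ) = I 0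
          rw [map_zero]
      smul_mem' := by
        rintro c ⟨η, r⟩ ⟨f, b, hf, h1, h2⟩
        refine ⟨c • f, c • b, hf.smul c, ?_, ?_⟩
        · intro p hp hK
          rw [lap_contDiff_smul c hf hp]
          show c * η.1 p = _ + ab psi (c • b.1) p
          rw [h1 p hp hK, ab_smul_right]
          ring
        · show c * r = I (c • b)
          rw [map_smul, smul_eq_mul, ← h2] }
  have hG1 : ∀ x ∈ G, x.1 ∈ s → 0 ≤ x.2 := by
    rintro ⟨η, r⟩ ⟨f, b, hf, h1, h2⟩ hs
    show 0 ≤ r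
    have h2' : r = I b := h2
    rw [h2']
    apply κ.key_pos hpos hinv hf
    intro p hp hK
    rw [← h1 p hp hK]
    exact hs p hp hK
  have hG2 : ∀ y : SI, ∃ x ∈ G, x.1 + y ∈ s := by
    intro a
    obtain ⟨C, hC0, hC⟩ := a.2.bdd
    refine ⟨(cfl (fb (C • (1 : Bp))), I (C • (1 : Bp))), ⟨fun _ => 0, C • (1 : Bp), SInv.const 0, ?_, rfl⟩, ?_⟩
    · intro p hp hK
      rw [lap_zero hp, zero_add]
      exact fb_cfl _ hp
    · intro p hp hK
      show 0 ≤ (cfl (fb (C • (1 : Bp)))).1 p + a.1 p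
      rw [fb_cfl _ hp]
      have e : ab psi ((C • (1 : Bp) : Bp) : ℂ × ℂ → ℝ) p = C := by
        show ab psi (C • (1 : ℂ × ℂ → ℝ)) p = C
        rw [ab_smul_right, ab_one, mul_one]
      rw [e]
      linarith [(abs_le.mp (hC p hp)).1]
  obtain ⟨g, hT1, hT2⟩ := riesz_graph s G hG1 hG2
  refine ⟨g.comp cfl, ?_, ?_⟩
  · apply κ.harmonic_of
    · intro η hη
      exact hT2 (cfl η) hη
    · intro a ha η hη
      have h0 : ((cfl η, 0) : SI × ℝ) ∈ G := by
        refine ⟨a, 0, ha, ?_, by rw [map_zero]⟩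
        intro p hp hK
        show (cfl η).1 p = _
        rw [hη p hp, ab0, add_zero]
      exact hT1 _ h0
  · ext b
    have h0 : ((cfl (fb b), I b) : SI × ℝ) ∈ G := by
      refine ⟨fun _ => 0, b, SInv.const 0, ?_, rfl⟩
      intro p hp hK
      show (cfl (fb b)).1 p = _
      rw [lap_zero hp, zero_add, fb_cfl b hp]
    exact hT1 _ h0

end KData

end Pool.Agent.H59.Lam
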