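import Pool.Agent.H59.Lam.PS

set_option autoImplicit false

open Set Topology Filter
open scoped Manifold ContDiff

namespace Pool.Agent.H59.Lam

/-- the form attached to a function on the torus fibre -/
noncomputable def fb (b : Bp) : smoothForm V4 XX 2 := Bl ⟨ab psi b.1, ab_SInv psi_TF b⟩

lemma fb_cfl (b : Bp) {p : V4} (hp : p ∈ U) : (cfl (fb b)).1 p = ab psi b.1 p := cfl_Bl _ hp

lemma fb_add (b b' : Bp) : fb (b + b') = fb b + fb b' := by
  unfold fb
  rw [← map_add]
  congr 1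
  apply Subtype.ext
  funext p
  exact ab_add_right psi_TF b.1 b'.1 p

lemma fb_smul (c : ℝ) (b : Bp) : fb (c • b) = c • fb b := by
  unfold fb
  rw [← map_smul]
  congr 1
  apply Subtype.ext
  funext p
  exact ab_smul_right c psi b.1 p

lemma fb_one : fb 1 = Bl oneSI := by
  unfold fb
  congr 1
  apply Subtype.ext
  funext p
  exact ab_one p

/-- the functional induced on functions of the torus fibre -/
noncomputable def mT (T : Current V4 XX) : Bp →ₗ[ℝ] ℝ where
  toFun b := T (fb b)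
  map_add' b b' := by rw [fb_add, map_add]
  map_smul' c b := by rw [fb_smul, map_smul]; rfl

lemma mT_apply (T : Current V4 XX) (b : Bp) : mT T b = T (fb b) := rfl

lemma mT_one (T : Current V4 XX) : mT T 1 = T (Bl oneSI) := by rw [mT_apply, fb_one]

namespace KData

variable (κ : KData)

lemma mT_nonneg {T : Current V4 XX} (h : κ.lam.IsHarmonic T) {b : Bp} (hb : ∀ u ∈ κ.K, 0 ≤ b.1 u) :
    0 ≤ mT T b := by
  apply κ.pos_of h.1 h.2.1
  intro p hp hK
  rw [fb_cfl b hp]
  exact ab_nonneg κ hb hK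

lemma mT_bdd {T : Current V4 XX} (h : κ.lam.IsHarmonic T) {b : Bp} {C : ℝ}
    (hb : ∀ u, |b.1 u| ≤ C) : |mT T b| ≤ C * mT T 1 := by
  rw [abs_le]
  constructor
  · have h1 : 0 ≤ mT T (C • (1 : Bp) + b) := by
      apply κ.mT_nonneg h
      intro u _
      show 0 ≤ C • (1 : ℝ) + b.1 u
      rw [smul_eq_mul, mul_one]
      linarith [(abs_le.mp (hb u)).1]
    rw [map_add, map_smul, smul_eq_mul] at h1
    linarith
  · have h1 : 0 ≤ mT T (C • (1 : Bp) + (-1 : ℝ) • b) := by
      apply κ.mT_nonneg h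
      intro u _
      show 0 ≤ C • (1 : ℝ) + (-1 : ℝ) • b.1 u
      rw [smul_eq_mul, mul_one, smul_eq_mul]
      linarith [(abs_le.mp (hb u)).2]
    rw [map_add, map_smul, map_smul, smul_eq_mul, smul_eq_mul] at h1
    linarith

lemma mT_rel {T : Current V4 XX} (h : κ.lam.IsHarmonic T) (b : Bp) :
    mT T (Bc 1 b) - mT T b = al⁻¹ * (mT T b - mT T (Bc (-1) b)) := by
  obtain ⟨k, hk, hkk⟩ := exists_kap
  have h1 := ddc_zero h.2.2 (ab_SInv hk b)
  have h2 : T (mkForm (ddc (ab k b.1)) (ddc_FInv (ab_SInv hk b))) =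
      T ((2 * Real.pi)⁻¹ • (fb (Bc 1 b) + (-(1 + al⁻¹)) • fb b + al⁻¹ • fb (Bc (-1) b))) := by
    apply κ.dir_congr h.2.1
    intro p hp hK
    rw [cfl_mkForm _ hp, co_ddc ((ab_SInv hk b).contDiffAt hp), lap_ab hk b hp]
    rw [map_smul, map_add, map_add, map_smul, map_smul]
    show _ = (2 * Real.pi)⁻¹ • ((cfl (fb (Bc 1 b))).1 p + (-(1 + al⁻¹)) • (cfl (fb b)).1 p +
      al⁻¹ • (cfl (fb (Bc (-1) b))).1 p)
    rw [fb_cfl _ hp, fb_cfl _ hp, fb_cfl _ hp, ← ab_shift, ← ab_shift]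
    simp only [smul_eq_mul]
    congr 1
    have e1 : deriv (deriv k) = fun t => deriv k t + ((psi (t - (1 : ℤ) * ta) +
        (-(1 + al⁻¹)) * psi t) + al⁻¹ * psi (t - (-1 : ℤ) * ta)) := by
      funext t
      have := hkk t
      push_cast
      have e2 : t - -1 * ta = t + ta := by ring
      rw [one_mul, e2]
      linarith
    have s1 : TF (fun t => psi (t - (1 : ℤ) * ta)) := by
      have := psi_TF.shift (-ta)
      push_cast
      simpa [sub_eq_add_neg] using this
    have s2 : TF (fun t => psi (t - (-1 : ℤ) * ta)) := by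
      have := psi_TF.shift (ta)
      push_cast
      simpa [sub_eq_add_neg] using this
    rw [e1, ab_add hk.deriv ((s1.add (psi_TF.smul _)).add (s2.smul _)),
      ab_add (s1.add (psi_TF.smul _)) (s2.smul _), ab_add s1 (psi_TF.smul _), ab_smul, ab_smul]
    ring
  rw [h1, map_smul, map_add, map_add, map_smul, map_smul] at h2
  simp only [smul_eq_mul] at h2
  have h3 : (2 * Real.pi)⁻¹ ≠ 0 := by positivity
  have h4 := (mul_eq_zero.mp h2.symm).resolve_left h3
  rw [mT_apply, mT_apply, mT_apply]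
  linarith

/-- the functional on the torus fibre is invariant under the monodromy -/
lemma mT_inv {T : Current V4 XX} (h : κ.lam.IsHarmonic T) (b : Bp) : mT T (Bc 1 b) = mT T b := by
  have key : ∀ (M : ℕ) (b : Bp), mT T (Bc 1 b) - mT T b =
      (al⁻¹) ^ M * (mT T (Bc 1 (Bc (-(M : ℤ)) b)) - mT T (Bc (-(M : ℤ)) b)) := by
    intro M
    induction M with
    | zero =>
      intro b
      simp only [Nat.cast_zero, neg_zero, Bc_zero, pow_zero, one_mul]
    | succ M ih =>
      intro b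
      rw [κ.mT_rel h b]
      have h1 := ih (Bc (-1) b)
      have e3 : Bc 1 (Bc (-1) b) = b := by
        rw [Bc_Bc]
        have e : (-1 : ℤ) + 1 = 0 := by norm_num
        rw [e, Bc_zero]
      have e4 : Bc (-(M : ℤ)) (Bc (-1) b) = Bc (-((M + 1 : ℕ) : ℤ)) b := by
        rw [Bc_Bc]
        congr 1
        push_cast; ring
      rw [e3, e4] at h1
      rw [h1, pow_succ]
      ring
  obtain ⟨C, hC0, hC⟩ := Bp_bdd b
  have hbound : ∀ M : ℕ, |mT T (Bc 1 b) - mT T b| ≤ (al⁻¹) ^ M * (2 * C * mT T 1) := by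
    intro M
    rw [key M b, abs_mul, abs_of_nonneg (pow_nonneg (inv_nonneg.mpr al_pos.le) M)]
    apply mul_le_mul_of_nonneg_left _ (pow_nonneg (inv_nonneg.mpr al_pos.le) M)
    have h1 := κ.mT_bdd h (b := Bc 1 (Bc (-(M : ℤ)) b)) (C := C) (fun u => hC _)
    have h2 := κ.mT_bdd h (b := Bc (-(M : ℤ)) b) (C := C) (fun u => hC _)
    have := abs_sub (mT T (Bc 1 (Bc (-(M : ℤ)) b))) (mT T (Bc (-(M : ℤ)) b))
    linarith
  have hlim : Tendsto (fun M : ℕ => (al⁻¹) ^ M * (2 * C * mT T 1)) atTop (𝓝 (0 * (2 * C * mT T 1))) :=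
    (tendsto_pow_atTop_nhds_zero_of_lt_one (inv_nonneg.mpr al_pos.le)
      (inv_lt_one_of_one_lt₀ al_gt)).mul_const _
  rw [zero_mul] at hlim
  have h0 := ge_of_tendsto' hlim hbound
  have := abs_nonneg (mT T (Bc 1 b) - mT T b)
  have h5 := abs_eq_zero.mp (le_antisymm h0 this)
  linarith

end KData

end Pool.Agent.H59.Lam
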