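import Pool.Agent.H59.Lam.Defs
import Pool.Agent.H59.Lam.Charts

set_option autoImplicit false

open Set Topology Filter
open scoped Manifold ContDiff

namespace Pool.Agent.H59.Lam

/-- real version of `D ^ n` -/
noncomputable def DR (n : ℤ) : V4 →L[ℝ] V4 :=
  (((D ^ n : V4 ≃L[ℂ] V4)) : V4 →L[ℂ] V4).restrictScalars ℝ

lemma DR_apply (n : ℤ) (v : V4) : DR n v = (D ^ n) v := rfl

/-- deck transformations -/
noncomputable def mv (n : ℤ) (l : V4) (p : V4) : V4 := (D ^ n) p + l

lemma mv_hasFDerivAt (n : ℤ) (l p : V4) : HasFDerivAt (mv n l) (DR n) p :=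
  ((DR n).hasFDerivAt).add_const l

lemma mv_fderiv (n : ℤ) (l p : V4) : fderiv ℝ (mv n l) p = DR n := (mv_hasFDerivAt n l p).fderiv

lemma mv_contDiff {m : WithTop ℕ∞} (n : ℤ) (l : V4) : ContDiff ℝ m (mv n l) :=
  (DR n).contDiff.add contDiff_const

lemma mv_U {n : ℤ} {l p : V4} (hl : l ∈ Lt) (hp : p ∈ U) : mv n l p ∈ U := add_U (Dz_U n hp) hl

lemma pr_mv {n : ℤ} {l p : V4} (hl : l ∈ Lt) (hp : p ∈ U) : pr (mv n l p) = pr p :=
  pr_move hp hl n

lemma mv_im {n : ℤ} {l p : V4} (hl : l ∈ Lt) : (mv n l p).1.im = al ^ n * p.1.im := by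
  unfold mv; rw [add_im hl, Dz_im]

/-- smooth invariant functions on the universal cover -/
def SInv (a : V4 → ℝ) : Prop :=
  ContDiffOn ℝ ∞ a U ∧ ∀ n : ℤ, ∀ l ∈ Lt, ∀ p ∈ U, a (mv n l p) = a p

/-- smooth invariant forms on the universal cover -/
def FInv (k : ℕ) (w : V4 → V4 [⋀^Fin k]→L[ℝ] ℝ) : Prop :=
  ContDiffOn ℝ ∞ w U ∧ ∀ n : ℤ, ∀ l ∈ Lt, ∀ p ∈ U,
    w p = (w (mv n l p)).compContinuousLinearMap (DR n)

/-- local form of the changes of charts -/
lemma trans_local' {e e' : OpenPartialHomeomorph XX V4} (he : e ∈ atlas V4 XX)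
    (he' : e' ∈ atlas V4 XX) {y : V4} (hy : y ∈ (e.symm.trans e').source) :
    ∃ n : ℤ, ∃ l ∈ Lt, e' (e.symm y) = mv n l y ∧ mv n l y ∈ e'.target ∧
      (fun v => e' (e.symm v)) =ᶠ[𝓝 y] mv n l :=
  trans_local he he' hy

/-- an invariant form on the universal cover gives a form on the quotient -/
def mkForm {k : ℕ} (w : V4 → V4 [⋀^Fin k]→L[ℝ] ℝ) (h : FInv k w) : smoothForm V4 XX k :=
  (⟨fun _ => w, fun e he => h.1.mono (atlas_sub he), by
    intro e he e' he' y hy
    obtain ⟨n, l, hl, h1, -, h2⟩ := trans_local' he he' hy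
    have hy1 : y ∈ e.target := by
      rw [OpenPartialHomeomorph.trans_source, OpenPartialHomeomorph.symm_source] at hy
      exact hy.1
    rw [h2.fderiv_eq, mv_fderiv, h1]
    exact h.2 n l hl y (atlas_sub he hy1)⟩ : smoothForms V4 XX k)

lemma mkForm_val {k : ℕ} (w : V4 → V4 [⋀^Fin k]→L[ℝ] ℝ) (h : FInv k w)
    (e : OpenPartialHomeomorph XX V4) : (mkForm w h).form e = w := rfl

/-- the defining property of a smooth form -/
lemma form_prop {k : ℕ} (η : smoothForm V4 XX k) :
    (∀ e ∈ atlas V4 XX, ContDiffOn ℝ ∞ (η.form e) e.target) ∧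
    ∀ e ∈ atlas V4 XX, ∀ e' ∈ atlas V4 XX, ∀ y ∈ (e.symm.trans e').source,
      η.form e y = (η.form e' (e' (e.symm y))).compContinuousLinearMap
        (fderiv ℝ (fun v => e' (e.symm v)) y) :=
  (η : smoothForms V4 XX k).2

lemma form_add {k : ℕ} (η θ : smoothForm V4 XX k) (e : OpenPartialHomeomorph XX V4) (y : V4) :
    (η + θ).form e y = η.form e y + θ.form e y := rfl

lemma form_smul {k : ℕ} (c : ℝ) (η : smoothForm V4 XX k) (e : OpenPartialHomeomorph XX V4)
    (y : V4) : (c • η).form e y = c • η.form e y := rfl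

lemma form_ext {k : ℕ} {η θ : smoothForm V4 XX k} (h : ∀ e y, η.form e y = θ.form e y) : η = θ := by
  apply Subtype.ext
  funext e y
  exact h e y

open Classical in
/-- the lift of a form to the universal cover -/
noncomputable def tl {k : ℕ} (η : smoothForm V4 XX k) (p : V4) : V4 [⋀^Fin k]→L[ℝ] ℝ :=
  if h : p ∈ U then η.form (ech p h) p else 0

lemma tl_eq {k : ℕ} (η : smoothForm V4 XX k) {e : OpenPartialHomeomorph XX V4}
    (he : e ∈ atlas V4 XX) {p : V4} (hp : p ∈ e.target) : η.form e p = tl η p := by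
  have hU := atlas_sub he hp
  rw [tl, dif_pos hU]
  have hy : p ∈ (e.symm.trans (ech p hU)).source := by
    rw [OpenPartialHomeomorph.trans_source, OpenPartialHomeomorph.symm_source]
    refine ⟨hp, ?_⟩
    show e.symm p ∈ (ech p hU).source
    rw [atlas_symm he hp]
    exact mem_ech_source hU
  have key := (form_prop η).2 e he _ (ech_mem hU) p hy
  have h1 : (fun v => (ech p hU) (e.symm v)) =ᶠ[𝓝 p] fun v => v := by
    filter_upwards [e.open_target.mem_nhds hp, (ech p hU).open_target.mem_nhds (mem_ech_target hU)]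
      with v hv hv'
    rw [atlas_symm he hv]
    exact chart_pr (ech_mem hU) hv'
  have h2 : (ech p hU) (e.symm p) = p := h1.self_of_nhds
  rw [key, h1.fderiv_eq, h2]
  ext v
  simp

lemma tl_inv {k : ℕ} (η : smoothForm V4 XX k) : FInv k (tl η) := by
  refine ⟨?_, ?_⟩
  · intro p hp
    have h1 := ((form_prop η).1 _ (ech_mem hp)).contDiffAt
      ((ech p hp).open_target.mem_nhds (mem_ech_target hp))
    refine ContDiffAt.contDiffWithinAt (h1.congr_of_eventuallyEq ?_)
    filter_upwards [(ech p hp).open_target.mem_nhds (mem_ech_target hp)] with v hv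
    exact (tl_eq η (ech_mem hp) hv).symm
  · intro n l hl p hp
    have hq := mv_U (n := n) hl hp
    set e := ech p hp with he
    set e' := ech (mv n l p) hq with he'
    have hme : e ∈ atlas V4 XX := ech_mem hp
    have hme' : e' ∈ atlas V4 XX := ech_mem hq
    have hpe : p ∈ e.target := mem_ech_target hp
    have hpe' : mv n l p ∈ e'.target := mem_ech_target hq
    have h1 : (fun v => e' (e.symm v)) =ᶠ[𝓝 p] mv n l := by
      have hc : ContinuousAt (mv n l) p := (mv_contDiff (m := 0) n l).continuous.continuousAt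
      filter_upwards [e.open_target.mem_nhds hpe, hc.eventually (e'.open_target.mem_nhds hpe')]
        with v hv hv'
      rw [atlas_symm hme hv, ← pr_mv (n := n) hl (atlas_sub hme hv)]
      exact chart_pr hme' hv'
    have hy : p ∈ (e.symm.trans e').source := by
      rw [OpenPartialHomeomorph.trans_source, OpenPartialHomeomorph.symm_source]
      refine ⟨hpe, ?_⟩
      show e.symm p ∈ e'.source
      rw [atlas_symm hme hpe, ← pr_mv (n := n) hl hp]
      exact pr_mem_source hme' hpe'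
    have key := (form_prop η).2 e hme e' hme' p hy
    have h2 : e' (e.symm p) = mv n l p := h1.self_of_nhds
    rw [h1.fderiv_eq, mv_fderiv, h2, tl_eq η hme hpe, tl_eq η hme' hpe'] at key
    exact key

lemma tl_mkForm {k : ℕ} (w : V4 → V4 [⋀^Fin k]→L[ℝ] ℝ) (h : FInv k w) {p : V4} (hp : p ∈ U) :
    tl (mkForm w h) p = w p := by
  rw [tl, dif_pos hp]; rfl

lemma tl_add {k : ℕ} (η θ : smoothForm V4 XX k) (p : V4) : tl (η + θ) p = tl η p + tl θ p := by
  unfold tl
  split_ifs with h
  · rfl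
  · simp

lemma tl_smul {k : ℕ} (c : ℝ) (η : smoothForm V4 XX k) (p : V4) : tl (c • η) p = c • tl η p := by
  unfold tl
  split_ifs with h
  · rfl
  · simp

end Pool.Agent.H59.Lam
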