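import Pool.Agent.H59.Lam.Exist

set_option autoImplicit false

open Set Topology Filter MeasureTheory
open scoped Manifold ContDiff

namespace Pool.Agent.H59.Lam

lemma harmonic_smul {κ : KData} {T : Current V4 XX} {c : ℝ} (hc : 0 ≤ c) (h : κ.lam.IsHarmonic T) :
    κ.lam.IsHarmonic (c • T) := by
  refine ⟨?_, ?_, ?_⟩
  · intro η hη
    exact mul_nonneg hc (h.1 η hη)
  · intro η hη
    show c * T η = 0
    rw [h.2.1 η hη, mul_zero]
  · intro f hf η hη
    show c * T η = 0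
    rw [h.2.2 f hf η hη, mul_zero]

lemma mT_smul (c : ℝ) (T : Current V4 XX) : mT (c • T) = c • mT T := rfl

lemma mT_add (T T' : Current V4 XX) : mT (T + T') = mT T + mT T' := rfl

namespace KData

variable (κ : KData)

/-- positive invariant functionals on the functions of the torus fibre -/
def IF (I : Bp →ₗ[ℝ] ℝ) : Prop :=
  (∀ b : Bp, (∀ u ∈ κ.K, 0 ≤ b.1 u) → 0 ≤ I b) ∧ ∀ b, I (Bc 1 b) = I b

lemma IF_mT {T : Current V4 XX} (h : κ.lam.IsHarmonic T) : κ.IF (mT T) :=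
  ⟨fun _ hb => κ.mT_nonneg h hb, κ.mT_inv h⟩

/-- the set of harmonic currents with given transverse functional, as a set of functions -/
def SS (I : Bp →ₗ[ℝ] ℝ) : Set (smoothForm V4 XX 2 → ℝ) :=
  {F | ∃ T : Current V4 XX, κ.lam.IsHarmonic T ∧ mT T = I ∧ F = T}

lemma SS_eq (I : Bp →ₗ[ℝ] ℝ) : κ.SS I =
    {F | ∀ η θ, F (η + θ) = F η + F θ} ∩ ({F | ∀ (c : ℝ) η, F (c • η) = c * F η} ∩
      ({F | ∀ η, (∀ p ∈ U, p.2.2 ∈ κ.K → 0 ≤ (cfl η).1 p) → 0 ≤ F η} ∩
      ({F | ∀ a : V4 → ℝ, SInv a → ∀ η, (∀ p ∈ U, (cfl η).1 p = co (ddc a) p) → F η = 0} ∩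
        {F | ∀ b : Bp, F (fb b) = I b}))) := by
  ext F
  constructor
  · rintro ⟨T, hT, hI, rfl⟩
    refine ⟨fun η θ => T.map_add η θ, fun c η => T.map_smul c η, fun η hη => κ.pos_of hT.1 hT.2.1 hη,
      ?_, fun b => by rw [← hI]; rfl⟩
    intro a ha η hη
    have h1 : T η = T (mkForm (ddc a) (ddc_FInv ha)) := by
      apply κ.dir_congr hT.2.1
      intro p hp _
      rw [hη p hp, cfl_mkForm _ hp]
    rw [h1, ddc_zero hT.2.2 ha]
  · rintro ⟨h1, h2, h3, h4, h5⟩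
    let T : Current V4 XX := { toFun := F, map_add' := h1, map_smul' := h2 }
    refine ⟨T, κ.harmonic_of (T := T) h3 h4, ?_, rfl⟩
    ext b
    exact h5 b

lemma SS_closed (I : Bp →ₗ[ℝ] ℝ) : IsClosed (κ.SS I) := by
  rw [SS_eq]
  refine IsClosed.inter ?_ (IsClosed.inter ?_ (IsClosed.inter ?_ (IsClosed.inter ?_ ?_)))
  · simp only [Set.ofPred_forall]
    exact isClosed_iInter fun η => isClosed_iInter fun θ =>
      isClosed_eq (continuous_apply _) ((continuous_apply η).add (continuous_apply θ))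
  · simp only [Set.ofPred_forall]
    exact isClosed_iInter fun c => isClosed_iInter fun η =>
      isClosed_eq (continuous_apply _) (continuous_const.mul (continuous_apply _))
  · simp only [Set.ofPred_forall]
    exact isClosed_iInter fun η => isClosed_iInter fun _ =>
      isClosed_le continuous_const (continuous_apply _)
  · simp only [Set.ofPred_forall]
    exact isClosed_iInter fun a => isClosed_iInter fun _ => isClosed_iInter fun η =>
      isClosed_iInter fun _ => isClosed_eq (continuous_apply _) continuous_const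
  · simp only [Set.ofPred_forall]
    exact isClosed_iInter fun b => isClosed_eq (continuous_apply _) continuous_const

lemma SS_compact {I : Bp →ₗ[ℝ] ℝ} (h1 : I 1 = 1) : IsCompact (κ.SS I) := by
  have hb : ∀ η : smoothForm V4 XX 2, ∃ C, ∀ p ∈ U, |(cfl η).1 p| ≤ C := by
    intro η
    obtain ⟨C, -, hC⟩ := (cfl η).2.bdd
    exact ⟨C, hC⟩
  choose C hC using hb
  have hc : IsCompact (Set.pi univ fun η : smoothForm V4 XX 2 => Icc (-(C η)) (C η)) :=
    isCompact_univ_pi fun η => isCompact_Icc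
  apply hc.of_isClosed_subset (κ.SS_closed I)
  rintro F ⟨T, hT, hI, rfl⟩ η -
  have h2 := κ.abs_le_of hT.1 hT.2.1 (η := η) (fun p hp _ => hC η p hp)
  rw [← mT_one, hI, h1, mul_one] at h2
  exact abs_le.mp h2

/-- an indecomposable transverse functional gives an extremal current -/
lemma exists_extremal {I : Bp →ₗ[ℝ] ℝ} (hI : κ.IF I) (h1 : I 1 = 1)
    (herg : ∀ I₁ I₂ : Bp →ₗ[ℝ] ℝ, κ.IF I₁ → κ.IF I₂ → I₁ + I₂ = I → ∃ c : ℝ, I₁ = c • I) :
    ∃ T : Current V4 XX, κ.lam.IsExtremal T ∧ mT T = I := by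
  obtain ⟨T0, hT0, hI0⟩ := κ.exists_current hI.1 hI.2
  obtain ⟨F, hF⟩ := (κ.SS_compact h1).extremePoints_nonempty ⟨_, T0, hT0, hI0, rfl⟩
  obtain ⟨⟨T, hT, hTI, rfl⟩, hext⟩ := hF
  refine ⟨T, ⟨?_, hT, ?_⟩, hTI⟩
  · rintro rfl
    have : mT (0 : Current V4 XX) 1 = 1 := by rw [hTI, h1]
    have h2 : mT (0 : Current V4 XX) 1 = 0 := rfl
    rw [h2] at this
    exact zero_ne_one this
  · intro T₁ T₂ hT₁ hT₂ hsum
    have hs1 : mT T₁ + mT T₂ = I := by rw [← hTI, hsum]; rfl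
    obtain ⟨c, hc⟩ := herg _ _ (κ.IF_mT hT₁) (κ.IF_mT hT₂) hs1
    obtain ⟨d, hd⟩ := herg _ _ (κ.IF_mT hT₂) (κ.IF_mT hT₁) (by rw [add_comm]; exact hs1)
    have hc1 : mT T₁ 1 = c := by rw [hc]; show c * I 1 = c; rw [h1, mul_one]
    have hd1 : mT T₂ 1 = d := by rw [hd]; show d * I 1 = d; rw [h1, mul_one]
    have hone : ∀ u ∈ κ.K, 0 ≤ ((1 : Bp) : ℂ × ℂ → ℝ) u := fun u _ => by
      show (0 : ℝ) ≤ 1; norm_num
    have hc0 : 0 ≤ c := by rw [← hc1]; exact κ.mT_nonneg hT₁ hone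
    have hd0 : 0 ≤ d := by rw [← hd1]; exact κ.mT_nonneg hT₂ hone
    have hcd : c + d = 1 := by
      rw [← hc1, ← hd1, ← h1, ← hs1]; rfl
    rcases hc0.eq_or_lt with h0 | hcpos
    · refine ⟨0, ?_⟩
      rw [zero_smul]
      apply κ.eq_zero_of hT₁.1 hT₁.2.1
      rw [← mT_one, hc1, ← h0]
    rcases hd0.eq_or_lt with h0 | hdpos
    · refine ⟨1, ?_⟩
      have h2 : T₂ = 0 := by
        apply κ.eq_zero_of hT₂.1 hT₂.2.1
        rw [← mT_one, hd1, ← h0]
      rw [one_smul, hsum, h2, add_zero]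
    · refine ⟨c, ?_⟩
      have m1 : ((c⁻¹ • T₁ : Current V4 XX) : smoothForm V4 XX 2 → ℝ) ∈ κ.SS I := by
        refine ⟨c⁻¹ • T₁, harmonic_smul (inv_nonneg.mpr hc0) hT₁, ?_, rfl⟩
        rw [mT_smul, hc, smul_smul, inv_mul_cancel₀ hcpos.ne', one_smul]
      have m2 : ((d⁻¹ • T₂ : Current V4 XX) : smoothForm V4 XX 2 → ℝ) ∈ κ.SS I := by
        refine ⟨d⁻¹ • T₂, harmonic_smul (inv_nonneg.mpr hd0) hT₂, ?_, rfl⟩
        rw [mT_smul, hd, smul_smul, inv_mul_cancel₀ hdpos.ne', one_smul]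
      have hseg : (T : smoothForm V4 XX 2 → ℝ) ∈ openSegment ℝ
          ((c⁻¹ • T₁ : Current V4 XX) : smoothForm V4 XX 2 → ℝ)
          ((d⁻¹ • T₂ : Current V4 XX) : smoothForm V4 XX 2 → ℝ) := by
        refine ⟨c, d, hcpos, hdpos, hcd, ?_⟩
        funext η
        show c * (c⁻¹ * T₁ η) + d * (d⁻¹ * T₂ η) = T η
        rw [hsum, ← mul_assoc, ← mul_assoc, mul_inv_cancel₀ hcpos.ne', mul_inv_cancel₀ hdpos.ne',
          one_mul, one_mul]
        rfl
      have h3 := hext m1 m2 hseg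
      ext η
      have h4 := congrFun h3 η
      have h5 : c⁻¹ * T₁ η = T η := h4
      show T₁ η = c * T η
      rw [← h5, ← mul_assoc, mul_inv_cancel₀ hcpos.ne', one_mul]

end KData

end Pool.Agent.H59.Lam
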