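import Pool.Agent.H59.Lam.Coeff

set_option autoImplicit false

open Set Topology Filter
open scoped Manifold ContDiff

namespace Pool.Agent.H59.Lam

/-- an invariant closed set of the torus fibre (lifted to `ℂ²`) with dense orbits -/
structure KData where
  /-- the lift of the set -/
  K : Set (ℂ × ℂ)
  closed : IsClosed K
  ne : K.Nonempty
  add : ∀ u ∈ K, ∀ l ∈ Lt, u + l.2.2 ∈ K
  map : ∀ u, AA u ∈ K ↔ u ∈ K
  dense : ∀ u ∈ K, ∀ v ∈ K, ∀ ε > 0, ∃ n : ℤ, ∃ l ∈ Lt, ‖(AA ^ n) u + l.2.2 - v‖ < ε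

namespace KData

variable (κ : KData)

lemma mapz (n : ℤ) (u : ℂ × ℂ) : (AA ^ n) u ∈ κ.K ↔ u ∈ κ.K := by
  induction n using Int.induction_on with
  | zero => rw [zpow_zero]; exact Iff.rfl
  | succ i ih =>
    have e : (AA ^ ((i : ℤ) + 1)) u = AA ((AA ^ (i : ℤ)) u) := by
      rw [add_comm, zpow_add, zpow_one]; rfl
    rw [e, κ.map, ih]
  | pred i ih =>
    have e : (AA ^ (-(i : ℤ))) u = AA ((AA ^ (-(i : ℤ) - 1)) u) := by
      have : -(i : ℤ) = 1 + (-(i : ℤ) - 1) := by ring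
      conv_lhs => rw [this, zpow_add, zpow_one]
      rfl
    rw [← ih, e, κ.map]

lemma add_iff {u l : V4} (hl : l ∈ Lt) (w : ℂ × ℂ) (_hu : u = u) : w + l.2.2 ∈ κ.K ↔ w ∈ κ.K := by
  constructor
  · intro h
    have := κ.add _ h (-l) (Lt.neg_mem hl)
    simpa using this
  · intro h
    exact κ.add _ h l hl

lemma mv_iff {n : ℤ} {l p : V4} (hl : l ∈ Lt) : (mv n l p).2.2 ∈ κ.K ↔ p.2.2 ∈ κ.K := by
  have : (mv n l p).2.2 = (AA ^ n) p.2.2 + l.2.2 := by
    unfold mv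
    rw [Dz_apply]
    rfl
  rw [this, κ.add_iff hl _ (rfl : p = p), κ.mapz]

/-- the lamination as a set -/
def L : Set XX := pr '' {p | p ∈ U ∧ p.2.2 ∈ κ.K}

lemma mem_L {p : V4} (hp : p ∈ U) : pr p ∈ κ.L ↔ p.2.2 ∈ κ.K := by
  constructor
  · rintro ⟨q, ⟨hq, hqK⟩, h⟩
    rw [pr_eq_iff hq hp] at h
    obtain ⟨n, l, hl, rfl⟩ := h
    exact (κ.mv_iff hl).mpr hqK
  · intro h
    exact ⟨p, ⟨hp, h⟩, rfl⟩

lemma isCompact_L : IsCompact κ.L := by
  have h1 : κ.L = pr '' (CC ∩ {p : V4 | p.2.2 ∈ κ.K}) := by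
    apply Subset.antisymm
    · rintro _ ⟨p, ⟨hp, hK⟩, rfl⟩
      obtain ⟨q, hq, n, l, hl, rfl⟩ := exists_rel_CC hp
      exact ⟨_, ⟨hq, (κ.mv_iff hl).mpr hK⟩, pr_mv hl hp⟩
    · rintro _ ⟨p, ⟨hp, hK⟩, rfl⟩
      exact ⟨p, ⟨CC_sub hp, hK⟩, rfl⟩
  rw [h1]
  have h2 : IsClosed {p : V4 | p.2.2 ∈ κ.K} :=
    κ.closed.preimage (continuous_snd.comp continuous_snd)
  exact (CC_compact.inter_right h2).image_of_continuousOn
    (pr_continuousOn.mono (fun p hp => CC_sub hp.1))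

/-- transversal of the flow box at `p` -/
abbrev TT (p : V4) : Type := {t : ℂ × ℂ × ℂ // t ∈ Metric.ball p.2 (ep p) ∧ t.2 ∈ κ.K}

/-- the affine parametrisation of a flow box -/
noncomputable def aff (p : V4) (ζ : ℂ) (t : ℂ × ℂ × ℂ) : V4 := (p.1 + (ep p : ℂ) * ζ, t)

lemma aff_mem {p : V4} {ζ : ℂ} {t : ℂ × ℂ × ℂ} (hp : p ∈ U) (hζ : ζ ∈ Metric.ball (0 : ℂ) 1)
    (ht : t ∈ Metric.ball p.2 (ep p)) : aff p ζ t ∈ Metric.ball p (ep p) := by
  rw [Metric.mem_ball, Prod.dist_eq]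
  refine max_lt ?_ ht
  rw [dist_eq_norm]
  simp only [aff, add_sub_cancel_left, norm_mul, Complex.norm_real, Real.norm_of_nonneg (ep_pos hp).le]
  have := mem_ball_zero_iff.mp hζ
  have h2 := ep_pos hp
  nlinarith

lemma aff_hasDerivAt (p : V4) (ζ : ℂ) (t : ℂ × ℂ × ℂ) :
    HasDerivAt (fun ξ => aff p ξ t) ((ep p : ℂ) • e0) ζ := by
  have h1 : HasDerivAt (fun ξ : ℂ => p.1 + (ep p : ℂ) * ξ) (ep p : ℂ) ζ := by
    have := ((hasDerivAt_id ζ).const_mul (ep p : ℂ)).const_add p.1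
    simpa using this
  have h2 : HasDerivAt (fun _ : ℂ => t) 0 ζ := hasDerivAt_const _ _
  have h3 := h1.prodMk h2
  have e : (ep p : ℂ) • e0 = ((ep p : ℂ), (0 : ℂ × ℂ × ℂ)) := by
    refine Prod.ext ?_ ?_
    · simp [e0]
    · show (ep p : ℂ) • (0 : ℂ × ℂ × ℂ) = 0
      simp
  rw [e]
  exact h3

/-- the affine homeomorphism of `ℂ` in the flow box at `p` -/
lemma aff_emb {p : V4} (hp : p ∈ U) :
    IsEmbedding (fun q : Metric.ball (0 : ℂ) 1 × κ.TT p => aff p q.1 q.2) := by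
  have h0 : (ep p : ℂ) ≠ 0 := by
    exact_mod_cast (ep_pos hp).ne'
  have h1 : IsEmbedding (fun ζ : ℂ => p.1 + (ep p : ℂ) * ζ) :=
    ((Homeomorph.mulLeft₀ (ep p : ℂ) h0).trans (Homeomorph.addLeft p.1)).isEmbedding
  have h2 : IsEmbedding (fun ζ : Metric.ball (0 : ℂ) 1 => p.1 + (ep p : ℂ) * ζ) :=
    h1.comp IsEmbedding.subtypeVal
  have h3 : IsEmbedding (fun t : κ.TT p => (t : ℂ × ℂ × ℂ)) := IsEmbedding.subtypeVal
  exact h2.prodMap h3

/-- the flow box at `p` -/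
noncomputable def box (p : V4) (hp : p ∈ U) : FlowBox V4 XX κ.L where
  T := κ.TT p
  map ζ t := pr (aff p ζ t)
  emb := by
    have h1 := κ.aff_emb hp
    have h2 : ∀ q : Metric.ball (0 : ℂ) 1 × κ.TT p, aff p q.1 q.2 ∈ (ech p hp).target :=
      fun q => aff_mem hp q.1.2 q.2.2.1
    have h3 : IsEmbedding (fun q : Metric.ball (0 : ℂ) 1 × κ.TT p =>
        (⟨aff p q.1 q.2, h2 q⟩ : (ech p hp).target)) := h1.codRestrict _ h2
    have h4 := IsEmbedding.subtypeVal.comp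
      ((ech p hp).toHomeomorphSourceTarget.symm.isEmbedding.comp h3)
    exact h4
  open_range := by
    refine ⟨(ech p hp).source, (ech p hp).open_source, ?_⟩
    apply Subset.antisymm
    · rintro _ ⟨q, rfl⟩
      have h2 : aff p q.1 q.2 ∈ (ech p hp).target := aff_mem hp q.1.2 q.2.2.1
      refine ⟨(κ.mem_L (ball_sub_U hp h2)).mpr q.2.2.2, pr_mem_source (ech_mem hp) h2⟩
    · rintro x ⟨hx, hxs⟩
      set q := (ech p hp) x with hq
      have hqt : q ∈ Metric.ball p (ep p) := (ech p hp).map_source hxs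
      have hxq : pr q = x := (ech p hp).left_inv hxs
      rw [← hxq, κ.mem_L (ball_sub_U hp hqt)] at hx
      have h0 : (ep p : ℂ) ≠ 0 := by exact_mod_cast (ep_pos hp).ne'
      rw [Metric.mem_ball, Prod.dist_eq] at hqt
      have hd1 : dist q.1 p.1 < ep p := lt_of_le_of_lt (le_max_left _ _) hqt
      have hd2 : dist q.2 p.2 < ep p := lt_of_le_of_lt (le_max_right _ _) hqt
      have hz : (q.1 - p.1) / (ep p : ℂ) ∈ Metric.ball (0 : ℂ) 1 := by
        rw [mem_ball_zero_iff, norm_div, Complex.norm_real, Real.norm_of_nonneg (ep_pos hp).le,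
          div_lt_one (ep_pos hp), ← dist_eq_norm]
        exact hd1
      refine ⟨(⟨_, hz⟩, ⟨q.2, hd2, hx⟩), ?_⟩
      show pr (aff p ((q.1 - p.1) / (ep p : ℂ)) q.2) = x
      rw [← hxq]
      congr 1
      unfold aff
      rw [mul_div_cancel₀ _ h0, add_sub_cancel]
  holo := by
    intro t
    have hc : ContinuousOn (fun ζ => pr (aff p ζ t)) (Metric.ball 0 1) := by
      have h1 : ContinuousOn pr (Metric.ball p (ep p)) :=
        pr_continuousOn.mono (fun q hq => ball_sub_U hp hq)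
      have h2 : Continuous (fun ζ => aff p ζ (t : ℂ × ℂ × ℂ)) :=
        continuous_iff_continuousAt.mpr fun ζ => (aff_hasDerivAt p ζ t).continuousAt
      exact h1.comp h2.continuousOn (fun ζ hζ => aff_mem hp hζ t.2.1)
    refine ⟨hc, ?_⟩
    intro e he ζ hζ hs
    have hmem : aff p ζ t ∈ (ech p hp).target := aff_mem hp hζ t.2.1
    have hU : aff p ζ t ∈ U := ball_sub_U hp hmem
    have hy : aff p ζ t ∈ ((ech p hp).symm.trans e).source := by
      rw [OpenPartialHomeomorph.trans_source, OpenPartialHomeomorph.symm_source]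
      exact ⟨hmem, hs⟩
    obtain ⟨n, l, hl, -, -, hn⟩ := trans_local' (ech_mem hp) he hy
    have hcont : ContinuousAt (fun ζ => aff p ζ (t : ℂ × ℂ × ℂ)) ζ :=
      (aff_hasDerivAt p ζ t).continuousAt
    have h6 : (fun ξ => e (pr (aff p ξ t))) =ᶠ[𝓝 ζ] fun ξ => mv n l (aff p ξ t) :=
      hcont.eventually hn
    have h7 : HasDerivAt (fun ξ => mv n l (aff p ξ t)) ((D ^ n : V4 ≃L[ℂ] V4) ((ep p : ℂ) • e0)) ζ := by
      have h8 : HasFDerivAt (mv n l) ((D ^ n : V4 ≃L[ℂ] V4) : V4 →L[ℂ] V4) (aff p ζ t) :=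
        (((D ^ n : V4 ≃L[ℂ] V4) : V4 →L[ℂ] V4).hasFDerivAt).add_const l
      exact h8.comp_hasDerivAt ζ (aff_hasDerivAt p ζ t)
    have h9 := h7.congr_of_eventuallyEq h6
    refine ⟨h9.differentiableAt, ?_⟩
    have h10 := h9.deriv
    intro h0
    have h11 : deriv (fun ξ => e (pr (aff p ξ t))) ζ = 0 := h0
    rw [h10, ContinuousLinearEquiv.map_eq_zero_iff] at h11
    have h0 : (ep p : ℂ) ≠ 0 := by exact_mod_cast (ep_pos hp).ne'
    apply h0
    have h12 := congrArg Prod.fst h11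
    simpa [e0] using h12

end KData

end Pool.Agent.H59.Lam
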