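import Pool.Agent.H59.Lam.LamInst

set_option autoImplicit false

open Set Topology Filter
open scoped Manifold ContDiff

namespace Pool.Agent.H59.Lam

lemma mv_snd (n : ℤ) (l p : V4) : (mv n l p).2 = (be ^ n * p.2.1 + l.2.1, (AA ^ n) p.2.2 + l.2.2) := by
  unfold mv
  rw [Dz_apply]
  rfl

lemma mv_fst (n : ℤ) (l p : V4) : (mv n l p).1 = (al : ℂ) ^ n * p.1 + l.1 := by
  unfold mv
  rw [Dz_apply]
  rfl

namespace KData

variable (κ : KData)

/-- the lamination -/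
noncomputable def lam : Lamination V4 XX where
  carrier := κ.L
  isCompact := κ.isCompact_L
  nonempty := by
    obtain ⟨u, hu⟩ := κ.ne
    refine ⟨pr (Complex.I, 0, u), ⟨_, ⟨?_, hu⟩, rfl⟩⟩
    show 0 < (Complex.I).im
    simp
  boxes := {Φ | ∃ (p : V4) (hp : p ∈ U), Φ = κ.box p hp}
  cover := by
    rintro x ⟨q, ⟨hq, hK⟩, rfl⟩
    refine ⟨κ.box q hq, ⟨q, hq, rfl⟩, 0, by simp,
      ⟨q.2, Metric.mem_ball_self (ep_pos hq), hK⟩, ?_⟩
    show pr (aff q 0 q.2) = pr q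
    simp [aff]
  glue := by
    rintro _ ⟨p, hp, rfl⟩ _ ⟨p', hp', rfl⟩ ζ hζ (t : κ.TT p) ζ' hζ' (t' : κ.TT p') h
    change pr (aff p ζ t) = pr (aff p' ζ' t') at h
    have h1 : aff p ζ t ∈ U := ball_sub_U hp (aff_mem hp hζ t.2.1)
    have h2 : aff p' ζ' t' ∈ U := ball_sub_U hp' (aff_mem hp' hζ' t'.2.1)
    rw [pr_eq_iff h1 h2] at h
    obtain ⟨n, l, hl, hn⟩ := h
    change aff p' ζ' t' = mv n l (aff p ζ t) at hn
    have h0 : (ep p' : ℂ) ≠ 0 := by exact_mod_cast (ep_pos hp').ne'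
    set g : ℂ → ℂ := fun ξ => ((mv n l (aff p ξ t)).1 - p'.1) / (ep p' : ℂ) with hg
    have hgc : Continuous g := by
      simp only [hg, mv_fst, aff]
      fun_prop
    have hgζ : g ζ = ζ' := by
      show ((mv n l (aff p ζ t)).1 - p'.1) / (ep p' : ℂ) = ζ'
      rw [← hn]
      show ((p'.1 + (ep p' : ℂ) * ζ') - p'.1) / (ep p' : ℂ) = ζ'
      field_simp
      ring
    have h3 : ∀ᶠ ξ in 𝓝 ζ, g ξ ∈ Metric.ball (0 : ℂ) 1 := by
      apply hgc.continuousAt.eventually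
      rw [hgζ]
      exact Metric.isOpen_ball.mem_nhds hζ'
    filter_upwards [h3, Metric.isOpen_ball.mem_nhds hζ] with ξ hξ hξ1
    refine ⟨g ξ, hξ, ?_⟩
    show pr (aff p ξ t) = pr (aff p' (g ξ) t')
    rw [← pr_mv (n := n) hl (ball_sub_U hp (aff_mem hp hξ1 t.2.1))]
    congr 1
    refine Prod.ext ?_ ?_
    · simp only [hg, aff]
      rw [mul_div_cancel₀ _ h0]
      ring
    · have := congrArg Prod.snd hn
      rw [mv_snd] at this ⊢
      exact this.symm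

lemma mem_boxes {Φ : FlowBox V4 XX κ.L} (h : Φ ∈ κ.lam.boxes) : ∃ (p : V4) (hp : p ∈ U), Φ = κ.box p hp := h

lemma tangent_of {e : OpenPartialHomeomorph XX V4} (he : e ∈ atlas V4 XX) {y v : V4}
    (hy : y ∈ e.target) (h : κ.lam.IsTangent e y v) : y.2.2 ∈ κ.K ∧ ∃ c : ℂ, v = c • e0 := by
  obtain ⟨Φ, ⟨p, hp, rfl⟩, (t : κ.TT p), ζ, hζ, hm, c, hc⟩ := h
  change pr (aff p ζ t) = e.symm y at hm
  rw [atlas_symm he hy] at hm
  have h1 : aff p ζ t ∈ U := ball_sub_U hp (aff_mem hp hζ t.2.1)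
  have hyU := atlas_sub he hy
  rw [pr_eq_iff h1 hyU] at hm
  obtain ⟨n, l, hl, hn⟩ := hm
  change y = mv n l (aff p ζ t) at hn
  refine ⟨by rw [hn, κ.mv_iff hl]; exact t.2.2, ?_⟩
  have h2 : (fun ξ => e (pr (aff p ξ t))) =ᶠ[𝓝 ζ] fun ξ => mv n l (aff p ξ t) := by
    have hc1 : Continuous fun ξ => mv n l (aff p ξ t) := by
      have : Continuous (mv n l) := (mv_contDiff (m := 0) n l).continuous
      refine this.comp ?_
      unfold aff
      fun_prop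
    have h3 : ∀ᶠ ξ in 𝓝 ζ, mv n l (aff p ξ t) ∈ e.target := by
      apply hc1.continuousAt.eventually
      show ∀ᶠ y in 𝓝 (mv n l (aff p ζ t)), y ∈ e.target
      rw [← hn]
      exact e.open_target.mem_nhds hy
    filter_upwards [h3, Metric.isOpen_ball.mem_nhds hζ] with ξ hξ hξ1
    rw [← pr_mv (n := n) hl (ball_sub_U hp (aff_mem hp hξ1 t.2.1))]
    exact chart_pr he hξ
  have h4 : HasDerivAt (fun ξ => mv n l (aff p ξ t)) ((D ^ n) ((ep p : ℂ) • e0)) ζ := by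
    have := (((D ^ n : V4 ≃L[ℂ] V4) : V4 →L[ℂ] V4).hasFDerivAt.comp_hasDerivAt ζ
      (aff_hasDerivAt p ζ t)).add_const l
    exact this
  have h5 : deriv (fun ξ => e ((κ.box p hp).map ξ t)) ζ = (D ^ n) ((ep p : ℂ) • e0) := by
    rw [← h4.deriv]
    exact h2.deriv_eq
  rw [h5, map_smul] at hc
  have h6 : (D ^ n) e0 = (al ^ n : ℝ) • e0 := DR_e0 n
  have h7 : (al ^ n : ℝ) • e0 = ((al ^ n : ℝ) : ℂ) • e0 := (Complex.coe_smul _ _).symm
  rw [h6, h7] at hc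
  refine ⟨c * (ep p : ℂ) * ((al ^ n : ℝ) : ℂ), ?_⟩
  rw [hc, smul_smul, smul_smul]

lemma tangent_e0 {e : OpenPartialHomeomorph XX V4} (he : e ∈ atlas V4 XX) {y : V4}
    (hy : y ∈ e.target) (hK : y.2.2 ∈ κ.K) : κ.lam.IsTangent e y e0 := by
  have hyU := atlas_sub he hy
  refine ⟨κ.box y hyU, ⟨y, hyU, rfl⟩, ⟨y.2, Metric.mem_ball_self (ep_pos hyU), hK⟩, 0, by simp, ?_,
    (ep y : ℂ)⁻¹, ?_⟩
  · show pr (aff y 0 y.2) = e.symm y
    rw [atlas_symm he hy]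
    simp [aff]
  · have e1 : aff y 0 y.2 = y := by simp [aff]
    have h2 : (fun ξ => e (pr (aff y ξ y.2))) =ᶠ[𝓝 0] fun ξ => aff y ξ y.2 := by
      have hc1 : Continuous fun ξ => aff y ξ y.2 := by
        unfold aff
        fun_prop
      have h3 : ∀ᶠ ξ in 𝓝 0, aff y ξ y.2 ∈ e.target := by
        apply hc1.continuousAt.eventually
        show ∀ᶠ y in 𝓝 (aff y 0 y.2), y ∈ e.target
        rw [e1]
        exact e.open_target.mem_nhds hy
      filter_upwards [h3] with ξ hξ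
      exact chart_pr he hξ
    have h5 : deriv (fun ξ => e ((κ.box y hyU).map ξ ⟨y.2, Metric.mem_ball_self (ep_pos hyU), hK⟩)) 0
        = (ep y : ℂ) • e0 := by
      rw [← (aff_hasDerivAt y 0 y.2).deriv]
      exact h2.deriv_eq
    have h0 : (ep y : ℂ) ≠ 0 := by exact_mod_cast (ep_pos hyU).ne'
    rw [h5, smul_smul, inv_mul_cancel₀ h0, one_smul]

/-- points with the same transverse coordinate are in the same leaf -/
lemma chain (t : ℂ × ℂ × ℂ) (ht : t.2 ∈ κ.K) {z z' : ℂ} (hz : 0 < z.im) (hz' : 0 < z'.im) :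
    Relation.ReflTransGen κ.lam.SamePlaque (pr (z, t)) (pr (z', t)) := by
  have hconv : Convex ℝ {z : ℂ | 0 < z.im} := convex_halfSpace_im_gt 0
  refine hconv.isPreconnected.induction₂' (fun z z' => Relation.ReflTransGen κ.lam.SamePlaque
    (pr (z, t)) (pr (z', t))) ?_ ?_ hz hz'
  · intro x hx
    have hp : ((x, t) : V4) ∈ U := hx
    have hb : Metric.ball x (ep (x, t)) ∈ 𝓝[{z : ℂ | 0 < z.im}] x :=
      mem_nhdsWithin_of_mem_nhds (Metric.ball_mem_nhds _ (ep_pos hp))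
    filter_upwards [hb] with y hy
    have h0 : (ep (x, t) : ℂ) ≠ 0 := by exact_mod_cast (ep_pos hp).ne'
    have hζ : (y - x) / (ep (x, t) : ℂ) ∈ Metric.ball (0 : ℂ) 1 := by
      rw [mem_ball_zero_iff, norm_div, Complex.norm_real, Real.norm_of_nonneg (ep_pos hp).le,
        div_lt_one (ep_pos hp), ← dist_eq_norm]
      exact hy
    have e1 : pr (aff (x, t) 0 t) = pr (x, t) := by simp [aff]
    have e2 : pr (aff (x, t) ((y - x) / (ep (x, t) : ℂ)) t) = pr (y, t) := by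
      unfold aff
      rw [mul_div_cancel₀ _ h0, add_sub_cancel]
    constructor
    · apply Relation.ReflTransGen.single
      exact ⟨κ.box (x, t) hp, ⟨_, hp, rfl⟩, ⟨t, Metric.mem_ball_self (ep_pos hp), ht⟩, 0, by simp,
        _, hζ, e1, e2⟩
    · apply Relation.ReflTransGen.single
      exact ⟨κ.box (x, t) hp, ⟨_, hp, rfl⟩, ⟨t, Metric.mem_ball_self (ep_pos hp), ht⟩, _, hζ,
        0, by simp, e2, e1⟩
  · intro x y z _ _ _ h1 h2
    exact h1.trans h2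

end KData

lemma be_pow_mem (n : ℕ) : ∃ a b c : ℤ, be ^ n = (a : ℂ) + b * be + c * be ^ 2 := by
  induction n with
  | zero => exact ⟨1, 0, 0, by simp⟩
  | succ n ih =>
    obtain ⟨a, b, c, h⟩ := ih
    refine ⟨c, a + c, b, ?_⟩
    rw [pow_succ, h]
    push_cast
    linear_combination (c : ℂ) * be_cube

lemma dense_be (z : ℂ) {ε : ℝ} (hε : 0 < ε) : ∃ a b c : ℤ, ‖((a : ℂ) + b * be + c * be ^ 2) - z‖ < ε := by
  obtain ⟨n, hn⟩ := exists_pow_lt_of_lt_one (half_pos hε) be_norm_lt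
  have hb := bi_pos.ne'
  have hbn : be ^ n ≠ 0 := pow_ne_zero _ be_ne
  set w := z / be ^ n with hw
  set t : ℝ := w.im / bi with ht
  set s : ℝ := w.re + t * (al / 2) with hs
  have hw2 : w = (s : ℂ) + t * be := by
    apply Complex.ext
    · simp [be, hs]
      ring
    · simp [be, ht]
      field_simp
  have hz : z = s * be ^ n + t * be ^ (n + 1) := by
    have : z = w * be ^ n := by rw [hw]; field_simp
    rw [this, hw2]; ring
  obtain ⟨a, b, c, h1⟩ := be_pow_mem n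
  obtain ⟨a', b', c', h2⟩ := be_pow_mem (n + 1)
  refine ⟨⌊s⌋ * a + ⌊t⌋ * a', ⌊s⌋ * b + ⌊t⌋ * b', ⌊s⌋ * c + ⌊t⌋ * c', ?_⟩
  have e : ((((⌊s⌋ * a + ⌊t⌋ * a' : ℤ) : ℂ) + ((⌊s⌋ * b + ⌊t⌋ * b' : ℤ) : ℂ) * be +
      ((⌊s⌋ * c + ⌊t⌋ * c' : ℤ) : ℂ) * be ^ 2) - z) =
      -((Int.fract s : ℝ) : ℂ) * be ^ n - ((Int.fract t : ℝ) : ℂ) * be ^ (n + 1) := by
    rw [Int.fract, Int.fract]
    conv_lhs => rw [hz]
    push_cast
    rw [h1, h2]
    ring
  rw [e]
  calc _ ≤ ‖-((Int.fract s : ℝ) : ℂ) * be ^ n‖ + ‖((Int.fract t : ℝ) : ℂ) * be ^ (n + 1)‖ :=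
        norm_sub_le _ _
    _ = Int.fract s * ‖be‖ ^ n + Int.fract t * ‖be‖ ^ (n + 1) := by
        rw [norm_mul, norm_neg, norm_mul, norm_pow, norm_pow, Complex.norm_real, Complex.norm_real,
          Real.norm_of_nonneg (Int.fract_nonneg _), Real.norm_of_nonneg (Int.fract_nonneg _)]
    _ < ε := by
        have g1 := (Int.fract_lt_one s).le
        have g2 := (Int.fract_lt_one t).le
        have g3 : ‖be‖ ^ (n + 1) ≤ ‖be‖ ^ n := pow_le_pow_of_le_one (norm_nonneg _) be_norm_lt.le (by omega)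
        have g4 : 0 ≤ ‖be‖ ^ n := by positivity
        have g5 := Int.fract_nonneg t
        nlinarith

namespace KData

variable (κ : KData)

lemma minimal : κ.lam.IsMinimal := by
  rintro x ⟨p, ⟨hp, hpK⟩, rfl⟩ y ⟨q, ⟨hq, hqK⟩, rfl⟩
  rw [mem_closure_iff_nhds]
  intro O hO
  have hcont : ContinuousWithinAt pr U q := pr_continuousOn q hq
  have h1 : pr ⁻¹' O ∈ 𝓝 q := by
    have := hcont.preimage_mem_nhdsWithin hO
    rwa [U_open.nhdsWithin_eq hq] at this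
  obtain ⟨ε, hε, hball⟩ := Metric.mem_nhds_iff.mp h1
  obtain ⟨n, l, hl, hn⟩ := κ.dense p.2.2 hpK q.2.2 hqK ε hε
  obtain ⟨a, b, c, habc⟩ := dense_be (q.2.1 - (be ^ n * p.2.1 + l.2.1)) hε
  set m : V4 := lat ![a, b, c, 0, 0, 0, 0] with hm
  have hmm : m ∈ Lt := lat_mem _
  have hm1 : m.2.1 = (a : ℂ) + b * be + c * be ^ 2 := by simp [hm, lat]
  have hm2 : m.2.2 = 0 := by simp [hm, lat]
  have hlm : l + m ∈ Lt := Lt.add_mem hl hmm
  set r := mv n (l + m) p with hr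
  have hrU : r ∈ U := mv_U hlm hp
  have hrK : r.2.2 ∈ κ.K := (κ.mv_iff hlm).mpr hpK
  refine ⟨pr (q.1, r.2), ?_, ?_⟩
  · apply hball
    rw [Metric.mem_ball, Prod.dist_eq]
    refine max_lt (by simpa using hε) ?_
    show dist r.2 q.2 < ε
    rw [hr, mv_snd, Prod.dist_eq]
    refine max_lt ?_ ?_
    · show dist (be ^ n * p.2.1 + (l + m).2.1) q.2.1 < ε
      rw [dist_eq_norm]
      have e : be ^ n * p.2.1 + (l + m).2.1 - q.2.1 =
          ((a : ℂ) + b * be + c * be ^ 2) - (q.2.1 - (be ^ n * p.2.1 + l.2.1)) := by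
        rw [← hm1]
        show be ^ n * p.2.1 + (l.2.1 + m.2.1) - q.2.1 = _
        ring
      rw [e]
      exact habc
    · show dist ((AA ^ n) p.2.2 + (l + m).2.2) q.2.2 < ε
      rw [dist_eq_norm]
      have e : (l + m).2.2 = l.2.2 := by
        show l.2.2 + m.2.2 = l.2.2
        rw [hm2, add_zero]
      rw [e]
      exact hn
  · show Relation.ReflTransGen κ.lam.SamePlaque (pr p) (pr (q.1, r.2))
    rw [← pr_mv (n := n) hlm hp]
    exact κ.chain r.2 hrK hrU hq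

end KData

end Pool.Agent.H59.Lam
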