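import Pool.Agent.H59.Lam.Alg

set_option autoImplicit false

open Set Topology Filter MeasureTheory
open scoped ContDiff

namespace Pool.Agent.H59.Lam

/-- the translation length -/
noncomputable def ta : ℝ := Real.log al

lemma ta_pos : 0 < ta := Real.log_pos al_gt

lemma exp_ta : Real.exp ta = al := Real.exp_log al_pos

/-- smooth compactly supported functions on the line -/
def TF (ψ : ℝ → ℝ) : Prop := ContDiff ℝ ∞ ψ ∧ ∃ R : ℝ, ∀ t, R < |t| → ψ t = 0

lemma TF.deriv {ψ : ℝ → ℝ} (h : TF ψ) : TF (deriv ψ) := by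
  obtain ⟨h1, R, hR⟩ := h
  refine ⟨(contDiff_infty_iff_deriv.mp h1).2, R, fun t ht => ?_⟩
  have h2 : ψ =ᶠ[𝓝 t] fun _ => 0 := by
    have hopen : IsOpen {s : ℝ | R < |s|} := isOpen_lt continuous_const continuous_abs
    filter_upwards [hopen.mem_nhds ht] with s hs using hR s hs
  rw [h2.deriv_eq, deriv_const]

lemma TF.add {ψ φ : ℝ → ℝ} (h : TF ψ) (h' : TF φ) : TF (fun t => ψ t + φ t) := by
  obtain ⟨h1, R, hR⟩ := h
  obtain ⟨h1', R', hR'⟩ := h'
  refine ⟨h1.add h1', max R R', fun t ht => ?_⟩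
  show ψ t + φ t = 0
  rw [hR t (lt_of_le_of_lt (le_max_left _ _) ht), hR' t (lt_of_le_of_lt (le_max_right _ _) ht),
    add_zero]

lemma TF.smul {ψ : ℝ → ℝ} (c : ℝ) (h : TF ψ) : TF (fun t => c * ψ t) := by
  obtain ⟨h1, R, hR⟩ := h
  refine ⟨contDiff_const.mul h1, R, fun t ht => ?_⟩
  show c * ψ t = 0
  rw [hR t ht, mul_zero]

lemma TF.shift {ψ : ℝ → ℝ} (c : ℝ) (h : TF ψ) : TF (fun t => ψ (t + c)) := by
  obtain ⟨h1, R, hR⟩ := h
  refine ⟨h1.comp (contDiff_id.add contDiff_const), R + |c|, fun t ht => ?_⟩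
  apply hR
  have := abs_sub_abs_le_abs_sub t (-c)
  rw [abs_neg, sub_neg_eq_add] at this
  linarith

lemma exists_prim {f : ℝ → ℝ} (hf : ContDiff ℝ ∞ f) : ∃ F : ℝ → ℝ, ContDiff ℝ ∞ F ∧
    (∀ t, HasDerivAt F (f t) t) ∧ ∀ a b, F b - F a = ∫ x in a..b, f x := by
  have hc := hf.continuous
  have hd : ∀ t, HasDerivAt (fun u => ∫ x in (0:ℝ)..u, f x) (f t) t := fun t =>
    intervalIntegral.integral_hasDerivAt_right (hc.intervalIntegrable _ _)
      hc.aestronglyMeasurable.stronglyMeasurableAtFilter hc.continuousAt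
  refine ⟨fun u => ∫ x in (0:ℝ)..u, f x, ?_, hd, ?_⟩
  · rw [contDiff_infty_iff_deriv]
    refine ⟨fun t => (hd t).differentiableAt, ?_⟩
    have : deriv (fun u => ∫ x in (0:ℝ)..u, f x) = f := funext fun t => (hd t).deriv
    rw [this]; exact hf
  · intro a b
    exact intervalIntegral.integral_interval_sub_left (hc.intervalIntegrable _ _)
      (hc.intervalIntegrable _ _)

/-- the partition of unity -/
noncomputable def psi (t : ℝ) : ℝ := Real.smoothTransition t - Real.smoothTransition (t - ta)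

lemma psi_nonneg (t : ℝ) : 0 ≤ psi t := by
  unfold psi
  have := Real.smoothTransition.monotone (show t - ta ≤ t by linarith [ta_pos])
  linarith

lemma psi_left {t : ℝ} (ht : t ≤ 0) : psi t = 0 := by
  unfold psi
  rw [Real.smoothTransition.zero_of_nonpos ht,
    Real.smoothTransition.zero_of_nonpos (by linarith [ta_pos]), sub_zero]

lemma psi_right {t : ℝ} (ht : 1 + ta ≤ t) : psi t = 0 := by
  unfold psi
  rw [Real.smoothTransition.one_of_one_le (by linarith [ta_pos]),
    Real.smoothTransition.one_of_one_le (by linarith), sub_self]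

lemma psi_TF : TF psi := by
  refine ⟨?_, 1 + ta, fun t ht => ?_⟩
  · unfold psi
    exact Real.smoothTransition.contDiff.sub
      (Real.smoothTransition.contDiff.comp (contDiff_id.sub contDiff_const))
  · rcases lt_abs.mp ht with h | h
    · exact psi_right h.le
    · exact psi_left (by linarith [ta_pos])

lemma psi_sum_range (t : ℝ) (M : ℕ) : ∑ i ∈ Finset.range M, psi (t + (i : ℝ) * ta) =
    Real.smoothTransition (t + ((M : ℝ) - 1) * ta) - Real.smoothTransition (t - ta) := by
  induction M with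
  | zero => simp; ring_nf
  | succ M ih =>
    rw [Finset.sum_range_succ, ih]
    unfold psi
    push_cast
    have : t + (M : ℝ) * ta - ta = t + ((M : ℝ) - 1) * ta := by ring
    rw [this]
    have : t + ((M : ℝ) + 1 - 1) * ta = t + (M : ℝ) * ta := by ring
    rw [this]
    ring

lemma psi_hasSum (t : ℝ) : HasSum (fun n : ℤ => psi (t + (n : ℝ) * ta)) 1 := by
  obtain ⟨M, hM⟩ := exists_nat_gt ((|t| + 2 + ta) / ta)
  rw [div_lt_iff₀ ta_pos] at hM
  have hta := ta_pos
  have habs1 := le_abs_self t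
  have habs2 := neg_abs_le t
  set e : ℕ ↪ ℤ := ⟨fun i => (i : ℤ) - M, fun i j h => by simpa using h⟩ with he
  have h1 : ∀ n : ℤ, n ∉ (Finset.range (2 * M)).map e → psi (t + (n : ℝ) * ta) = 0 := by
    intro n hn
    rw [Finset.mem_map] at hn
    push Not at hn
    rcases lt_or_ge n (-(M : ℤ)) with h | h
    · apply psi_left
      have : (n : ℝ) ≤ -(M : ℝ) := by exact_mod_cast h.le
      nlinarith
    · rcases lt_or_ge n (M : ℤ) with h' | h'
      · exfalso
        apply hn (n + M).toNat
        · rw [Finset.mem_range]; omega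
        · show (((n + M).toNat : ℕ) : ℤ) - M = n
          omega
      · apply psi_right
        have : (M : ℝ) ≤ (n : ℝ) := by exact_mod_cast h'
        nlinarith
  have h2 : HasSum (fun n : ℤ => psi (t + (n : ℝ) * ta)) _ := hasSum_sum_of_ne_finset_zero h1
  have h3 : ∑ n ∈ (Finset.range (2 * M)).map e, psi (t + (n : ℝ) * ta) = 1 := by
    rw [Finset.sum_map]
    have h4 : ∀ i : ℕ, psi (t + ((e i : ℤ) : ℝ) * ta) = psi ((t - M * ta) + (i : ℝ) * ta) := by
      intro i
      congr 1
      show t + (((i : ℤ) - M : ℤ) : ℝ) * ta = _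
      push_cast
      ring
    simp_rw [h4]
    rw [psi_sum_range, Real.smoothTransition.one_of_one_le,
      Real.smoothTransition.zero_of_nonpos, sub_zero]
    · nlinarith
    · push_cast
      nlinarith
  rwa [h3] at h2

/-- the auxiliary function used for the flow invariance -/
lemma exists_kap : ∃ k : ℝ → ℝ, TF k ∧ ∀ t, deriv (deriv k) t - deriv k t =
    psi (t - ta) - (1 + al⁻¹) * psi t + al⁻¹ * psi (t + ta) := by
  obtain ⟨P, hP, hPd, hPi⟩ := exists_prim psi_TF.1
  set ρ : ℝ → ℝ := fun t => P (t - ta) - P t with hρ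
  have hρs : ContDiff ℝ ∞ ρ := (hP.comp (contDiff_id.sub contDiff_const)).sub hP
  have hρd : ∀ t, HasDerivAt ρ (psi (t - ta) - psi t) t := by
    intro t
    have h1 : HasDerivAt (fun t => P (t - ta)) (psi (t - ta)) t :=
      (hPd (t - ta)).comp_sub_const t ta
    exact h1.sub (hPd t)
  have hρ0 : ∀ t, t ≤ 0 → ρ t = 0 := by
    intro t ht
    have h1 : P (t - ta) - P t = ∫ x in t..(t - ta), psi x := hPi _ _
    rw [hρ]
    show P (t - ta) - P t = 0
    rw [h1]
    apply intervalIntegral.integral_zero_ae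
    refine Eventually.of_forall fun x hx => ?_
    rw [uIoc_of_ge (by linarith [ta_pos])] at hx
    exact psi_left (hx.2.trans ht)
  have hρ1 : ∀ t, 1 + 2 * ta ≤ t → ρ t = 0 := by
    intro t ht
    have h1 : P (t - ta) - P t = ∫ x in t..(t - ta), psi x := hPi _ _
    rw [hρ]
    show P (t - ta) - P t = 0
    rw [h1]
    apply intervalIntegral.integral_zero_ae
    refine Eventually.of_forall fun x hx => ?_
    rw [uIoc_of_ge (by linarith [ta_pos])] at hx
    exact psi_right (by linarith [hx.1])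
  have hgs : ContDiff ℝ ∞ (fun t => Real.exp (-t) * ρ t) :=
    (Real.contDiff_exp.comp contDiff_neg).mul hρs
  obtain ⟨G, hG, hGd, hGi⟩ := exists_prim hgs
  set k : ℝ → ℝ := fun t => Real.exp t * (G t - G (t + ta)) with hk
  have hks : ContDiff ℝ ∞ k :=
    Real.contDiff_exp.mul (hG.sub (hG.comp (contDiff_id.add contDiff_const)))
  have hkd : ∀ t, HasDerivAt k (k t + (ρ t - al⁻¹ * ρ (t + ta))) t := by
    intro t
    have h1 : HasDerivAt (fun t => G (t + ta)) (Real.exp (-(t + ta)) * ρ (t + ta)) t :=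
      (hGd (t + ta)).comp_add_const t ta
    have h2 : HasDerivAt (fun t => Real.exp t * (G t - G (t + ta)))
        (Real.exp t * (G t - G (t + ta)) + Real.exp t * (Real.exp (-t) * ρ t -
          Real.exp (-(t + ta)) * ρ (t + ta))) t :=
      (Real.hasDerivAt_exp t).mul ((hGd t).sub h1)
    refine h2.congr_deriv ?_
    have e1 : Real.exp t * Real.exp (-t) = 1 := by rw [← Real.exp_add]; simp
    have e2 : Real.exp t * Real.exp (-(t + ta)) = al⁻¹ := by
      rw [← Real.exp_add]
      have : t + -(t + ta) = -ta := by ring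
      rw [this, Real.exp_neg, exp_ta]
    show _ = Real.exp t * (G t - G (t + ta)) + (ρ t - al⁻¹ * ρ (t + ta))
    linear_combination (ρ t) * e1 - (ρ (t + ta)) * e2
  have hkd1 : deriv k = fun t => k t + (ρ t - al⁻¹ * ρ (t + ta)) := funext fun t => (hkd t).deriv
  have hkd2 : ∀ t, HasDerivAt (deriv k) (deriv k t + ((psi (t - ta) - psi t) -
      al⁻¹ * (psi t - psi (t + ta)))) t := by
    intro t
    have h1 : HasDerivAt (fun t => ρ (t + ta)) (psi t - psi (t + ta)) t := by
      have := (hρd (t + ta)).comp_add_const t ta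
      rwa [add_sub_cancel_right] at this
    have h2 : HasDerivAt (fun t => k t + (ρ t - al⁻¹ * ρ (t + ta))) _ t :=
      (hkd t).add ((hρd t).sub (h1.const_mul al⁻¹))
    rw [← hkd1] at h2
    have h3 : k t + (ρ t - al⁻¹ * ρ (t + ta)) = deriv k t := by rw [hkd1]
    rw [h3] at h2
    exact h2
  refine ⟨k, ⟨hks, 1 + 2 * ta, fun t ht => ?_⟩, fun t => ?_⟩
  · have h1 : G t - G (t + ta) = ∫ x in (t + ta)..t, Real.exp (-x) * ρ x := hGi _ _
    rw [hk]
    show Real.exp t * (G t - G (t + ta)) = 0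
    rw [h1]
    have h2 : ∫ x in (t + ta)..t, Real.exp (-x) * ρ x = 0 := by
      apply intervalIntegral.integral_zero_ae
      refine Eventually.of_forall fun x hx => ?_
      rw [uIoc_of_ge (by linarith [ta_pos])] at hx
      rcases lt_abs.mp ht with h | h
      · rw [hρ1 x (by linarith [hx.1]), mul_zero]
      · rw [hρ0 x (by linarith [hx.2, ta_pos]), mul_zero]
    rw [h2, mul_zero]
  · rw [(hkd2 t).deriv]
    ring

end Pool.Agent.H59.Lam
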