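import Pool.Agent.H59.Lam.Cur
import Pool.Agent.H59.Lam.OneD

set_option autoImplicit false

open Set Topology Filter
open scoped Manifold ContDiff

namespace Pool.Agent.H59.Lam

/-- smooth functions on the torus fibre -/
def Bp : Subalgebra ℝ (ℂ × ℂ → ℝ) where
  carrier := {b | ContDiff ℝ ∞ b ∧ ∀ u, ∀ l ∈ Lt, b (u + l.2.2) = b u}
  mul_mem' := by
    rintro a b ⟨h1, h2⟩ ⟨h3, h4⟩
    exact ⟨h1.mul h3, fun u l hl => by rw [Pi.mul_apply, Pi.mul_apply, h2 u l hl, h4 u l hl]⟩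
  add_mem' := by
    rintro a b ⟨h1, h2⟩ ⟨h3, h4⟩
    exact ⟨h1.add h3, fun u l hl => by rw [Pi.add_apply, Pi.add_apply, h2 u l hl, h4 u l hl]⟩
  algebraMap_mem' := by
    intro r
    exact ⟨contDiff_const, fun u l hl => rfl⟩

lemma Bp_smooth (b : Bp) : ContDiff ℝ ∞ b.1 := b.2.1
lemma Bp_per (b : Bp) (u : ℂ × ℂ) {l : V4} (hl : l ∈ Lt) : b.1 (u + l.2.2) = b.1 u := b.2.2 u l hl

lemma AAz_lat (n : ℤ) {l : V4} (hl : l ∈ Lt) : ∃ m ∈ Lt, (AA ^ n) l.2.2 = m.2.2 :=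
  ⟨_, Dz_mem n hl, by rw [Dz_apply]⟩

/-- precomposition with a power of the monodromy -/
noncomputable def Bc (n : ℤ) (b : Bp) : Bp :=
  ⟨fun u => b.1 ((AA ^ n) u), by
    refine ⟨?_, ?_⟩
    · exact (Bp_smooth b).comp ((((AA ^ n : (ℂ × ℂ) ≃L[ℂ] (ℂ × ℂ)) :
        (ℂ × ℂ) →L[ℂ] (ℂ × ℂ)).restrictScalars ℝ).contDiff)
    · intro u l hl
      obtain ⟨m, hm, h⟩ := AAz_lat n hl
      show b.1 ((AA ^ n) (u + l.2.2)) = b.1 ((AA ^ n) u)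
      rw [map_add, h, Bp_per b _ hm]⟩

lemma Bc_apply (n : ℤ) (b : Bp) (u : ℂ × ℂ) : (Bc n b).1 u = b.1 ((AA ^ n) u) := rfl

lemma AAz_add (n m : ℤ) (u : ℂ × ℂ) : (AA ^ (n + m)) u = (AA ^ n) ((AA ^ m) u) := by
  rw [zpow_add]; rfl

lemma Bc_Bc (n m : ℤ) (b : Bp) : Bc n (Bc m b) = Bc (m + n) b := by
  apply Subtype.ext
  funext u
  rw [Bc_apply, Bc_apply, Bc_apply, AAz_add]

lemma Bc_zero (b : Bp) : Bc 0 b = b := by
  apply Subtype.ext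
  funext u
  rw [Bc_apply, zpow_zero]; rfl

/-- reduction of the torus fibre -/
lemma exists_reduce_tor (u : ℂ × ℂ) : ∃ l ∈ Lt, ‖u + l.2.2‖ ≤ 8 := by
  obtain ⟨l, hl, -, -, h⟩ := exists_reduce ((0, 0, u) : V4)
  exact ⟨l, hl, (norm_snd_le _).trans h⟩

lemma Bp_bdd (b : Bp) : ∃ C, 0 ≤ C ∧ ∀ u, |b.1 u| ≤ C := by
  obtain ⟨C, hC⟩ := (isCompact_closedBall (0 : ℂ × ℂ) 8).exists_bound_of_continuousOn
    (Bp_smooth b).continuous.continuousOn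
  refine ⟨max C 0, le_max_right _ _, fun u => ?_⟩
  obtain ⟨l, hl, h⟩ := exists_reduce_tor u
  rw [← Bp_per b u hl]
  exact (hC _ (mem_closedBall_zero_iff.mpr h)).trans (le_max_left _ _)

/-- terms of the Poincaré series -/
noncomputable def tm (ψ : ℝ → ℝ) (b : ℂ × ℂ → ℝ) (n : ℤ) (p : V4) : ℝ :=
  ψ (Real.log (imL p) + n * ta) * b ((AA ^ n) p.2.2)

/-- Poincaré series -/
noncomputable def ab (ψ : ℝ → ℝ) (b : ℂ × ℂ → ℝ) (p : V4) : ℝ := ∑' n : ℤ, tm ψ b n p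

lemma exists_F (t₀ R : ℝ) : ∃ F : Finset ℤ, ∀ t, |t - t₀| < 1 → ∀ n ∉ F, R < |t + n * ta| := by
  obtain ⟨M, hM⟩ := exists_nat_gt ((|t₀| + 1 + R) / ta)
  rw [div_lt_iff₀ ta_pos] at hM
  refine ⟨Finset.Icc (-(M : ℤ)) M, fun t ht n hn => ?_⟩
  have h1 : (M : ℝ) < |(n : ℝ)| := by
    rw [Finset.mem_Icc, ← abs_le, not_le] at hn
    exact_mod_cast hn
  have h2 : |(n : ℝ) * ta| = |(n : ℝ)| * ta := by rw [abs_mul, abs_of_pos ta_pos]
  have h3 : |t| < |t₀| + 1 := by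
    have := abs_sub_abs_le_abs_sub t t₀
    linarith
  have h4 : |(n : ℝ) * ta| - |t| ≤ |t + n * ta| := by
    have := abs_sub_abs_le_abs_sub ((n : ℝ) * ta) (-t)
    rw [abs_neg, sub_neg_eq_add, add_comm _ t] at this
    exact this
  have h5 := ta_pos
  nlinarith

lemma tm_zero {ψ : ℝ → ℝ} (b : ℂ × ℂ → ℝ) {R : ℝ} (hR : ∀ t, R < |t| → ψ t = 0) (p : V4) :
    ∃ F : Finset ℤ, ∀ n ∉ F, tm ψ b n p = 0 := by
  obtain ⟨F, hF⟩ := exists_F (Real.log (imL p)) R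
  refine ⟨F, fun n hn => ?_⟩
  unfold tm
  rw [hR _ (hF _ (by simp) n hn), zero_mul]

lemma tm_summable {ψ : ℝ → ℝ} (hψ : TF ψ) (b : ℂ × ℂ → ℝ) (p : V4) :
    Summable (fun n => tm ψ b n p) := by
  obtain ⟨-, R, hR⟩ := hψ
  obtain ⟨F, hF⟩ := tm_zero b hR p
  exact summable_of_ne_finset_zero hF

lemma near_F {p : V4} (hp : p ∈ U) {ψ : ℝ → ℝ} (hψ : TF ψ) (b : ℂ × ℂ → ℝ) :
    ∃ F : Finset ℤ, (∀ᶠ q in 𝓝 p, ab ψ b q = ∑ n ∈ F, tm ψ b n q) ∧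
      ∀ᶠ q in 𝓝 p, ab (deriv ψ) b q = ∑ n ∈ F, tm (deriv ψ) b n q := by
  obtain ⟨h1, R, hR⟩ := hψ
  have hR' : ∀ t, R < |t| → deriv ψ t = 0 := by
    intro t ht
    have h2 : ψ =ᶠ[𝓝 t] fun _ => 0 := by
      have hopen : IsOpen {s : ℝ | R < |s|} := isOpen_lt continuous_const continuous_abs
      filter_upwards [hopen.mem_nhds ht] with s hs using hR s hs
    rw [h2.deriv_eq, deriv_const]
  obtain ⟨F, hF⟩ := exists_F (Real.log (imL p)) R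
  have hc : ContinuousAt (fun q : V4 => Real.log (imL q)) p :=
    imL.continuous.continuousAt.log (im_ne hp)
  have hnear : ∀ᶠ q in 𝓝 p, |Real.log (imL q) - Real.log (imL p)| < 1 := by
    have := hc.eventually (Metric.ball_mem_nhds _ one_pos)
    filter_upwards [this] with q hq
    exact hq
  refine ⟨F, ?_, ?_⟩
  · filter_upwards [hnear] with q hq
    apply tsum_eq_sum
    intro n hn
    unfold tm
    rw [hR _ (hF _ hq n hn), zero_mul]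
  · filter_upwards [hnear] with q hq
    apply tsum_eq_sum
    intro n hn
    unfold tm
    rw [hR' _ (hF _ hq n hn), zero_mul]

/-- real version of the powers of the monodromy of the torus -/
noncomputable def AR (n : ℤ) : (ℂ × ℂ) →L[ℝ] (ℂ × ℂ) :=
  ((AA ^ n : (ℂ × ℂ) ≃L[ℂ] (ℂ × ℂ)) : (ℂ × ℂ) →L[ℂ] (ℂ × ℂ)).restrictScalars ℝ

/-- projection to the torus fibre -/
noncomputable def p22 : V4 →L[ℝ] (ℂ × ℂ) :=
  (ContinuousLinearMap.snd ℝ ℂ (ℂ × ℂ)).comp (ContinuousLinearMap.snd ℝ ℂ (ℂ × ℂ × ℂ))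

lemma tm_contDiffAt {ψ : ℝ → ℝ} (hψ : ContDiff ℝ ∞ ψ) (b : Bp) (n : ℤ) {p : V4} (hp : p ∈ U) :
    ContDiffAt ℝ ∞ (tm ψ b.1 n) p := by
  have h1 : ContDiffAt ℝ ∞ (fun q : V4 => Real.log (imL q) + n * ta) p :=
    (imL.contDiff.contDiffAt.log (im_ne hp)).add contDiffAt_const
  have h2 : ContDiffAt ℝ ∞ (fun q : V4 => ψ (Real.log (imL q) + n * ta)) p :=
    hψ.contDiffAt.comp p h1
  have h3 : ContDiffAt ℝ ∞ (fun q : V4 => b.1 (AR n (p22 q))) p :=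
    ((Bp_smooth b).comp ((AR n).contDiff.comp p22.contDiff)).contDiffAt
  exact h2.mul h3

lemma ab_contDiffAt {ψ : ℝ → ℝ} (hψ : TF ψ) (b : Bp) {p : V4} (hp : p ∈ U) :
    ContDiffAt ℝ ∞ (ab ψ b.1) p := by
  obtain ⟨F, hF, -⟩ := near_F hp hψ b.1
  have h1 : ContDiffAt ℝ ∞ (fun q => ∑ n ∈ F, tm ψ b.1 n q) p :=
    ContDiffAt.sum (fun n _ => tm_contDiffAt hψ.1 b n hp)
  exact h1.congr_of_eventuallyEq hF

lemma tm_mv {ψ : ℝ → ℝ} (b : Bp) (n m : ℤ) {l p : V4} (hl : l ∈ Lt) (hp : p ∈ U) :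
    tm ψ b.1 n (mv m l p) = tm ψ b.1 (n + m) p := by
  unfold tm
  have h1 : Real.log (imL (mv m l p)) = m * ta + Real.log (imL p) := by
    have h0 : p.1.im ≠ 0 := im_ne hp
    rw [imL_apply, mv_im hl, Real.log_mul (zpow_pos al_pos _).ne' h0, Real.log_zpow]
    rfl
  have h2 : (mv m l p).2.2 = (AA ^ m) p.2.2 + l.2.2 := by rw [mv_snd]
  obtain ⟨l', hl', h⟩ := AAz_lat n hl
  rw [h1, h2, map_add, h, Bp_per b _ hl', AAz_add]
  congr 2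
  push_cast
  ring

lemma ab_SInv {ψ : ℝ → ℝ} (hψ : TF ψ) (b : Bp) : SInv (ab ψ b.1) := by
  refine ⟨fun p hp => (ab_contDiffAt hψ b hp).contDiffWithinAt, ?_⟩
  intro m l hl p hp
  unfold ab
  simp_rw [tm_mv b _ m hl hp]
  exact (Equiv.addRight m).tsum_eq (fun n => tm ψ b.1 n p)

lemma tm_fderiv {ψ : ℝ → ℝ} (hψ : ContDiff ℝ ∞ ψ) (b : Bp) (n : ℤ) {p v : V4} (hp : p ∈ U)
    (hv : v.2.2 = 0) : fderiv ℝ (tm ψ b.1 n) p v = (imL v / imL p) * tm (deriv ψ) b.1 n p := by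
  have h1 : HasFDerivAt (fun q : V4 => Real.log (imL q) + n * ta) ((imL p)⁻¹ • imL) p :=
    (imL.hasFDerivAt.log (im_ne hp)).add_const _
  have h2 : HasFDerivAt (fun q : V4 => ψ (Real.log (imL q) + n * ta))
      (deriv ψ (Real.log (imL p) + n * ta) • ((imL p)⁻¹ • imL)) p :=
    ((hψ.differentiable (by simp) _).hasDerivAt).comp_hasFDerivAt p h1
  have h3 : HasFDerivAt (fun q : V4 => b.1 (AR n (p22 q)))
      ((fderiv ℝ b.1 (AR n (p22 p))).comp ((AR n).comp p22)) p :=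
    (((Bp_smooth b).differentiable (by simp) _).hasFDerivAt).comp p
      (((AR n).comp p22).hasFDerivAt)
  have h4 := (h2.mul h3).fderiv
  have h5 : fderiv ℝ (tm ψ b.1 n) p = _ := h4
  rw [h5]
  have h6 : p22 v = 0 := hv
  simp only [add_apply, smul_apply, ContinuousLinearMap.comp_apply, h6, map_zero, smul_eq_mul,
    mul_zero, zero_add]
  unfold tm
  show b.1 ((AA ^ n) p.2.2) * _ = _
  field_simp

lemma ab_fderiv {ψ : ℝ → ℝ} (hψ : TF ψ) (b : Bp) {p v : V4} (hp : p ∈ U) (hv : v.2.2 = 0) :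
    fderiv ℝ (ab ψ b.1) p v = (imL v / imL p) * ab (deriv ψ) b.1 p := by
  obtain ⟨F, hF, hF'⟩ := near_F hp hψ b.1
  have h1 : ab ψ b.1 =ᶠ[𝓝 p] fun q => ∑ n ∈ F, tm ψ b.1 n q := hF
  rw [h1.fderiv_eq, hF'.self_of_nhds,
    fderiv_fun_sum (fun n _ => (tm_contDiffAt hψ.1 b n hp).differentiableAt (by simp))]
  rw [sum_apply, Finset.mul_sum]
  exact Finset.sum_congr rfl fun n _ => tm_fderiv hψ.1 b n hp hv

lemma ab_add {ψ φ : ℝ → ℝ} (hψ : TF ψ) (hφ : TF φ) (b : ℂ × ℂ → ℝ) (p : V4) :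
    ab (fun t => ψ t + φ t) b p = ab ψ b p + ab φ b p := by
  unfold ab
  rw [← (tm_summable hψ b p).tsum_add (tm_summable hφ b p)]
  congr 1
  funext n
  unfold tm
  ring

lemma ab_smul (c : ℝ) (ψ : ℝ → ℝ) (b : ℂ × ℂ → ℝ) (p : V4) :
    ab (fun t => c * ψ t) b p = c * ab ψ b p := by
  unfold ab
  rw [← tsum_mul_left]
  congr 1
  funext n
  unfold tm
  ring

lemma ab_add_right {ψ : ℝ → ℝ} (hψ : TF ψ) (b b' : ℂ × ℂ → ℝ) (p : V4) :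
    ab ψ (b + b') p = ab ψ b p + ab ψ b' p := by
  unfold ab
  rw [← (tm_summable hψ b p).tsum_add (tm_summable hψ b' p)]
  congr 1
  funext n
  unfold tm
  rw [Pi.add_apply]
  ring

lemma ab_smul_right (c : ℝ) (ψ : ℝ → ℝ) (b : ℂ × ℂ → ℝ) (p : V4) :
    ab ψ (c • b) p = c * ab ψ b p := by
  unfold ab
  rw [← tsum_mul_left]
  congr 1
  funext n
  unfold tm
  rw [Pi.smul_apply, smul_eq_mul]
  ring

/-- shifting the test function amounts to composing with the monodromy -/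
lemma ab_shift (ψ : ℝ → ℝ) (b : Bp) (m : ℤ) (p : V4) :
    ab (fun t => ψ (t - m * ta)) b.1 p = ab ψ (Bc m b).1 p := by
  unfold ab
  rw [← (Equiv.addRight m).tsum_eq (fun n => tm (fun t => ψ (t - m * ta)) b.1 n p)]
  congr 1
  funext n
  unfold tm
  rw [Bc_apply, Equiv.coe_addRight, ← AAz_add, add_comm m n]
  show ψ (Real.log (imL p) + ((n + m : ℤ) : ℝ) * ta - m * ta) * _ = _
  congr 2
  push_cast
  ring

lemma ab_one (p : V4) : ab psi 1 p = 1 := by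
  unfold ab tm
  simp only [Pi.one_apply, mul_one]
  exact (psi_hasSum _).tsum_eq

lemma ab_nonneg (κ : KData) {b : Bp} (hb : ∀ u ∈ κ.K, 0 ≤ b.1 u) {p : V4} (hK : p.2.2 ∈ κ.K) :
    0 ≤ ab psi b.1 p :=
  tsum_nonneg fun n => mul_nonneg (psi_nonneg _) (hb _ ((κ.mapz n _).mpr hK))

lemma lap_ab {ψ : ℝ → ℝ} (hψ : TF ψ) (b : Bp) {p : V4} (hp : p ∈ U) :
    p.1.im ^ 2 * lap (ab ψ b.1) p = ab (deriv (deriv ψ)) b.1 p - ab (deriv ψ) b.1 p := by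
  have hIe : imL (Complex.I • e0) = 1 := by simp [imL, e0]
  have hIe2 : (Complex.I • e0).2.2 = (0 : ℂ × ℂ) := by simp [e0]
  have he : imL e0 = 0 := by simp [imL, e0]
  have he2 : (e0).2.2 = (0 : ℂ × ℂ) := by simp [e0]
  have h1 : (fun q => fderiv ℝ (ab ψ b.1) q e0) =ᶠ[𝓝 p] fun _ => (0 : ℝ) := by
    filter_upwards [U_open.mem_nhds hp] with q hq
    rw [ab_fderiv hψ b hq he2, he, zero_div, zero_mul]
  have h2 : (fun q => fderiv ℝ (ab ψ b.1) q (Complex.I • e0)) =ᶠ[𝓝 p]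
      fun q => (imL q)⁻¹ * ab (deriv ψ) b.1 q := by
    filter_upwards [U_open.mem_nhds hp] with q hq
    rw [ab_fderiv hψ b hq hIe2, hIe, one_div]
  unfold lap
  rw [h1.fderiv_eq, h2.fderiv_eq]
  have hd1 : HasFDerivAt (fun q : V4 => (imL q)⁻¹) (-(imL p ^ 2)⁻¹ • imL) p :=
    (hasDerivAt_inv (im_ne hp)).comp_hasFDerivAt p imL.hasFDerivAt
  have hd2 : HasFDerivAt (ab (deriv ψ) b.1) (fderiv ℝ (ab (deriv ψ) b.1) p) p :=
    ((ab_contDiffAt hψ.deriv b hp).differentiableAt (by simp)).hasFDerivAt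
  have hd3 : HasFDerivAt (fun q => (imL q)⁻¹ * ab (deriv ψ) b.1 q) _ p := hd1.mul hd2
  rw [hd3.fderiv]
  simp only [add_apply, smul_apply, smul_eq_mul, hIe, ab_fderiv hψ.deriv b hp hIe2]
  have h0 : imL p ≠ 0 := im_ne hp
  have hz : (fderiv ℝ (fun _ : V4 => (0 : ℝ)) p) e0 = 0 := by simp
  rw [hz, ← imL_apply]
  field_simp
  ring

end Pool.Agent.H59.Lam
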