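import Pool.Agent.H59.Lam.Flow

set_option autoImplicit false

open Set Topology Filter MeasureTheory
open scoped Manifold ContDiff

namespace Pool.Agent.H59.Lam

/-- parametrisation of a leaf -/
noncomputable def pp (u : ℂ × ℂ) (z : ℝ × ℝ) : V4 :=
  z.1 • e0 + Real.exp z.2 • (Complex.I • e0) + (0, 0, u)

lemma pp_im (u : ℂ × ℂ) (z : ℝ × ℝ) : (pp u z).1.im = Real.exp z.2 := by
  simp [pp, e0, Complex.exp_ofReal_re]

lemma pp_imL (u : ℂ × ℂ) (z : ℝ × ℝ) : imL (pp u z) = Real.exp z.2 := pp_im u z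

lemma pp_U (u : ℂ × ℂ) (z : ℝ × ℝ) : pp u z ∈ U := by
  show 0 < (pp u z).1.im
  rw [pp_im]; exact Real.exp_pos _

lemma pp_22 (u : ℂ × ℂ) (z : ℝ × ℝ) : (pp u z).2.2 = u := by
  simp [pp, e0]

lemma pp_contDiff (u : ℂ × ℂ) : ContDiff ℝ ∞ (pp u) := by
  unfold pp
  exact ((contDiff_fst.smul contDiff_const).add
    ((Real.contDiff_exp.comp contDiff_snd).smul contDiff_const)).add contDiff_const

/-- derivative of the parametrisation -/
noncomputable def ppL (z : ℝ × ℝ) : ℝ × ℝ →L[ℝ] V4 :=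
  (ContinuousLinearMap.fst ℝ ℝ ℝ).smulRight e0 +
    (Real.exp z.2 • ContinuousLinearMap.snd ℝ ℝ ℝ).smulRight (Complex.I • e0)

lemma pp_hasFDerivAt (u : ℂ × ℂ) (z : ℝ × ℝ) : HasFDerivAt (pp u) (ppL z) z := by
  have h1 : HasFDerivAt (fun z : ℝ × ℝ => z.1 • e0) ((ContinuousLinearMap.fst ℝ ℝ ℝ).smulRight e0) z :=
    (ContinuousLinearMap.fst ℝ ℝ ℝ).hasFDerivAt.smul_const e0
  have h2 : HasFDerivAt (fun z : ℝ × ℝ => Real.exp z.2)
      (Real.exp z.2 • ContinuousLinearMap.snd ℝ ℝ ℝ) z :=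
    (ContinuousLinearMap.snd ℝ ℝ ℝ).hasFDerivAt.exp
  exact (h1.add (h2.smul_const (Complex.I • e0))).add_const _

lemma ppL_10 (z : ℝ × ℝ) : ppL z (1, 0) = e0 := by simp [ppL]

lemma ppL_01 (z : ℝ × ℝ) : ppL z (0, 1) = Real.exp z.2 • (Complex.I • e0) := by simp [ppL]

lemma SInv.fderiv_mv {f : V4 → ℝ} (h : SInv f) {n : ℤ} {l q : V4} (hl : l ∈ Lt) (hq : q ∈ U) :
    fderiv ℝ f q = (fderiv ℝ f (mv n l q)).comp (DR n) := by
  have h1 : f =ᶠ[𝓝 q] fun r => f (mv n l r) := by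
    filter_upwards [U_open.mem_nhds hq] with r hr
    exact (h.2 n l hl r hr).symm
  rw [h1.fderiv_eq]
  have h3 : DifferentiableAt ℝ f (mv n l q) :=
    (h.contDiffAt (mv_U hl hq)).differentiableAt (by simp)
  exact (h3.hasFDerivAt.comp q (mv_hasFDerivAt n l q)).fderiv

lemma SInv.dir_contDiffAt {f : V4 → ℝ} (h : SInv f) (v : V4) {p : V4} (hp : p ∈ U) :
    ContDiffAt ℝ ∞ (fun q => fderiv ℝ f q v) p :=
  ((h.contDiffAt hp).fderiv_right (m := ∞) (by simp)).clm_apply contDiffAt_const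

lemma SInv.dir_bdd {f : V4 → ℝ} (h : SInv f) {v : V4} (hv : ∀ n : ℤ, DR n v = (al ^ n : ℝ) • v) :
    ∃ C, 0 ≤ C ∧ ∀ p ∈ U, |imL p * fderiv ℝ f p v| ≤ C := by
  apply bdd_of_inv
  · intro p hp
    exact (imL.continuous.continuousAt.mul (h.dir_contDiffAt v hp).continuousAt).continuousWithinAt
  · intro n l hl p hp
    rw [h.fderiv_mv (n := n) hl hp, ContinuousLinearMap.comp_apply, hv, map_smul, imL_apply,
      imL_apply, mv_im hl, smul_eq_mul]
    ring

/-- the basic inequality along a leaf -/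
lemma leaf_ineq {f : V4 → ℝ} (hf : SInv f) : ∃ C : ℝ, 0 ≤ C ∧ ∀ (u : ℂ × ℂ) (S : ℝ), 0 < S →
    ∀ (β B : ℝ → ℝ), ContinuousOn β (Icc 0 S) → (∀ s ∈ Icc 0 S, HasDerivAt β (B s) s) →
    ContinuousOn B (Icc 0 S) →
    (∀ z : ℝ × ℝ, z.2 ∈ Icc 0 S → 0 ≤ (pp u z).1.im ^ 2 * lap f (pp u z) + B z.2) →
    0 ≤ C + (β S - β 0) := by
  obtain ⟨C0, hC0, hf0⟩ := hf.bdd
  obtain ⟨C1, hC1, hf1⟩ := hf.dir_bdd DR_e0
  obtain ⟨C2, hC2, hf2⟩ := hf.dir_bdd (v := Complex.I • e0) (fun n => by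
    rw [DR_I, DR_e0, smul_comm])
  refine ⟨C1 + 2 * (C2 + C0), by positivity, ?_⟩
  intro u S hS β B hβc hβ hB hpos
  set F : ℝ × ℝ → ℝ := fun z => Real.exp z.2 ^ 2 * fderiv ℝ f (pp u z) e0 with hF
  set G : ℝ × ℝ → ℝ := fun z => (Real.exp z.2 * fderiv ℝ f (pp u z) (Complex.I • e0) - f (pp u z)) +
    β z.2 with hG
  set R : ℝ := S * Real.exp S with hR
  have hRpos : 0 < R := by positivity
  have hpc : Continuous (pp u) := (pp_contDiff u).continuous
  have hA : ∀ (v : V4) (z : ℝ × ℝ), HasFDerivAt (fun z => fderiv ℝ f (pp u z) v)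
      ((fderiv ℝ (fun q => fderiv ℝ f q v) (pp u z)).comp (ppL z)) z := by
    intro v z
    have h1 := ((hf.dir_contDiffAt v (pp_U u z)).differentiableAt (by simp)).hasFDerivAt
    exact h1.comp z (pp_hasFDerivAt u z)
  have hff : ∀ z : ℝ × ℝ, HasFDerivAt (fun z => f (pp u z)) ((fderiv ℝ f (pp u z)).comp (ppL z)) z := by
    intro z
    have h1 := ((hf.contDiffAt (pp_U u z)).differentiableAt (by simp)).hasFDerivAt
    exact h1.comp z (pp_hasFDerivAt u z)
  have hexp : ∀ z : ℝ × ℝ, HasFDerivAt (fun z : ℝ × ℝ => Real.exp z.2)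
      (Real.exp z.2 • ContinuousLinearMap.snd ℝ ℝ ℝ) z := fun z =>
    (ContinuousLinearMap.snd ℝ ℝ ℝ).hasFDerivAt.exp
  have hexp2 : ∀ z : ℝ × ℝ, HasFDerivAt (fun z : ℝ × ℝ => Real.exp z.2 ^ 2)
      ((2 * Real.exp z.2) • (Real.exp z.2 • ContinuousLinearMap.snd ℝ ℝ ℝ)) z := by
    intro z
    have := (hexp z).pow 2
    simpa using this
  have hFd : ∀ z : ℝ × ℝ, HasFDerivAt F (Real.exp z.2 ^ 2 •
      ((fderiv ℝ (fun q => fderiv ℝ f q e0) (pp u z)).comp (ppL z)) + fderiv ℝ f (pp u z) e0 •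
      ((2 * Real.exp z.2) • (Real.exp z.2 • ContinuousLinearMap.snd ℝ ℝ ℝ))) z :=
    fun z => (hexp2 z).mul (hA e0 z)
  have hβd : ∀ z : ℝ × ℝ, z.2 ∈ Icc 0 S → HasFDerivAt (fun z : ℝ × ℝ => β z.2)
      (B z.2 • ContinuousLinearMap.snd ℝ ℝ ℝ) z := fun z hz =>
    (hβ z.2 hz).comp_hasFDerivAt z (ContinuousLinearMap.snd ℝ ℝ ℝ).hasFDerivAt
  have hGd : ∀ z : ℝ × ℝ, z.2 ∈ Icc 0 S → HasFDerivAt G (((Real.exp z.2 •
      ((fderiv ℝ (fun q => fderiv ℝ f q (Complex.I • e0)) (pp u z)).comp (ppL z)) +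
      fderiv ℝ f (pp u z) (Complex.I • e0) • (Real.exp z.2 • ContinuousLinearMap.snd ℝ ℝ ℝ)) -
      (fderiv ℝ f (pp u z)).comp (ppL z)) + B z.2 • ContinuousLinearMap.snd ℝ ℝ ℝ) z :=
    fun z hz => (((hexp z).mul (hA _ z)).sub (hff z)).add (hβd z hz)
  have hdiv : ∀ z : ℝ × ℝ, (Real.exp z.2 ^ 2 •
      ((fderiv ℝ (fun q => fderiv ℝ f q e0) (pp u z)).comp (ppL z)) + fderiv ℝ f (pp u z) e0 •
      ((2 * Real.exp z.2) • (Real.exp z.2 • ContinuousLinearMap.snd ℝ ℝ ℝ))) (1, 0) +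
      (((Real.exp z.2 •
      ((fderiv ℝ (fun q => fderiv ℝ f q (Complex.I • e0)) (pp u z)).comp (ppL z)) +
      fderiv ℝ f (pp u z) (Complex.I • e0) • (Real.exp z.2 • ContinuousLinearMap.snd ℝ ℝ ℝ)) -
      (fderiv ℝ f (pp u z)).comp (ppL z)) + B z.2 • ContinuousLinearMap.snd ℝ ℝ ℝ) (0, 1) =
      (pp u z).1.im ^ 2 * lap f (pp u z) + B z.2 := by
    intro z
    simp only [add_apply, smul_apply, sub_apply, ContinuousLinearMap.comp_apply, ppL_10, ppL_01,
      ContinuousLinearMap.coe_snd', smul_eq_mul, map_smul, pp_im, lap]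
    ring
  obtain ⟨F', hF'⟩ : ∃ F' : ℝ × ℝ → (ℝ × ℝ →L[ℝ] ℝ), F' = fun z => Real.exp z.2 ^ 2 •
      ((fderiv ℝ (fun q => fderiv ℝ f q e0) (pp u z)).comp (ppL z)) + fderiv ℝ f (pp u z) e0 •
      ((2 * Real.exp z.2) • (Real.exp z.2 • ContinuousLinearMap.snd ℝ ℝ ℝ)) := ⟨_, rfl⟩
  obtain ⟨G', hG'⟩ : ∃ G' : ℝ × ℝ → (ℝ × ℝ →L[ℝ] ℝ), G' = fun z => ((Real.exp z.2 •
      ((fderiv ℝ (fun q => fderiv ℝ f q (Complex.I • e0)) (pp u z)).comp (ppL z)) +
      fderiv ℝ f (pp u z) (Complex.I • e0) • (Real.exp z.2 • ContinuousLinearMap.snd ℝ ℝ ℝ)) -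
      (fderiv ℝ f (pp u z)).comp (ppL z)) + B z.2 • ContinuousLinearMap.snd ℝ ℝ ℝ := ⟨_, rfl⟩
  have hFd' : ∀ z, HasFDerivAt F (F' z) z := by rw [hF']; exact hFd
  have hGd' : ∀ z : ℝ × ℝ, z.2 ∈ Icc 0 S → HasFDerivAt G (G' z) z := by rw [hG']; exact hGd
  have hdiv' : ∀ z, F' z (1, 0) + G' z (0, 1) = (pp u z).1.im ^ 2 * lap f (pp u z) + B z.2 := by
    rw [hF', hG']; exact hdiv
  have hlapc : Continuous (fun z : ℝ × ℝ => (pp u z).1.im ^ 2 * lap f (pp u z)) := by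
    rw [continuous_iff_continuousAt]
    intro z
    have h1 : ContinuousAt (fun p => lap f p) (pp u z) := by
      unfold lap
      have a1 := ((hf.dir_contDiffAt e0 (pp_U u z)).fderiv_right (m := ∞) (by simp)).clm_apply
        (contDiffAt_const (c := e0))
      have a2 := ((hf.dir_contDiffAt (Complex.I • e0) (pp_U u z)).fderiv_right (m := ∞)
        (by simp)).clm_apply (contDiffAt_const (c := Complex.I • e0))
      exact a1.continuousAt.add a2.continuousAt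
    have h2 : ContinuousAt (fun z : ℝ × ℝ => (pp u z).1.im ^ 2) z := by
      simp only [pp_im]
      fun_prop
    exact h2.mul (h1.comp hpc.continuousAt)
  have hBc : ContinuousOn (fun z : ℝ × ℝ => B z.2) (uIcc (-R) R ×ˢ uIcc 0 S) := by
    rw [uIcc_of_le hS.le]
    exact hB.comp continuous_snd.continuousOn (fun z hz => hz.2)
  have hcompact : IsCompact (uIcc (-R) R ×ˢ uIcc 0 S) := isCompact_uIcc.prod isCompact_uIcc
  have hmain := integral2_divergence_prod_of_hasFDerivAt_off_countable F G F' G'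
    (-R) 0 R S ∅ countable_empty
    (fun z _ => (hFd' z).continuousAt.continuousWithinAt)
    (by
      intro z hz
      rw [uIcc_of_le hS.le] at hz
      exact (hGd' z hz.2).continuousAt.continuousWithinAt)
    (fun z _ => hFd' z)
    (by
      intro z hz
      apply hGd'
      have := hz.1.2
      rw [min_eq_left hS.le, max_eq_right hS.le] at this
      exact ⟨this.1.le, this.2.le⟩)
    (by
      simp only [hdiv']
      exact (hlapc.continuousOn.add hBc).integrableOn_compact hcompact)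
  simp only [hdiv'] at hmain
  have hnonneg : 0 ≤ ∫ x in (-R)..R, ∫ y in (0:ℝ)..S,
      ((pp u (x, y)).1.im ^ 2 * lap f (pp u (x, y)) + B y) := by
    apply intervalIntegral.integral_nonneg (by linarith)
    intro x _
    apply intervalIntegral.integral_nonneg hS.le
    intro y hy
    exact hpos (x, y) hy
  rw [hmain] at hnonneg
  -- bounds
  have b1 : ∀ y ∈ Icc 0 S, ∀ x, |F (x, y)| ≤ Real.exp S * C1 := by
    intro y hy x
    have h1 := hf1 _ (pp_U u (x, y))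
    rw [pp_imL] at h1
    have h2 : F (x, y) = Real.exp y * (Real.exp y * fderiv ℝ f (pp u (x, y)) e0) := by
      simp only [hF]; ring
    rw [h2, abs_mul, abs_of_pos (Real.exp_pos _)]
    exact mul_le_mul (Real.exp_le_exp.mpr hy.2) h1 (abs_nonneg _) (Real.exp_pos _).le
  have i1 : |∫ y in (0:ℝ)..S, F (R, y)| ≤ R * C1 := by
    have := intervalIntegral.norm_integral_le_of_norm_le_const (a := 0) (b := S)
      (f := fun y => F (R, y)) (C := Real.exp S * C1) (by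
        intro y hy
        rw [uIoc_of_le hS.le] at hy
        exact b1 y ⟨hy.1.le, hy.2⟩ R)
    rw [Real.norm_eq_abs, sub_zero, abs_of_pos hS] at this
    calc _ ≤ _ := this
      _ = R * C1 := by rw [hR]; ring
  have i2 : |∫ y in (0:ℝ)..S, F (-R, y)| ≤ R * C1 := by
    have := intervalIntegral.norm_integral_le_of_norm_le_const (a := 0) (b := S)
      (f := fun y => F (-R, y)) (C := Real.exp S * C1) (by
        intro y hy
        rw [uIoc_of_le hS.le] at hy
        exact b1 y ⟨hy.1.le, hy.2⟩ (-R))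
    rw [Real.norm_eq_abs, sub_zero, abs_of_pos hS] at this
    calc _ ≤ _ := this
      _ = R * C1 := by rw [hR]; ring
  have b2 : ∀ y x, |G (x, y) - β y| ≤ C2 + C0 := by
    intro y x
    have h1 := hf2 _ (pp_U u (x, y))
    have h2 := hf0 _ (pp_U u (x, y))
    rw [pp_imL] at h1
    have h3 : G (x, y) - β y = Real.exp y * fderiv ℝ f (pp u (x, y)) (Complex.I • e0) -
        f (pp u (x, y)) := by
      simp only [hG]; ring
    rw [h3]
    exact (abs_sub _ _).trans (add_le_add h1 h2)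
  have hGc : ∀ y ∈ Icc 0 S, Continuous fun x : ℝ => G (x, y) := by
    intro y hy
    rw [continuous_iff_continuousAt]
    intro x
    have hc : ContinuousAt (fun x : ℝ => ((x, y) : ℝ × ℝ)) x :=
      (continuous_id.prodMk continuous_const).continuousAt
    exact ContinuousAt.comp (f := fun x : ℝ => ((x, y) : ℝ × ℝ)) (g := G)
      (hGd (x, y) hy).continuousAt hc
  have i3 : ∫ x in (-R)..R, G (x, S) ≤ 2 * R * (C2 + C0 + β S) := by
    have h1 : ∫ x in (-R)..R, G (x, S) ≤ ∫ x in (-R)..R, (C2 + C0 + β S) := by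
      apply intervalIntegral.integral_mono_on (by linarith)
        ((hGc S ⟨hS.le, le_rfl⟩).intervalIntegrable _ _) intervalIntegrable_const
      intro x _
      have := (abs_le.mp (b2 S x)).2
      linarith
    rw [intervalIntegral.integral_const, smul_eq_mul] at h1
    calc _ ≤ _ := h1
      _ = _ := by ring
  have i4 : 2 * R * (-(C2 + C0) + β 0) ≤ ∫ x in (-R)..R, G (x, 0) := by
    have h1 : ∫ x in (-R)..R, (-(C2 + C0) + β 0) ≤ ∫ x in (-R)..R, G (x, 0) := by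
      apply intervalIntegral.integral_mono_on (by linarith) intervalIntegrable_const
        ((hGc 0 ⟨le_rfl, hS.le⟩).intervalIntegrable _ _)
      intro x _
      have := (abs_le.mp (b2 0 x)).1
      linarith
    rw [intervalIntegral.integral_const, smul_eq_mul] at h1
    calc _ = _ := by ring
      _ ≤ _ := h1
  have i1' := (abs_le.mp i1).2
  have i2' := (abs_le.mp i2).1
  have hfin : 0 ≤ 2 * R * ((C1 + 2 * (C2 + C0)) + (β S - β 0)) := by nlinarith
  by_contra hneg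
  push Not at hneg
  nlinarith

end Pool.Agent.H59.Lam
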