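import Pool.Agent.H59.Lam.Alg

set_option autoImplicit false

open Set Topology Filter
open scoped Manifold ContDiff

namespace Pool.Agent.H59.Lam

/-- the universal cover, an open subset of `ℂ⁴` -/
def U : Set V4 := {p | 0 < p.1.im}

lemma U_open : IsOpen U := isOpen_lt continuous_const (Complex.continuous_im.comp continuous_fst)

lemma Dz_U (n : ℤ) {p : V4} (h : p ∈ U) : (D ^ n) p ∈ U := by
  have h' : 0 < p.1.im := h
  show 0 < ((D ^ n) p).1.im
  rw [Dz_im]
  exact mul_pos (zpow_pos al_pos n) h'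

lemma add_im {p l : V4} (hl : l ∈ Lt) : (p + l).1.im = p.1.im := by
  rw [Prod.fst_add, Complex.add_im, Lt_im hl, add_zero]

lemma add_U {p l : V4} (h : p ∈ U) (hl : l ∈ Lt) : p + l ∈ U := by
  have h' : 0 < p.1.im := h
  show 0 < (p + l).1.im
  rw [add_im hl]; exact h'

/-- the orbit relation of the group generated by `D` and the translations of the lattice -/
def rel (p q : V4) : Prop := ∃ n : ℤ, ∃ l ∈ Lt, q = (D ^ n) p + l

lemma rel_refl (p : V4) : rel p p := ⟨0, 0, Lt.zero_mem, by rw [zpow_zero, add_zero]; rfl⟩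

lemma rel_symm {p q : V4} (h : rel p q) : rel q p := by
  obtain ⟨n, l, hl, rfl⟩ := h
  refine ⟨-n, -(D ^ (-n)) l, Lt.neg_mem (Dz_mem _ hl), ?_⟩
  rw [map_add, ← Dz_add_apply, neg_add_cancel, zpow_zero, add_assoc, add_neg_cancel, add_zero]
  rfl

lemma rel_trans {p q r : V4} (h : rel p q) (h' : rel q r) : rel p r := by
  obtain ⟨n, l, hl, rfl⟩ := h
  obtain ⟨m, l', hl', rfl⟩ := h'
  refine ⟨m + n, (D ^ m) l + l', Lt.add_mem (Dz_mem _ hl) hl', ?_⟩
  rw [map_add, ← Dz_add_apply, add_assoc]

/-- the orbit equivalence relation on the universal cover -/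
def stp : Setoid U where
  r p q := rel p q
  iseqv := ⟨fun p => rel_refl p, fun h => rel_symm h, fun h h' => rel_trans h h'⟩

/-- the compact complex manifold -/
abbrev XX : Type := Quotient stp

lemma base_mem : ((Complex.I, 0, 0, 0) : V4) ∈ U := by
  show 0 < (Complex.I).im
  simp

/-- the covering projection, extended by a constant off `U` -/
noncomputable def pr (v : V4) : XX :=
  open Classical in
  if h : v ∈ U then Quotient.mk stp ⟨v, h⟩ else Quotient.mk stp ⟨_, base_mem⟩

lemma pr_of_mem {v : V4} (h : v ∈ U) : pr v = Quotient.mk stp ⟨v, h⟩ := by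
  unfold pr; rw [dif_pos h]

lemma pr_eq_iff {p q : V4} (hp : p ∈ U) (hq : q ∈ U) : pr p = pr q ↔ rel p q := by
  rw [pr_of_mem hp, pr_of_mem hq]
  exact Quotient.eq (r := stp)

lemma pr_surj (x : XX) : ∃ p ∈ U, pr p = x := by
  induction x using Quotient.inductionOn with
  | h p => exact ⟨p, p.2, pr_of_mem p.2⟩

lemma pr_continuousOn : ContinuousOn pr U := by
  rw [continuousOn_iff_continuous_domRestrict]
  have : U.domRestrict pr = Quotient.mk stp := by
    funext p
    exact pr_of_mem p.2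
  rw [this]
  exact continuous_quotient_mk'

lemma pr_open {O : Set V4} (hO : IsOpen O) (hOU : O ⊆ U) : IsOpen (pr '' O) := by
  have h1 : IsQuotientMap (Quotient.mk stp) := isQuotientMap_quotient_mk'
  have key : IsOpen ((Quotient.mk stp) ⁻¹' (pr '' O)) := by
    have e : (Quotient.mk stp) ⁻¹' (pr '' O) =
        ⋃ n : ℤ, ⋃ l ∈ Lt, {q : U | (D ^ n) (q : V4) + l ∈ O} := by
      ext q
      simp only [mem_preimage, mem_image, mem_iUnion, mem_ofPred_eq, exists_prop]
      constructor
      · rintro ⟨p, hp, hpq⟩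
        rw [← pr_of_mem q.2, pr_eq_iff (hOU hp) q.2] at hpq
        obtain ⟨n, l, hl, hn⟩ := rel_symm hpq
        exact ⟨n, l, hl, by rw [← hn]; exact hp⟩
      · rintro ⟨n, l, hl, hmem⟩
        refine ⟨_, hmem, ?_⟩
        rw [← pr_of_mem q.2, pr_eq_iff (hOU hmem) q.2]
        exact rel_symm ⟨n, l, hl, rfl⟩
    rw [e]
    refine isOpen_iUnion fun n => isOpen_iUnion fun l => isOpen_iUnion fun _ => ?_
    have hc : Continuous fun q : U => (D ^ n) (q : V4) + l :=
      ((D ^ n).continuous.comp continuous_subtype_val).add continuous_const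
    exact hO.preimage hc
  exact (h1.isOpen_preimage).mp key

/-- radius of injectivity -/
noncomputable def ep (p : V4) : ℝ := min (rr / 2) ((al - 1) * p.1.im / (al + 1))

lemma ep_pos {p : V4} (hp : p ∈ U) : 0 < ep p := by
  have hp' : 0 < p.1.im := hp
  have h1 := al_gt
  have h2 := rr_pos
  unfold ep
  refine lt_min (by positivity) (div_pos (mul_pos (by linarith) hp') (by linarith))

lemma im_near {p q : V4} {r : ℝ} (h : q ∈ Metric.ball p r) : |q.1.im - p.1.im| < r := by
  rw [Metric.mem_ball, dist_eq_norm] at h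
  calc |q.1.im - p.1.im| = |(q - p).1.im| := by simp
    _ ≤ ‖(q - p).1‖ := Complex.abs_im_le_norm _
    _ ≤ ‖q - p‖ := norm_fst_le _
    _ < r := h

lemma ball_sub_U {p : V4} (hp : p ∈ U) : Metric.ball p (ep p) ⊆ U := by
  intro q hq
  have hp' : 0 < p.1.im := hp
  have h1 := im_near hq
  have h2 : ep p ≤ (al - 1) * p.1.im / (al + 1) := min_le_right _ _
  have h3 := al_gt
  have h4 : (al - 1) * p.1.im / (al + 1) ≤ p.1.im := by
    rw [div_le_iff₀ (by linarith)]; nlinarith
  show 0 < q.1.im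
  have := (abs_lt.mp h1).1
  linarith

lemma injOn_ball {p : V4} (hp : p ∈ U) : InjOn pr (Metric.ball p (ep p)) := by
  intro q hq q' hq' h
  rw [pr_eq_iff (ball_sub_U hp hq) (ball_sub_U hp hq')] at h
  obtain ⟨n, l, hl, hn⟩ := h
  have hp' : 0 < p.1.im := hp
  have h3 := al_gt
  have h5 := al_pos
  have h2 : ep p ≤ (al - 1) * p.1.im / (al + 1) := min_le_right _ _
  have h2' : (al + 1) * ep p ≤ (al - 1) * p.1.im := by
    rw [le_div_iff₀ (by linarith)] at h2; linarith
  have i1 := abs_lt.mp (im_near hq)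
  have i2 := abs_lt.mp (im_near hq')
  have him : q'.1.im = al ^ n * q.1.im := by
    rw [hn, add_im hl, Dz_im]
  have hqpos : 0 < q.1.im := ball_sub_U hp hq
  have hqpos' : 0 < q'.1.im := ball_sub_U hp hq'
  have hn0 : n = 0 := by
    rcases lt_trichotomy n 0 with h0 | h0 | h0
    · exfalso
      have h6 : al ^ n ≤ al ^ (-1 : ℤ) := zpow_le_zpow_right₀ h3.le (by omega)
      rw [zpow_neg_one] at h6
      have h7 : q'.1.im ≤ al⁻¹ * q.1.im := by
        rw [him]; exact mul_le_mul_of_nonneg_right h6 hqpos.le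
      have h8 : al * q'.1.im ≤ q.1.im := by
        calc al * q'.1.im ≤ al * (al⁻¹ * q.1.im) := by gcongr
          _ = q.1.im := by field_simp
      nlinarith
    · exact h0
    · exfalso
      have h6 : al ^ (1 : ℤ) ≤ al ^ n := zpow_le_zpow_right₀ h3.le (by omega)
      rw [zpow_one] at h6
      have h7 : al * q.1.im ≤ q'.1.im := by
        rw [him]; exact mul_le_mul_of_nonneg_right h6 hqpos.le
      nlinarith
  subst hn0
  have hl0 : l = 0 := by
    apply Lt_discrete hl
    have e : l = q' - q := by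
      rw [hn, zpow_zero]
      show l = q + l - q
      abel
    rw [e, ← dist_eq_norm]
    have := min_le_left (rr / 2) ((al - 1) * p.1.im / (al + 1))
    calc dist q' q ≤ dist q' p + dist p q := dist_triangle _ _ _
      _ < ep p + ep p := by
          have a1 := Metric.mem_ball.mp hq'
          have a2 := Metric.mem_ball'.mp hq
          linarith
      _ ≤ rr := by unfold ep; linarith
  rw [hn, hl0, zpow_zero, add_zero]
  rfl

lemma continuous_mk_stp : Continuous (Quotient.mk stp : U → XX) := continuous_quotient_mk'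

lemma isOpenQuotientMap_mk : IsOpenQuotientMap (Quotient.mk stp : U → XX) := by
  refine ⟨Quotient.mk_surjective, continuous_mk_stp, ?_⟩
  intro O hO
  have h1 : IsOpen ((↑) '' O : Set V4) := U_open.isOpenMap_subtype_val O hO
  have h2 := pr_open h1 (by rintro _ ⟨p, _, rfl⟩; exact p.2)
  convert h2 using 1
  ext x
  constructor
  · rintro ⟨p, hp, rfl⟩
    exact ⟨p, ⟨p, hp, rfl⟩, pr_of_mem p.2⟩
  · rintro ⟨_, ⟨p, hp, rfl⟩, rfl⟩
    exact ⟨p, hp, (pr_of_mem p.2).symm⟩

instance : T2Space XX := by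
  rw [t2Space_iff_of_isOpenQuotientMap isOpenQuotientMap_mk]
  apply IsSeqClosed.isClosed
  intro s a hs ha
  have hs' : ∀ k, rel ((s k).1 : V4) ((s k).2 : V4) := fun k => Quotient.exact (hs k)
  show Quotient.mk stp a.1 = Quotient.mk stp a.2
  apply Quotient.sound
  show rel a.1 a.2
  choose n l hl hn using hs'
  have ha1 : Tendsto (fun k => ((s k).1 : V4)) atTop (𝓝 a.1) :=
    (continuous_subtype_val.tendsto _).comp ((continuous_fst.tendsto _).comp ha)
  have ha2 : Tendsto (fun k => ((s k).2 : V4)) atTop (𝓝 a.2) :=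
    (continuous_subtype_val.tendsto _).comp ((continuous_snd.tendsto _).comp ha)
  have him : Continuous fun p : V4 => p.1.im := Complex.continuous_im.comp continuous_fst
  have hi1 : Tendsto (fun k => ((s k).1 : V4).1.im) atTop (𝓝 (a.1 : V4).1.im) :=
    (him.tendsto _).comp ha1
  have hi2 : Tendsto (fun k => ((s k).2 : V4).1.im) atTop (𝓝 (a.2 : V4).1.im) :=
    (him.tendsto _).comp ha2
  have p1 : 0 < (a.1 : V4).1.im := a.1.2
  have p2 : 0 < (a.2 : V4).1.im := a.2.2
  have hratio : ∀ k, ((s k).2 : V4).1.im = al ^ (n k) * ((s k).1 : V4).1.im := by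
    intro k
    rw [hn k, add_im (hl k), Dz_im]
  have hlog : ∀ k, (n k : ℝ) = (Real.log ((s k).2 : V4).1.im - Real.log ((s k).1 : V4).1.im) / Real.log al := by
    intro k
    have q1 : 0 < ((s k).1 : V4).1.im := (s k).1.2
    rw [hratio k, Real.log_mul (zpow_pos al_pos _).ne' q1.ne', Real.log_zpow]
    have : Real.log al ≠ 0 := (Real.log_pos al_gt).ne'
    field_simp
    ring
  have hlim : Tendsto (fun k => (n k : ℝ)) atTop
      (𝓝 ((Real.log (a.2 : V4).1.im - Real.log (a.1 : V4).1.im) / Real.log al)) := by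
    simp_rw [hlog]
    exact ((hi2.log p2.ne').sub (hi1.log p1.ne')).div_const _
  obtain ⟨N, hN⟩ := Metric.cauchySeq_iff.mp hlim.cauchySeq 1 one_pos
  have hnN : ∀ k, N ≤ k → n k = n N := by
    intro k hk
    have := hN k hk N le_rfl
    rw [Real.dist_eq] at this
    have h2 : |n k - n N| < 1 := by exact_mod_cast this
    have := Int.abs_lt_one_iff.mp h2
    omega
  have hlk : Tendsto l atTop (𝓝 ((a.2 : V4) - (D ^ (n N)) (a.1 : V4))) := by
    have h1 : Tendsto (fun k => ((s k).2 : V4) - (D ^ (n N)) ((s k).1 : V4)) atTop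
        (𝓝 ((a.2 : V4) - (D ^ (n N)) (a.1 : V4))) :=
      ha2.sub (((D ^ (n N)).continuous.tendsto _).comp ha1)
    refine h1.congr' ?_
    filter_upwards [eventually_ge_atTop N] with k hk
    rw [hn k, hnN k hk]
    simp
  obtain ⟨M, hM⟩ := Metric.cauchySeq_iff.mp hlk.cauchySeq rr rr_pos
  have hlM : ∀ k, M ≤ k → l k = l M := by
    intro k hk
    have := hM k hk M le_rfl
    rw [dist_eq_norm] at this
    exact sub_eq_zero.mp (Lt_discrete (Lt.sub_mem (hl k) (hl M)) this)
  have hlim2 : Tendsto l atTop (𝓝 (l M)) := by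
    refine tendsto_const_nhds.congr' ?_
    filter_upwards [eventually_ge_atTop M] with k hk using (hlM k hk).symm
  have heq := tendsto_nhds_unique hlk hlim2
  exact ⟨n N, l M, hl M, by rw [← heq]; simp⟩

/-- a compact set meeting all orbits -/
def CC : Set V4 := {p | |p.1.re| ≤ 8 ∧ (1 ≤ p.1.im ∧ p.1.im ≤ al) ∧ ‖p.2‖ ≤ 8}

lemma CC_compact : IsCompact CC := by
  apply Metric.isCompact_of_isClosed_isBounded
  · have c1 : Continuous fun p : V4 => |p.1.re| := (Complex.continuous_re.comp continuous_fst).abs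
    have c2 : Continuous fun p : V4 => p.1.im := Complex.continuous_im.comp continuous_fst
    have c3 : Continuous fun p : V4 => ‖p.2‖ := continuous_snd.norm
    exact (isClosed_le c1 continuous_const).inter
      (((isClosed_le continuous_const c2).inter (isClosed_le c2 continuous_const)).inter
        (isClosed_le c3 continuous_const))
  · rw [isBounded_iff_forall_norm_le]
    refine ⟨10, ?_⟩
    rintro p ⟨h1, ⟨h2, h3⟩, h4⟩
    rw [Prod.norm_def]
    apply max_le _ (by linarith)
    calc ‖p.1‖ ≤ |p.1.re| + |p.1.im| := Complex.norm_le_abs_re_add_abs_im _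
      _ ≤ 8 + 2 := by
          gcongr
          rw [abs_of_nonneg (by linarith)]
          linarith [al_lt]
      _ = 10 := by norm_num

lemma CC_sub : CC ⊆ U := by
  rintro p ⟨h1, ⟨h2, h3⟩, h4⟩
  show 0 < p.1.im
  linarith

lemma exists_rel_CC {p : V4} (hp : p ∈ U) : ∃ q ∈ CC, rel p q := by
  have hp' : 0 < p.1.im := hp
  obtain ⟨n, hn1, hn2⟩ := exists_mem_Ico_zpow hp' al_gt
  obtain ⟨l, hl, h1, h2, h3⟩ := exists_reduce ((D ^ (-n)) p)
  refine ⟨(D ^ (-n)) p + l, ⟨h1, ?_, h3⟩, ⟨-n, l, hl, rfl⟩⟩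
  rw [h2, Dz_im, zpow_neg]
  have hpos : 0 < al ^ n := zpow_pos al_pos n
  constructor
  · rw [le_inv_mul_iff₀ hpos]; linarith
  · rw [inv_mul_le_iff₀ hpos]
    rw [zpow_add_one₀ al_ne] at hn2
    exact hn2.le

lemma pr_CC : pr '' CC = univ := by
  rw [eq_univ_iff_forall]
  intro x
  obtain ⟨p, hp, rfl⟩ := pr_surj x
  obtain ⟨q, hq, hpq⟩ := exists_rel_CC hp
  exact ⟨q, hq, (pr_eq_iff (CC_sub hq) hp).mpr (rel_symm hpq)⟩

instance : CompactSpace XX := by
  constructor
  rw [← pr_CC]
  exact CC_compact.image_of_continuousOn (pr_continuousOn.mono CC_sub)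

lemma U_convex : Convex ℝ U := by
  have : U = (fun p : V4 => p.1.im) ⁻¹' (Ioi 0) := rfl
  rw [this]
  have hl : IsLinearMap ℝ (fun p : V4 => p.1.im) := by
    constructor
    · intro p q; simp
    · intro c p; simp
  exact (convex_Ioi 0).is_linear_preimage hl

instance : ConnectedSpace XX := by
  have h1 : IsConnected U := ⟨⟨_, base_mem⟩, U_convex.isPreconnected⟩
  have h2 : IsConnected (pr '' U) := h1.image pr pr_continuousOn
  have h3 : pr '' U = univ := by
    rw [eq_univ_iff_forall]
    intro x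
    obtain ⟨p, hp, rfl⟩ := pr_surj x
    exact ⟨p, hp, rfl⟩
  rw [h3] at h2
  exact connectedSpace_iff_univ.mpr h2

end Pool.Agent.H59.Lam
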