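import Mathlib

set_option autoImplicit false

open Set Topology Filter
open scoped Manifold ContDiff

namespace Pool.Agent.H59.Lam

section Forms

variable (V : Type) [NormedAddCommGroup V] [NormedSpace ℂ V]
  (X : Type) [TopologicalSpace X] [ChartedSpace V X]

/-- Smooth real differential `k`-forms on the complex manifold `X` modelled on `V`: a real `k`-form
`form e` on the open set `e.target` for each chart `e` of the atlas, which is `C^∞` there, and such
that `form e` is the pullback of `form e'` by the transition map from `e` to `e'`. -/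
structure SmoothForm (k : ℕ) where
  /-- the expression of the form in the chart `e` -/
  form (e : OpenPartialHomeomorph X V) (y : V) : V [⋀^Fin k]→L[ℝ] ℝ
  smooth : ∀ e ∈ atlas V X, ContDiffOn ℝ ∞ (form e) e.target
  compat : ∀ e ∈ atlas V X, ∀ e' ∈ atlas V X, ∀ y ∈ (e.symm.trans e').source,
    form e y = (form e' (e' (e.symm y))).compContinuousLinearMap
      (fderiv ℝ (fun v => e' (e.symm v)) y)

variable {V X}

/-- The real linear map `v ↦ i v`. -/
noncomputable def mulI : V →L[ℝ] V := Complex.I • ContinuousLinearMap.id ℝ V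

/-- `d^c f = (i/2π)(∂̄ - ∂) f`, i.e. `(d^c f)(v) = -(1/2π) df(iv)`, for a real function `f` on `V`. -/
noncomputable def dc (f : V → ℝ) (y : V) : V [⋀^Fin 1]→L[ℝ] ℝ :=
  ContinuousAlternatingMap.ofSubsingleton ℝ V ℝ (0 : Fin 1)
    ((-(2 * Real.pi)⁻¹) • (fderiv ℝ f y).comp mulI)

/-- `T` is a real linear functional on the smooth real 2-forms. -/
def IsLin (T : SmoothForm V X 2 → ℝ) : Prop :=
  ∀ (a b : ℝ) (η θ ψ : SmoothForm V X 2),
    (∀ e ∈ atlas V X, ∀ y ∈ e.target, ψ.form e y = a • η.form e y + b • θ.form e y) →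
      T ψ = a * T η + b * T θ

/-- `T` is positive: it is nonnegative on every 2-form `η` with `η(v, iv) ≥ 0` for all `v`. -/
def Positive (T : SmoothForm V X 2 → ℝ) : Prop :=
  ∀ η : SmoothForm V X 2,
    (∀ e ∈ atlas V X, ∀ y ∈ e.target, ∀ v : V, 0 ≤ η.form e y ![v, Complex.I • v]) → 0 ≤ T η

/-- `T` is `dd^c`-closed: `T (dd^c f) = 0` for every smooth real function `f` on `X`. -/
def DdcClosed (T : SmoothForm V X 2 → ℝ) : Prop :=
  ∀ f : X → ℝ, (∀ e ∈ atlas V X, ContDiffOn ℝ ∞ (fun v => f (e.symm v)) e.target) →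
    ∀ η : SmoothForm V X 2,
      (∀ e ∈ atlas V X, ∀ y ∈ e.target, η.form e y = extDeriv (dc fun v => f (e.symm v)) y) →
        T η = 0

/-- `T` is closed: `T (dθ) = 0` for every smooth real 1-form `θ` on `X`. -/
def DClosed (T : SmoothForm V X 2 → ℝ) : Prop :=
  ∀ (θ : SmoothForm V X 1) (η : SmoothForm V X 2),
    (∀ e ∈ atlas V X, ∀ y ∈ e.target, η.form e y = extDeriv (θ.form e) y) → T η = 0

end Forms

section Laminations

variable (V : Type) [NormedAddCommGroup V] [NormedSpace ℂ V]
  (X : Type) [TopologicalSpace X] [ChartedSpace V X]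

/-- `g` is a holomorphic immersion of the open unit disc in `X`: it is continuous there and, read
in each chart `e` of the atlas, it is complex differentiable with a nonzero derivative. -/
def IsHolDisc {X : Type} [TopologicalSpace X] [ChartedSpace V X] (g : ℂ → X) : Prop :=
  ContinuousOn g (Metric.ball 0 1) ∧
    ∀ e ∈ atlas V X, ∀ ζ ∈ Metric.ball (0 : ℂ) 1, g ζ ∈ e.source →
      DifferentiableAt ℂ (fun ξ => e (g ξ)) ζ ∧ deriv (fun ξ => e (g ξ)) ζ ≠ 0

/-- A flow box of the set `L ⊆ X`: a homeomorphism `(ζ, t) ↦ map ζ t` of `𝔻 × T` (`𝔻` the open unit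
disc) onto a relatively open subset of `L`, such that every plaque `ζ ↦ map ζ t` is a holomorphic
immersion of `𝔻` in `X`. -/
structure FlowBox (L : Set X) where
  /-- the transversal -/
  T : Type
  [top : TopologicalSpace T]
  /-- the parametrisation -/
  map : ℂ → T → X
  emb : IsEmbedding (fun p : Metric.ball (0 : ℂ) 1 × T => map p.1 p.2)
  open_range : ∃ O : Set X, IsOpen O ∧
    range (fun p : Metric.ball (0 : ℂ) 1 × T => map p.1 p.2) = L ∩ O
  holo : ∀ t, IsHolDisc V fun ζ => map ζ t

/-- A holomorphic lamination by Riemann surfaces in `X`: a compact nonempty set covered by flow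
boxes, in which the plaques glue: if a plaque of one box meets a plaque of another at a point, the
first plaque is contained in the second near that point. -/
structure Lamination where
  /-- the underlying compact set -/
  carrier : Set X
  isCompact : IsCompact carrier
  nonempty : carrier.Nonempty
  /-- the atlas of flow boxes -/
  boxes : Set (FlowBox V X carrier)
  cover : ∀ x ∈ carrier, ∃ Φ ∈ boxes, ∃ ζ ∈ Metric.ball (0 : ℂ) 1, ∃ t, Φ.map ζ t = x
  glue : ∀ Φ ∈ boxes, ∀ Ψ ∈ boxes, ∀ ζ ∈ Metric.ball (0 : ℂ) 1, ∀ t,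
    ∀ ζ' ∈ Metric.ball (0 : ℂ) 1, ∀ t', Φ.map ζ t = Ψ.map ζ' t' →
      ∀ᶠ ξ in 𝓝 ζ, ∃ ξ' ∈ Metric.ball (0 : ℂ) 1, Φ.map ξ t = Ψ.map ξ' t'

variable {V X}

namespace Lamination

variable (L : Lamination V X)

/-- `x` and `y` lie in a common plaque. -/
def SamePlaque (x y : X) : Prop :=
  ∃ Φ ∈ L.boxes, ∃ t, ∃ ζ ∈ Metric.ball (0 : ℂ) 1, ∃ ζ' ∈ Metric.ball (0 : ℂ) 1,
    Φ.map ζ t = x ∧ Φ.map ζ' t = y

/-- The leaf of `x`: the points that can be joined to `x` by a finite chain of plaques. -/
def leaf (x : X) : Set X := {y | Relation.ReflTransGen L.SamePlaque x y}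

/-- The lamination is minimal: every leaf is dense. -/
def IsMinimal : Prop := ∀ x ∈ L.carrier, L.carrier ⊆ closure (L.leaf x)

/-- In the chart `e`, the vector `v` is tangent at `y` to the leaf through `e.symm y ∈ L`. -/
def IsTangent (e : OpenPartialHomeomorph X V) (y v : V) : Prop :=
  ∃ Φ ∈ L.boxes, ∃ t, ∃ ζ ∈ Metric.ball (0 : ℂ) 1, Φ.map ζ t = e.symm y ∧
    ∃ c : ℂ, v = c • deriv (fun ξ => e (Φ.map ξ t)) ζ

/-- The positive current `T` is directed by `L`, i.e. supported on `L` and tangent to its leaves: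
`T η ≥ 0` for every 2-form `η` which is nonnegative along the leaves of `L`, that is,
`η(v, iv) ≥ 0` for every `v` tangent to a leaf (so `T η` only depends on the restriction of `η` to
the leaves: if it vanishes, then `T η = 0`). -/
def Directed (T : SmoothForm V X 2 → ℝ) : Prop :=
  ∀ η : SmoothForm V X 2,
    (∀ e ∈ atlas V X, ∀ y ∈ e.target, ∀ v : V, L.IsTangent e y v →
      0 ≤ η.form e y ![v, Complex.I • v]) → 0 ≤ T η

/-- `T` belongs to the convex cone of positive `dd^c`-closed currents directed by `L`. -/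
def Harmonic (T : SmoothForm V X 2 → ℝ) : Prop :=
  IsLin T ∧ Positive T ∧ L.Directed T ∧ DdcClosed T

/-- `T` spans an extremal ray of the cone of positive `dd^c`-closed currents directed by `L`. -/
def Extremal (T : SmoothForm V X 2 → ℝ) : Prop :=
  T ≠ 0 ∧ L.Harmonic T ∧
    ∀ T₁ T₂ : SmoothForm V X 2 → ℝ, L.Harmonic T₁ → L.Harmonic T₂ → T = T₁ + T₂ →
      ∃ c : ℝ, T₁ = c • T

/-- There is an uncountable set of pairwise non-proportional extremal positive `dd^c`-closed
currents directed by `L`, none of which is closed. -/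
def HasUncountablyMany : Prop :=
  ∃ S : Set (SmoothForm V X 2 → ℝ), ¬ S.Countable ∧ (∀ T ∈ S, L.Extremal T ∧ ¬ DClosed T) ∧
    S.Pairwise fun T T' => ∀ c : ℝ, T' ≠ c • T

end Lamination

end Laminations

end Pool.Agent.H59.Lam
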