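import Mathlib
set_option autoImplicit false
open Set Topology Filter MeasureTheory
namespace Pool.Agent.H59.Lam

/-- bilateral sequences of bits -/
abbrev Seq := ℤ → Bool

/-- the shift -/
def sh (x : Seq) : Seq := fun n => x (n + 1)

namespace Toe

noncomputable local instance : MeasurableSpace ℤ_[2] := borel _
local instance : BorelSpace ℤ_[2] := ⟨rfl⟩

/-- the levels -/
def kk : ℕ → ℕ
  | 0 => 0
  | i + 1 => 2 * (3 * 2 ^ kk i) + 2 * i + 4

/-- block length -/
def L (i : ℕ) : ℕ := 3 * 2 ^ kk i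

theorem kk_succ (i : ℕ) : kk (i + 1) = 2 * L i + 2 * i + 4 := rfl

theorem L_pos (i : ℕ) : 0 < L i := by unfold L; positivity

theorem kk_lt_succ (i : ℕ) : kk i < kk (i + 1) := by
  rw [kk_succ]
  have : kk i < 2 ^ kk i := Nat.lt_two_pow_self
  unfold L
  omega

theorem kk_strictMono : StrictMono kk := strictMono_nat_of_lt_succ kk_lt_succ

theorem le_kk (i : ℕ) : i ≤ kk i := kk_strictMono.le_apply

/-- number of residues filled at stage `i` -/
def W (i : ℕ) : ℕ := L i * 2 ^ L i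

theorem W_mul (i : ℕ) : W i * 4 ^ (i + 2) ≤ 2 ^ kk (i + 1) := by
  have h : L i < 2 ^ L i := Nat.lt_two_pow_self
  have e : 2 ^ kk (i + 1) = 2 ^ L i * 2 ^ L i * 4 ^ (i + 2) := by
    rw [kk_succ, show (4:ℕ) = 2 ^ 2 by norm_num, ← pow_mul, ← pow_add, ← pow_add]
    congr 1
    ring
  rw [e]
  exact Nat.mul_le_mul_right _ (Nat.mul_le_mul_right _ h.le)

theorem W_le (i : ℕ) : W i ≤ 2 ^ kk (i + 1) :=
  (Nat.le_mul_of_pos_right _ (by positivity)).trans (W_mul i)

/-- residue mod `2 ^ n` -/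
noncomputable def res (n : ℕ) (h : ℤ_[2]) : ℕ := (PadicInt.toZModPow n h).val

theorem res_lt (n : ℕ) (h : ℤ_[2]) : res n h < 2 ^ n := by
  have : NeZero (2 ^ n) := ⟨by positivity⟩
  exact ZMod.val_lt _

def fill (i : ℕ) (h : ℤ_[2]) : Prop := res (kk (i + 1)) h < W i

noncomputable def vl (i : ℕ) (h : ℤ_[2]) : Bool :=
  Nat.testBit (res (kk (i + 1)) h / L i) (res (kk (i + 1)) h % L i)

def U : Set ℤ_[2] := {h | ∃ i, fill i h}

open Classical in
noncomputable def th (h : ℤ_[2]) : Bool :=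
  if hh : ∃ i, fill i h then vl (Nat.find hh) h else false

theorem th_eq {h : ℤ_[2]} {i : ℕ} (hi : fill i h) (hlt : ∀ j < i, ¬ fill j h) : th h = vl i h := by
  classical
  have hh : ∃ i, fill i h := ⟨i, hi⟩
  have : Nat.find hh = i := (Nat.find_eq_iff hh).mpr ⟨hi, hlt⟩
  unfold th
  rw [dif_pos hh]
  congr 1

/-- congruence determines residues at lower levels -/
theorem res_congr {m n : ℕ} (hmn : m ≤ n) {g h : ℤ_[2]}
    (hgh : PadicInt.toZModPow n g = PadicInt.toZModPow n h) : res m g = res m h := by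
  unfold res
  rw [← PadicInt.cast_toZModPow m n hmn g, ← PadicInt.cast_toZModPow m n hmn h, hgh]

theorem isOpen_congr (n : ℕ) (c : ZMod (2 ^ n)) :
    IsOpen {h : ℤ_[2] | PadicInt.toZModPow n h = c} := by
  rw [Metric.isOpen_iff]
  intro h hh
  refine ⟨(2:ℝ) ^ (-(n:ℤ)), by positivity, fun g hg => ?_⟩
  rw [Metric.mem_ball, dist_eq_norm] at hg
  have h1 : g - h ∈ Ideal.span {(2 : ℤ_[2]) ^ n} := by
    have := (PadicInt.norm_le_pow_iff_mem_span_pow (p := 2) (g - h) n).mp (by exact_mod_cast hg.le)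
    exact_mod_cast this
  have h2 : g - h ∈ RingHom.ker (PadicInt.toZModPow n : ℤ_[2] →+* ZMod (2 ^ n)) := by
    rw [PadicInt.ker_toZModPow]; exact_mod_cast h1
  rw [RingHom.mem_ker, map_sub, sub_eq_zero] at h2
  simp only [mem_ofPred_eq] at hh ⊢
  rw [h2, hh]

theorem isOpen_res (n : ℕ) (P : ℕ → Prop) : IsOpen {h : ℤ_[2] | P (res n h)} := by
  have : {h : ℤ_[2] | P (res n h)} =
      ⋃ c : {c : ZMod (2 ^ n) // P c.val}, {h : ℤ_[2] | PadicInt.toZModPow n h = c.1} := by
    ext h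
    simp only [mem_ofPred_eq, mem_iUnion]
    constructor
    · intro hP
      exact ⟨⟨_, hP⟩, rfl⟩
    · rintro ⟨⟨c, hc⟩, hh⟩
      simp only at hh
      unfold res
      rw [hh]; exact hc
  rw [this]
  exact isOpen_iUnion fun c => isOpen_congr n _

theorem isOpen_U : IsOpen U := by
  have : U = ⋃ i, {h | res (kk (i + 1)) h < W i} := by
    ext h; simp [U, fill]
  rw [this]
  exact isOpen_iUnion fun i => isOpen_res _ (fun r => r < W i)

/-- the open sets on which the value differs from `v` -/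
theorem isOpen_bad (v : Bool) : IsOpen {h : ℤ_[2] | h ∈ U ∧ th h ≠ v} := by
  rw [isOpen_iff_mem_nhds]
  rintro h ⟨hU, hv⟩
  classical
  obtain ⟨i, hi, hlt⟩ : ∃ i, fill i h ∧ ∀ j < i, ¬ fill j h := by
    have hh : ∃ i, fill i h := hU
    exact ⟨Nat.find hh, Nat.find_spec hh, fun j hj => Nat.find_min hh hj⟩
  have hopen := isOpen_congr (kk (i + 1)) (PadicInt.toZModPow (kk (i + 1)) h)
  refine mem_of_superset (hopen.mem_nhds rfl) ?_
  intro g hg
  simp only [mem_ofPred_eq] at hg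
  have hfill : ∀ j ≤ i, (fill j g ↔ fill j h) := by
    intro j hj
    unfold fill
    rw [res_congr (kk_strictMono.monotone (Nat.succ_le_succ hj)) hg]
  have hig : fill i g := (hfill i le_rfl).mpr hi
  have hltg : ∀ j < i, ¬ fill j g := fun j hj => fun hf => hlt j hj ((hfill j hj.le).mp hf)
  refine ⟨⟨i, hig⟩, ?_⟩
  rw [th_eq hi hlt] at hv
  rw [th_eq hig hltg]
  unfold vl at hv ⊢
  rw [res_congr le_rfl hg]
  exact hv

/-- the subshift -/
def Y : Set Seq := {x | ∃ g : ℤ_[2], ∀ n : ℤ, g + n ∈ U → x n = th (g + n)}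

theorem isClosed_Y : IsClosed Y := by
  have hC : IsClosed {q : ℤ_[2] × Seq | ∀ n : ℤ, q.1 + n ∈ U → q.2 n = th (q.1 + n)} := by
    have : {q : ℤ_[2] × Seq | ∀ n : ℤ, q.1 + n ∈ U → q.2 n = th (q.1 + n)} =
        ⋂ n : ℤ, ⋂ v : Bool, ({q : ℤ_[2] × Seq | q.2 n ≠ v} ∪
          {q : ℤ_[2] × Seq | ¬ (q.1 + n ∈ U ∧ th (q.1 + n) ≠ v)}) := by
      ext q
      simp only [mem_ofPred_eq, mem_iInter, mem_union]
      constructor
      · intro h n v
        by_cases hv : q.2 n = v
        · right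
          rintro ⟨h1, h2⟩
          exact h2 ((h n h1).symm.trans hv)
        · left; exact hv
      · intro h n hU
        rcases h n (q.2 n) with h1 | h1
        · exact absurd rfl h1
        · by_contra h2
          exact h1 ⟨hU, fun h3 => h2 h3.symm⟩
    rw [this]
    refine isClosed_iInter fun n => isClosed_iInter fun v => IsClosed.union ?_ ?_
    · have hcont : Continuous fun q : ℤ_[2] × Seq => q.2 n :=
        (continuous_apply n).comp continuous_snd
      exact (isClosed_discrete {b : Bool | b ≠ v}).preimage hcont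
    · have hcont : Continuous fun q : ℤ_[2] × Seq => q.1 + (n : ℤ_[2]) := by fun_prop
      exact ((isOpen_bad v).preimage hcont).isClosed_compl
  have : Y = Prod.snd '' {q : ℤ_[2] × Seq | ∀ n : ℤ, q.1 + n ∈ U → q.2 n = th (q.1 + n)} := by
    ext x
    simp only [Y, mem_ofPred_eq, mem_image, Prod.exists, exists_eq_right]
  rw [this]
  exact isClosedMap_snd_of_compactSpace _ hC

theorem Y_nonempty : Y.Nonempty := ⟨fun n => th ((0:ℤ_[2]) + n), 0, fun _ _ => rfl⟩

theorem sh_mem_Y (x : Seq) : sh x ∈ Y ↔ x ∈ Y := by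
  constructor
  · rintro ⟨g, hg⟩
    refine ⟨g - 1, fun n hn => ?_⟩
    have e : g - 1 + (n : ℤ_[2]) = g + ((n - 1 : ℤ) : ℤ_[2]) := by push_cast; ring
    rw [e] at hn ⊢
    have := hg (n - 1) hn
    simpa [sh] using this
  · rintro ⟨g, hg⟩
    refine ⟨g + 1, fun n hn => ?_⟩
    have e : g + 1 + (n : ℤ_[2]) = g + ((n + 1 : ℤ) : ℤ_[2]) := by push_cast; ring
    rw [e] at hn ⊢
    exact hg (n + 1) hn

theorem minimal (x : Seq) (hx : x ∈ Y) (y : Seq) (hy : y ∈ Y) (N : ℕ) :
    ∃ k : ℕ, ∀ n : ℤ, |n| ≤ N → x (n + k) = y n := by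
  obtain ⟨g, hg⟩ := hx
  obtain ⟨g', hg'⟩ := hy
  set i := N with hi
  have hN : N ≤ 2 ^ kk i := (le_kk N).trans Nat.lt_two_pow_self.le
  set r := res (kk i) g' with hr
  have hrlt : r < 2 ^ kk i := res_lt _ _
  -- the block
  set J : ℕ := Nat.ofBits (fun b : Fin (L i) => y ((b : ℤ) - 2 ^ kk i - r)) with hJ
  have hJlt : J < 2 ^ L i := Nat.ofBits_lt_two_pow _
  set H : ℕ := J * L i + (2 ^ kk i + r) with hH
  have hLi : L i = 3 * 2 ^ kk i := rfl
  set k : ℕ := ((H : ZMod (2 ^ kk (i + 1))) - PadicInt.toZModPow (kk (i + 1)) g).val with hk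
  have : NeZero (2 ^ kk (i + 1)) := ⟨by positivity⟩
  have hgk : PadicInt.toZModPow (kk (i + 1)) (g + (k : ℤ_[2])) = (H : ZMod (2 ^ kk (i + 1))) := by
    rw [map_add, map_natCast, hk, ZMod.natCast_val, ZMod.cast_id]
    ring
  refine ⟨k, fun n hn => ?_⟩
  have hn2 := abs_le.mp hn
  have hN' : (N : ℤ) ≤ 2 ^ kk i := by exact_mod_cast hN
  set h : ℤ_[2] := g + (k : ℤ_[2]) + (n : ℤ_[2]) with hh
  have hgn : g + ((n + k : ℤ) : ℤ_[2]) = h := by rw [hh]; push_cast; ring
  have hpow : ((2 ^ kk i : ℕ) : ℤ) = 2 ^ kk i := by push_cast; ring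
  -- the residue of `h`
  obtain ⟨m, hm⟩ : ∃ m : ℕ, (m : ℤ) = ((2 ^ kk i : ℕ) : ℤ) + r + n :=
    ⟨(((2 ^ kk i : ℕ) : ℤ) + r + n : ℤ).toNat, Int.toNat_of_nonneg (by rw [hpow]; omega)⟩
  have hmL : m < L i := by
    rw [hLi]; zify at hrlt ⊢; rw [hpow] at hm; omega
  have hres : res (kk (i + 1)) h = J * L i + m := by
    have e1 : PadicInt.toZModPow (kk (i + 1)) h = ((J * L i + m : ℕ) : ZMod (2 ^ kk (i + 1))) := by
      rw [hh, map_add, hgk, map_intCast]
      have : (n : ZMod (2 ^ kk (i + 1))) = ((n : ℤ) : ZMod (2 ^ kk (i + 1))) := rfl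
      have e2 : ((J * L i + m : ℕ) : ZMod (2 ^ kk (i + 1))) =
          (((H : ℤ) + n : ℤ) : ZMod (2 ^ kk (i + 1))) := by
        have : ((J * L i + m : ℕ) : ℤ) = (H : ℤ) + n := by
          rw [hH]; push_cast; rw [hm]; push_cast; ring
        rw [← this]; push_cast; ring
      rw [e2]; push_cast; ring
    unfold res
    rw [e1, ZMod.val_natCast_of_lt]
    refine lt_of_lt_of_le ?_ (W_le i)
    unfold W
    calc J * L i + m < J * L i + L i := by omega
      _ = (J + 1) * L i := by ring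
      _ ≤ 2 ^ L i * L i := Nat.mul_le_mul_right _ hJlt
      _ = L i * 2 ^ L i := by ring
  have hfilli : fill i h := by
    unfold fill W
    rw [hres]
    calc J * L i + m < J * L i + L i := by omega
      _ = (J + 1) * L i := by ring
      _ ≤ 2 ^ L i * L i := Nat.mul_le_mul_right _ hJlt
      _ = L i * 2 ^ L i := by ring
  have hvali : vl i h = y n := by
    unfold vl
    rw [hres]
    have e1 : (J * L i + m) / L i = J := by
      rw [Nat.add_comm, Nat.add_mul_div_right _ _ (L_pos i), Nat.div_eq_of_lt hmL, zero_add]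
    have e2 : (J * L i + m) % L i = m := by
      rw [Nat.add_comm, Nat.add_mul_mod_self_right, Nat.mod_eq_of_lt hmL]
    rw [e1, e2, hJ, Nat.testBit_ofBits_lt _ _ hmL]
    congr 1
    simp only
    rw [hm]; push_cast; ring
  -- lower levels agree with `g' + n`
  have hlow : PadicInt.toZModPow (kk i) h = PadicInt.toZModPow (kk i) (g' + (n : ℤ_[2])) := by
    have e1 : PadicInt.toZModPow (kk i) (g + (k : ℤ_[2])) = PadicInt.toZModPow (kk i) g' := by
      rw [← PadicInt.cast_toZModPow (kk i) (kk (i + 1)) (kk_lt_succ i).le, hgk]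
      have hdvd : 2 ^ kk i ∣ 2 ^ kk (i + 1) := pow_dvd_pow 2 (kk_lt_succ i).le
      rw [ZMod.cast_natCast hdvd, hH, hLi]
      push_cast
      have e0 : (2 : ZMod (2 ^ kk i)) ^ kk i = 0 := by
        have := ZMod.natCast_self (2 ^ kk i)
        exact_mod_cast this
      rw [e0, hr]
      unfold res
      have : NeZero (2 ^ kk i) := ⟨by positivity⟩
      rw [ZMod.natCast_val, ZMod.cast_id]
      ring
    rw [hh, map_add _ (g + (k : ℤ_[2])), e1, ← map_add]
  have hsame : ∀ j < i, (fill j h ↔ fill j (g' + (n : ℤ_[2]))) ∧ vl j h = vl j (g' + (n : ℤ_[2])) := by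
    intro j hj
    have := res_congr (kk_strictMono.monotone (Nat.succ_le_of_lt hj)) hlow
    unfold fill vl
    rw [this]
    exact ⟨Iff.rfl, rfl⟩
  have hhU : h ∈ U := ⟨i, hfilli⟩
  have hx : x (n + k) = th h := by
    rw [hg (n + k) (by rw [hgn]; exact hhU), hgn]
  rw [hx]
  classical
  have hex : ∃ i, fill i h := ⟨i, hfilli⟩
  have hjle : Nat.find hex ≤ i := Nat.find_min' hex hfilli
  have hjs := Nat.find_spec hex
  have hjm : ∀ j' < Nat.find hex, ¬ fill j' h := fun j' hj' => Nat.find_min hex hj'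
  rw [th_eq hjs hjm]
  rcases eq_or_lt_of_le hjle with heq | hlt
  · rw [heq]; exact hvali
  · have h1 := hsame _ hlt
    have h2 : fill (Nat.find hex) (g' + (n : ℤ_[2])) := h1.1.mp hjs
    have h3 : ∀ j' < Nat.find hex, ¬ fill j' (g' + (n : ℤ_[2])) :=
      fun j' hj' hf => hjm j' hj' ((hsame j' (hj'.trans hlt)).1.mpr hf)
    rw [hg' n ⟨_, h2⟩, th_eq h2 h3, h1.2]


/-! ### The measures -/

/-- Haar probability measure -/
noncomputable def lam : Measure ℤ_[2] := Measure.addHaarMeasure ⊤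

noncomputable local instance : IsFiniteMeasure lam := by unfold lam; infer_instance
local instance : lam.InnerRegular := by unfold lam; infer_instance
local instance : lam.IsAddLeftInvariant := by unfold lam; infer_instance

theorem lam_univ : lam univ = 1 := by unfold lam; exact Measure.addHaarMeasure_self

local instance : IsProbabilityMeasure lam := ⟨lam_univ⟩

theorem lam_congr (n : ℕ) (c : ZMod (2 ^ n)) :
    lam {h | PadicInt.toZModPow n h = c} = ((2 ^ n : ℕ) : ENNReal)⁻¹ := by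
  have hne : NeZero (2 ^ n) := ⟨by positivity⟩
  have key : ∀ c : ZMod (2 ^ n), lam {h | PadicInt.toZModPow n h = c} =
      lam {h | PadicInt.toZModPow n h = 0} := by
    intro c
    have h1 : {h : ℤ_[2] | PadicInt.toZModPow n h = c} =
        (fun h => -((c.val : ℕ) : ℤ_[2]) + h) ⁻¹' {h | PadicInt.toZModPow n h = 0} := by
      ext h
      have hc : PadicInt.toZModPow n (-((c.val : ℕ) : ℤ_[2]) + h) =
          -c + PadicInt.toZModPow n h := by
        rw [map_add, map_neg, map_natCast, ZMod.natCast_val, ZMod.cast_id]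
      simp only [mem_ofPred_eq, mem_preimage]
      rw [hc]
      constructor
      · rintro rfl; simp
      · intro h2; linear_combination h2
    rw [h1, measure_preimage_add]
  have hsum : lam univ = ∑ c : ZMod (2 ^ n), lam {h | PadicInt.toZModPow n h = c} := by
    have hU : (univ : Set ℤ_[2]) = ⋃ c ∈ (Finset.univ : Finset (ZMod (2 ^ n))),
        {h | PadicInt.toZModPow n h = c} := by
      ext h; simp
    rw [hU, measure_biUnion_finset]
    · intro a _ b _ hab
      refine Set.disjoint_left.mpr fun h h1 h2 => hab ?_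
      simp only [mem_ofPred_eq] at h1 h2
      rw [← h1, h2]
    · intro c _
      exact (isOpen_congr n c).measurableSet
  rw [lam_univ, Finset.sum_congr rfl fun c _ => key c, Finset.sum_const, Finset.card_univ,
    ZMod.card, nsmul_eq_mul] at hsum
  rw [key c]
  exact ENNReal.eq_inv_of_mul_eq_one_left (by rw [mul_comm]; exact hsum.symm)

theorem lam_res (n M : ℕ) : lam {h | res n h < M} ≤ M * ((2 ^ n : ℕ) : ENNReal)⁻¹ := by
  have hne : NeZero (2 ^ n) := ⟨by positivity⟩
  have hsub : {h : ℤ_[2] | res n h < M} ⊆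
      ⋃ j ∈ Finset.range M, {h | PadicInt.toZModPow n h = ((j : ℕ) : ZMod (2 ^ n))} := by
    intro h hh
    simp only [mem_iUnion, Finset.mem_range, mem_ofPred_eq, exists_prop]
    refine ⟨res n h, hh, ?_⟩
    unfold res
    rw [ZMod.natCast_val, ZMod.cast_id]
  calc lam {h | res n h < M} ≤ lam (⋃ j ∈ Finset.range M,
        {h | PadicInt.toZModPow n h = ((j : ℕ) : ZMod (2 ^ n))}) := measure_mono hsub
    _ ≤ ∑ j ∈ Finset.range M, lam {h | PadicInt.toZModPow n h = ((j : ℕ) : ZMod (2 ^ n))} :=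
        measure_biUnion_finset_le _ _
    _ = M * ((2 ^ n : ℕ) : ENNReal)⁻¹ := by
        rw [Finset.sum_congr rfl fun j _ => lam_congr n ((j : ℕ) : ZMod (2 ^ n)),
          Finset.sum_const, Finset.card_range, nsmul_eq_mul]

theorem lam_fill (i : ℕ) : lam {h | fill i h} ≤ (2⁻¹ : ENNReal) ^ (i + 2) := by
  refine (lam_res (kk (i + 1)) (W i)).trans ?_
  have h1 : W i * 2 ^ (i + 2) ≤ 2 ^ kk (i + 1) :=
    (Nat.mul_le_mul_left _ (Nat.pow_le_pow_left (by norm_num) _)).trans (W_mul i)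
  have h2 : (W i : ENNReal) * 2 ^ (i + 2) ≤ ((2 ^ kk (i + 1) : ℕ) : ENNReal) := by
    exact_mod_cast h1
  have h3 : ((2 ^ kk (i + 1) : ℕ) : ENNReal) ≠ 0 := by
    exact_mod_cast (Nat.two_pow_pos (kk (i + 1))).ne'
  have h4 : ((2 ^ kk (i + 1) : ℕ) : ENNReal) ≠ ⊤ := ENNReal.natCast_ne_top _
  have h5 : (2 : ENNReal) ^ (i + 2) ≠ 0 := pow_ne_zero _ (by norm_num)
  have h6 : (2 : ENNReal) ^ (i + 2) ≠ ⊤ := ENNReal.pow_ne_top (by norm_num)
  rw [← ENNReal.inv_pow, ← div_eq_mul_inv]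
  rw [ENNReal.div_le_iff h3 h4]
  calc (W i : ENNReal) = ((2 : ENNReal) ^ (i + 2))⁻¹ * (W i * 2 ^ (i + 2)) := by
        rw [mul_comm (W i : ENNReal), ← mul_assoc, ENNReal.inv_mul_cancel h5 h6, one_mul]
    _ ≤ ((2 : ENNReal) ^ (i + 2))⁻¹ * ((2 ^ kk (i + 1) : ℕ) : ENNReal) :=
        mul_le_mul_right h2 _

theorem lam_U : lam U ≤ 2⁻¹ := by
  have hU : U = ⋃ i, {h | fill i h} := by
    ext h
    constructor
    · rintro ⟨i, hi⟩
      exact mem_iUnion.mpr ⟨i, hi⟩
    · intro hi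
      exact mem_iUnion.mp hi
  rw [hU]
  refine (measure_iUnion_le _).trans ?_
  refine (ENNReal.tsum_le_tsum lam_fill).trans ?_
  have : ∀ i : ℕ, (2⁻¹ : ENNReal) ^ (i + 2) = (2⁻¹) ^ 2 * (2⁻¹) ^ i := fun i => by
    rw [← pow_add, add_comm]
  rw [tsum_congr this, ENNReal.tsum_mul_left, ENNReal.tsum_geometric, ENNReal.one_sub_inv_two, inv_inv, pow_two,
    mul_assoc, ENNReal.inv_mul_cancel (by simp) (by simp), mul_one]

theorem lam_D : lam Uᶜ ≠ 0 := by
  intro h
  have h1 := prob_add_prob_compl (μ := lam) isOpen_U.measurableSet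
  rw [h, add_zero] at h1
  have h2 := lam_U
  rw [h1] at h2
  exact absurd h2 (by simp)

theorem lam_singleton (h : ℤ_[2]) : lam {h} = 0 := by
  have h1 : ∀ n : ℕ, lam {h} ≤ (2⁻¹ : ENNReal) ^ n := by
    intro n
    have : ({h} : Set ℤ_[2]) ⊆ {g | PadicInt.toZModPow n g = PadicInt.toZModPow n h} := by
      rintro g rfl; rfl
    refine (measure_mono this).trans ?_
    rw [lam_congr]
    push_cast
    rw [ENNReal.inv_pow]
  have h2 : Tendsto (fun n : ℕ => (2⁻¹ : ENNReal) ^ n) atTop (𝓝 0) :=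
    ENNReal.tendsto_pow_atTop_nhds_zero_of_lt_one (by simp)
  exact le_antisymm (ge_of_tendsto' h2 h1) zero_le

/-- the set of points with symbol `true` -/
def S (E : Set ℤ_[2]) : Set ℤ_[2] := {h | h ∈ U ∧ th h ≠ false} ∪ (Uᶜ ∩ E)

theorem measurableSet_S {E : Set ℤ_[2]} (hE : MeasurableSet E) : MeasurableSet (S E) :=
  (isOpen_bad false).measurableSet.union (isOpen_U.measurableSet.compl.inter hE)

open Classical in
/-- the factor map -/
noncomputable def FF (E : Set ℤ_[2]) (h : ℤ_[2]) : Seq := fun n => decide (h + (n : ℤ_[2]) ∈ S E)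

theorem measurable_FF {E : Set ℤ_[2]} (hE : MeasurableSet E) : Measurable (FF E) := by
  classical
  rw [measurable_pi_iff]
  intro n
  have h1 : Measurable fun h : ℤ_[2] => h + (n : ℤ_[2]) := by
    exact (continuous_id.add continuous_const).measurable
  have h2 : MeasurableSet {h : ℤ_[2] | h + (n : ℤ_[2]) ∈ S E} := h1 (measurableSet_S hE)
  refine measurable_to_bool ?_
  have : (fun h : ℤ_[2] => FF E h n) ⁻¹' {true} = {h : ℤ_[2] | h + (n : ℤ_[2]) ∈ S E} := by
    ext h; simp [FF]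
  rw [this]
  exact h2

theorem FF_mem (E : Set ℤ_[2]) (h : ℤ_[2]) : FF E h ∈ Y := by
  classical
  refine ⟨h, fun n hn => ?_⟩
  unfold FF S
  by_cases hth : th (h + n) = false
  · simp [hth, hn]
  · simp [hth, hn]

theorem FF_semiconj (E : Set ℤ_[2]) : Function.Semiconj (FF E) (fun h => 1 + h) sh := by
  intro h
  funext n
  unfold FF sh
  have : 1 + h + (n : ℤ_[2]) = h + ((n + 1 : ℤ) : ℤ_[2]) := by push_cast; ring
  rw [this]

theorem ergodic_lam : Ergodic (fun h : ℤ_[2] => 1 + h) lam := by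
  apply ergodic_add_left_of_denseRange_nsmul
  have : (fun n : ℕ => n • (1 : ℤ_[2])) = (Nat.cast : ℕ → ℤ_[2]) := by
    funext n; simp
  rw [this]
  exact PadicInt.denseRange_natCast

theorem measurable_sh : Measurable sh := by
  rw [measurable_pi_iff]
  intro n
  exact measurable_pi_apply (n + 1)

theorem ergodic_map {E : Set ℤ_[2]} (hE : MeasurableSet E) : Ergodic sh (lam.map (FF E)) :=
  (measurable_FF hE).measurePreserving lam |>.ergodic_of_ergodic_semiconj ergodic_lam
    measurable_sh (FF_semiconj E)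

theorem map_Yc {E : Set ℤ_[2]} (hE : MeasurableSet E) : lam.map (FF E) Yᶜ = 0 := by
  rw [Measure.map_apply (measurable_FF hE) isClosed_Y.measurableSet.compl]
  have : FF E ⁻¹' Yᶜ = ∅ := by
    ext h; simp [FF_mem E h]
  rw [this, measure_empty]

theorem map_true {E : Set ℤ_[2]} (hE : MeasurableSet E) : lam.map (FF E) {x | x 0 = true} =
    lam {h | h ∈ U ∧ th h ≠ false} + lam (Uᶜ ∩ E) := by
  classical
  have hm : MeasurableSet {x : Seq | x 0 = true} := by
    have h1 : Measurable fun x : Seq => x 0 := measurable_pi_apply (0:ℤ)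
    exact h1 (measurableSet_singleton true)
  rw [Measure.map_apply (measurable_FF hE) hm]
  have : FF E ⁻¹' {x : Seq | x 0 = true} = S E := by
    ext h; simp [FF]
  rw [this]
  unfold S
  rw [measure_union _ (isOpen_U.measurableSet.compl.inter hE)]
  refine Set.disjoint_left.mpr ?_
  rintro h ⟨h1, _⟩ ⟨h2, _⟩
  exact h2 h1

open ProbabilityTheory in
/-- sets of prescribed relative measure in `Uᶜ` -/
theorem exists_E (s : ℝ) (hs : s ∈ Ioo (0:ℝ) 1) :
    ∃ E : Set ℤ_[2], MeasurableSet E ∧ lam (Uᶜ ∩ E) = ENNReal.ofReal s * lam Uᶜ := by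
  obtain ⟨f, hf⟩ := exists_measurableEmbedding_real ℤ_[2]
  have hD := lam_D
  have hDm : MeasurableSet Uᶜ := isOpen_U.measurableSet.compl
  have hprob : IsProbabilityMeasure (lam[|Uᶜ]) := cond_isProbabilityMeasure hD
  set ν : Measure ℝ := (lam[|Uᶜ]).map f with hν
  have hνp : IsProbabilityMeasure ν := Measure.isProbabilityMeasure_map hf.measurable.aemeasurable
  have hat : ∀ a : ℝ, ν {a} = 0 := by
    intro a
    rw [hν, Measure.map_apply hf.measurable (measurableSet_singleton a)]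
    by_cases ha : ∃ h, f h = a
    · obtain ⟨h, rfl⟩ := ha
      have : f ⁻¹' {f h} = {h} := by
        ext g; simp [hf.injective.eq_iff]
      rw [this, cond_apply hDm]
      have : lam (Uᶜ ∩ {h}) = 0 := measure_mono_null inter_subset_right (lam_singleton h)
      rw [this, mul_zero]
    · have : f ⁻¹' {a} = ∅ := by
        ext g; simp only [mem_preimage, mem_singleton_iff, mem_empty_iff_false, iff_false]
        exact fun h => ha ⟨g, h⟩
      rw [this, measure_empty]
  have hcont : Continuous (cdf ν) := by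
    rw [continuous_iff_continuousAt]
    intro a
    rw [(monotone_cdf ν).continuousAt_iff_leftLim_eq_rightLim]
    have h1 := (cdf ν).measure_singleton a
    rw [measure_cdf, hat a] at h1
    have h2 : Function.leftLim (cdf ν) a ≤ cdf ν a := (monotone_cdf ν).leftLim_le le_rfl
    have h3 : cdf ν a - Function.leftLim (cdf ν) a ≤ 0 := ENNReal.ofReal_eq_zero.mp h1.symm
    have h4 : Function.rightLim (cdf ν) a = cdf ν a := (cdf ν).rightLim_eq a
    rw [h4]; linarith
  have hex : ∃ t, cdf ν t = s := by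
    have h0 := (tendsto_cdf_atBot ν).eventually_le_const hs.1
    have h1 := (tendsto_cdf_atTop ν).eventually_const_le hs.2
    obtain ⟨a, ha⟩ := h0.exists
    obtain ⟨b, hb⟩ := h1.exists
    exact mem_range_of_exists_le_of_exists_ge hcont ⟨a, ha⟩ ⟨b, hb⟩
  obtain ⟨t, ht⟩ := hex
  refine ⟨f ⁻¹' Iic t, hf.measurable measurableSet_Iic, ?_⟩
  have h1 : ν (Iic t) = ENNReal.ofReal s := by
    rw [← ht, cdf_eq_real, Measure.real, ENNReal.ofReal_toReal (measure_ne_top _ _)]
  rw [hν, Measure.map_apply hf.measurable measurableSet_Iic, cond_apply hDm] at h1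
  rw [← h1, mul_comm, ← mul_assoc, ENNReal.mul_inv_cancel hD (measure_ne_top _ _), one_mul]

/-- A minimal subshift with uncountably many ergodic measures. -/
theorem exists_dynamics_aux : ∃ Y : Set Seq, IsClosed Y ∧ Y.Nonempty ∧ (∀ x, sh x ∈ Y ↔ x ∈ Y) ∧
    (∀ x ∈ Y, ∀ y ∈ Y, ∀ N : ℕ, ∃ k : ℕ, ∀ n : ℤ, |n| ≤ N → x (n + k) = y n) ∧
    ∃ m : Set.Ioo (0 : ℝ) 1 → Measure Seq, Function.Injective (fun t => m t {x | x 0 = true}) ∧
      ∀ t, IsProbabilityMeasure (m t) ∧ m t Yᶜ = 0 ∧ Ergodic sh (m t) := by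
  choose E hE hEm using exists_E
  refine ⟨Y, isClosed_Y, Y_nonempty, sh_mem_Y, minimal, fun t => lam.map (FF (E t.1 t.2)), ?_, ?_⟩
  · intro t t' h
    simp only at h
    rw [map_true (hE _ _), map_true (hE _ _), hEm, hEm] at h
    have h1 := (ENNReal.add_right_inj (measure_ne_top _ _)).mp h
    have h2 := (ENNReal.mul_left_inj lam_D (measure_ne_top _ _)).mp h1
    have h3 := (ENNReal.ofReal_eq_ofReal_iff t.2.1.le t'.2.1.le).mp h2
    exact Subtype.ext h3
  · intro t
    exact ⟨Measure.isProbabilityMeasure_map (measurable_FF (hE _ _)).aemeasurable,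
      map_Yc (hE _ _), ergodic_map (hE _ _)⟩

end Toe

/-- A minimal subshift with uncountably many ergodic measures. -/
theorem exists_dynamics : ∃ Y : Set Seq, IsClosed Y ∧ Y.Nonempty ∧ (∀ x, sh x ∈ Y ↔ x ∈ Y) ∧
    (∀ x ∈ Y, ∀ y ∈ Y, ∀ N : ℕ, ∃ k : ℕ, ∀ n : ℤ, |n| ≤ N → x (n + k) = y n) ∧
    ∃ m : Set.Ioo (0 : ℝ) 1 → Measure Seq, Function.Injective (fun t => m t {x | x 0 = true}) ∧
      ∀ t, IsProbabilityMeasure (m t) ∧ m t Yᶜ = 0 ∧ Ergodic sh (m t) :=
  Toe.exists_dynamics_aux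

end Pool.Agent.H59.Lam
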