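import Pool.Agent.H59.Lam.Krein
import Pool.Agent.H59.Lam.Coding

set_option autoImplicit false

open Set Topology Filter MeasureTheory
open scoped Manifold ContDiff Pointwise

namespace Pool.Agent.H59.Lam

/-- data of the coded minimal set -/
structure Cod where
  /-- the subshift -/
  Y : Set Seq
  closed : IsClosed Y
  ne : Y.Nonempty
  inv : ∀ x, sh x ∈ Y ↔ x ∈ Y
  min : ∀ x ∈ Y, ∀ y ∈ Y, ∀ N : ℕ, ∃ k : ℕ, ∀ n : ℤ, |n| ≤ N → x (n + k) = y n
  /-- the coding -/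
  F : Seq → ℝ × ℝ
  cont : Continuous F
  rel : ∀ x, F (sh x) = (4 * (F x).1 - (F x).2 + (if x 0 = true then 1 else 0), (F x).1)
  inj : ∀ x y, (∃ a b : ℤ, F x = F y + ((a : ℝ), (b : ℝ))) → x = y

namespace Cod

variable (C : Cod)

/-- the coding with values in `ℂ²` -/
noncomputable def Phi (x : Seq) : ℂ × ℂ := (((C.F x).1 : ℂ), ((C.F x).2 : ℂ))

lemma Phi_cont : Continuous C.Phi := by
  have := C.cont
  unfold Phi
  fun_prop

/-- the lattice of the torus fibre -/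
def ZZ : Set (ℂ × ℂ) := {u | ∃ l ∈ Lt, u = l.2.2}

lemma mem_ZZ (a b c d : ℤ) : (((a : ℂ) + b * Complex.I, (c : ℂ) + d * Complex.I) : ℂ × ℂ) ∈ ZZ :=
  ⟨lat ![0, 0, 0, a, b, c, d], lat_mem _, by simp [lat]⟩

lemma ZZ_eq : ZZ = {u : ℂ × ℂ | (u.1.re ∈ range ((↑) : ℤ → ℝ) ∧ u.1.im ∈ range ((↑) : ℤ → ℝ)) ∧
    (u.2.re ∈ range ((↑) : ℤ → ℝ) ∧ u.2.im ∈ range ((↑) : ℤ → ℝ))} := by
  ext u
  constructor
  · rintro ⟨_, ⟨k, rfl⟩, rfl⟩
    refine ⟨⟨⟨k 3, ?_⟩, ⟨k 4, ?_⟩⟩, ⟨⟨k 5, ?_⟩, ⟨k 6, ?_⟩⟩⟩ <;> simp [lat]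
  · rintro ⟨⟨⟨a, ha⟩, ⟨b, hb⟩⟩, ⟨⟨c, hc⟩, ⟨d, hd⟩⟩⟩
    have e : u = (((a : ℂ) + b * Complex.I, (c : ℂ) + d * Complex.I) : ℂ × ℂ) := by
      refine Prod.ext ?_ ?_
      · apply Complex.ext
        · simp [← ha]
        · simp [← hb]
      · apply Complex.ext
        · simp [← hc]
        · simp [← hd]
    rw [e]
    exact mem_ZZ a b c d

lemma ZZ_closed : IsClosed ZZ := by
  rw [ZZ_eq]
  have hZ : IsClosed (range ((↑) : ℤ → ℝ)) := Int.isClosedEmbedding_coe_real.isClosed_range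
  have c1 : Continuous fun u : ℂ × ℂ => u.1.re := by fun_prop
  have c2 : Continuous fun u : ℂ × ℂ => u.1.im := by fun_prop
  have c3 : Continuous fun u : ℂ × ℂ => u.2.re := by fun_prop
  have c4 : Continuous fun u : ℂ × ℂ => u.2.im := by fun_prop
  exact ((hZ.preimage c1).inter (hZ.preimage c2)).inter ((hZ.preimage c3).inter (hZ.preimage c4))

lemma AA_Phi (x : Seq) : ∃ l ∈ Lt, AA (C.Phi x) = C.Phi (sh x) + l.2.2 := by
  have h := C.rel x
  refine ⟨lat ![0, 0, 0, -(if x 0 = true then 1 else 0), 0, 0, 0], lat_mem _, ?_⟩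
  rw [AA_apply]
  unfold Phi
  rw [h]
  by_cases hx : x 0 = true
  · refine Prod.ext ?_ ?_
    · simp [lat, hx]
    · simp [lat]
  · refine Prod.ext ?_ ?_
    · simp [lat, hx]
    · simp [lat]

lemma AAn_Phi (n : ℕ) (x : Seq) : ∃ l ∈ Lt, (AA ^ (n : ℤ)) (C.Phi x) = C.Phi (sh^[n] x) + l.2.2 := by
  induction n generalizing x with
  | zero => exact ⟨0, Lt.zero_mem, by simp; rfl⟩
  | succ n ih =>
    obtain ⟨l, hl, h⟩ := C.AA_Phi x
    obtain ⟨l', hl', h'⟩ := ih (sh x)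
    obtain ⟨m, hm, h3⟩ := AAz_lat (n : ℤ) hl
    refine ⟨l' + m, Lt.add_mem hl' hm, ?_⟩
    have e : (AA ^ ((n + 1 : ℕ) : ℤ)) (C.Phi x) = (AA ^ (n : ℤ)) (AA (C.Phi x)) := by
      push_cast
      rw [AAz_add, zpow_one]
    rw [e, h, map_add, h', h3, Function.iterate_succ_apply]
    show _ = _ + (l'.2.2 + m.2.2)
    rw [add_assoc]

lemma sh_iter (n : ℕ) (x : Seq) (k : ℤ) : sh^[n] x k = x (k + n) := by
  induction n generalizing x with
  | zero => simp
  | succ n ih =>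
    rw [Function.iterate_succ_apply, ih]
    show x (k + n + 1) = _
    congr 1
    push_cast
    ring

lemma sh_iter_mem (n : ℕ) {x : Seq} (hx : x ∈ C.Y) : sh^[n] x ∈ C.Y := by
  induction n with
  | zero => exact hx
  | succ n ih =>
    rw [Function.iterate_succ_apply']
    exact (C.inv _).mpr ih

/-- the inverse shift -/
def shi (x : Seq) : Seq := fun n => x (n - 1)

lemma sh_shi (x : Seq) : sh (shi x) = x := by
  funext n
  show x (n + 1 - 1) = x n
  congr 1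
  ring

/-- the minimal set on the torus fibre -/
noncomputable def toK : KData where
  K := C.Phi '' C.Y + ZZ
  closed := by
    have hc : IsCompact (C.Phi '' C.Y) := C.closed.isCompact.image C.Phi_cont
    exact ZZ_closed.add_left_of_isCompact hc
  ne := by
    obtain ⟨x, hx⟩ := C.ne
    exact ⟨_, Set.add_mem_add ⟨x, hx, rfl⟩ ⟨0, Lt.zero_mem, rfl⟩⟩
  add := by
    rintro _ ⟨_, ⟨x, hx, rfl⟩, _, ⟨l, hl, rfl⟩, rfl⟩ m hm
    refine ⟨_, ⟨x, hx, rfl⟩, _, ⟨l + m, Lt.add_mem hl hm, rfl⟩, ?_⟩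
    show C.Phi x + (l.2.2 + m.2.2) = C.Phi x + l.2.2 + m.2.2
    rw [add_assoc]
  map := by
    intro u
    constructor
    · rintro ⟨_, ⟨x, hx, rfl⟩, _, ⟨l, hl, rfl⟩, h⟩
      have h' : C.Phi x + l.2.2 = AA u := h
      have hx' : shi x ∈ C.Y := by rw [← C.inv, sh_shi]; exact hx
      obtain ⟨m, hm, hm2⟩ := C.AA_Phi (shi x)
      rw [sh_shi] at hm2
      refine ⟨_, ⟨shi x, hx', rfl⟩, (D.symm (l - m)).2.2, ⟨_, D_symm_mem (Lt.sub_mem hl hm), rfl⟩, ?_⟩
      show C.Phi (shi x) + (D.symm (l - m)).2.2 = u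
      apply AA.injective
      rw [map_add, hm2, ← h']
      have e : AA (D.symm (l - m)).2.2 = l.2.2 - m.2.2 := by
        have e1 : D (D.symm (l - m)) = l - m := D.apply_symm_apply _
        rw [D_eq] at e1
        exact congrArg (fun q : V4 => q.2.2) e1
      rw [e]
      abel
    · rintro ⟨_, ⟨x, hx, rfl⟩, _, ⟨l, hl, rfl⟩, rfl⟩
      obtain ⟨m, hm, hm2⟩ := C.AA_Phi x
      refine ⟨_, ⟨sh x, (C.inv x).mpr hx, rfl⟩, (D l + m).2.2, ⟨_, Lt.add_mem (D_mem hl) hm, rfl⟩, ?_⟩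
      show C.Phi (sh x) + (AA l.2.2 + m.2.2) = AA (C.Phi x + l.2.2)
      rw [map_add, hm2]
      abel
  dense := by
    rintro _ ⟨_, ⟨x, hx, rfl⟩, _, ⟨l, hl, rfl⟩, rfl⟩ _ ⟨_, ⟨y, hy, rfl⟩, _, ⟨m, hm, rfl⟩, rfl⟩ ε hε
    choose k hk using C.min x hx y hy
    have hlim : Tendsto (fun N => sh^[k N] x) atTop (𝓝 y) := by
      rw [tendsto_pi_nhds]
      intro n
      apply tendsto_const_nhds.congr'
      filter_upwards [eventually_ge_atTop n.natAbs] with N hN
      rw [sh_iter, hk N n]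
      rw [Int.abs_eq_natAbs]
      exact_mod_cast hN
    have hlim2 := (C.Phi_cont.tendsto y).comp hlim
    rw [Metric.tendsto_atTop] at hlim2
    obtain ⟨N, hN⟩ := hlim2 ε hε
    have h1 := hN N le_rfl
    rw [dist_eq_norm] at h1
    obtain ⟨p, hp, h2⟩ := C.AAn_Phi (k N) x
    obtain ⟨q, hq, h3⟩ := AAz_lat ((k N : ℕ) : ℤ) hl
    refine ⟨(k N : ℤ), m - p - q, Lt.sub_mem (Lt.sub_mem hm hp) hq, ?_⟩
    have e : (AA ^ ((k N : ℕ) : ℤ)) (C.Phi x + l.2.2) + (m - p - q).2.2 - (C.Phi y + m.2.2) =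
        C.Phi (sh^[k N] x) - C.Phi y := by
      rw [map_add, h2, h3]
      show _ + (m.2.2 - p.2.2 - q.2.2) - _ = _
      abel
    show ‖(AA ^ ((k N : ℕ) : ℤ)) (C.Phi x + l.2.2) + (m - p - q).2.2 - (C.Phi y + m.2.2)‖ < ε
    rw [e]
    exact h1

lemma Phi_mem {x : Seq} (hx : x ∈ C.Y) : C.Phi x ∈ C.toK.K := by
  have h : C.Phi x + 0 ∈ C.Phi '' C.Y + ZZ :=
    Set.add_mem_add ⟨x, hx, rfl⟩ ⟨0, Lt.zero_mem, rfl⟩
  rwa [add_zero] at h

lemma b_cont (b : Bp) : Continuous fun x => b.1 (C.Phi x) := (Bp_smooth b).continuous.comp C.Phi_cont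

lemma b_int (μ : Measure Seq) [IsProbabilityMeasure μ] (b : Bp) :
    Integrable (fun x => b.1 (C.Phi x)) μ := by
  obtain ⟨K, -, hK⟩ := Bp_bdd b
  exact Integrable.of_bound (C.b_cont b).aestronglyMeasurable K (Eventually.of_forall fun x => by
    rw [Real.norm_eq_abs]; exact hK _)

/-- the functional of a measure -/
noncomputable def Im (μ : Measure Seq) [IsProbabilityMeasure μ] : Bp →ₗ[ℝ] ℝ where
  toFun b := ∫ x, b.1 (C.Phi x) ∂μ
  map_add' b b' := integral_add (C.b_int μ b) (C.b_int μ b')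
  map_smul' c b := integral_const_mul c _

lemma Im_apply (μ : Measure Seq) [IsProbabilityMeasure μ] (b : Bp) :
    C.Im μ b = ∫ x, b.1 (C.Phi x) ∂μ := rfl

lemma Im_one (μ : Measure Seq) [IsProbabilityMeasure μ] : C.Im μ 1 = 1 := by
  rw [Im_apply]
  show ∫ _, (1 : ℝ) ∂μ = 1
  simp

lemma Bc_Phi (n : ℕ) (b : Bp) (x : Seq) : (Bc n b).1 (C.Phi x) = b.1 (C.Phi (sh^[n] x)) := by
  obtain ⟨l, hl, h⟩ := C.AAn_Phi n x
  rw [Bc_apply, h, Bp_per b _ hl]

lemma sh_cont : Continuous sh := continuous_pi fun n => continuous_apply (n + 1)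

lemma IF_Im {μ : Measure Seq} [IsProbabilityMeasure μ] (hY : μ C.Yᶜ = 0)
    (hsh : MeasurePreserving sh μ μ) : C.toK.IF (C.Im μ) := by
  refine ⟨?_, ?_⟩
  · intro b hb
    rw [Im_apply]
    apply integral_nonneg_of_ae
    have h1 : ∀ᵐ x ∂μ, x ∈ C.Y := by
      rw [ae_iff]; exact hY
    filter_upwards [h1] with x hx using hb _ (C.Phi_mem hx)
  · intro b
    rw [Im_apply, Im_apply]
    have h1 : ∀ x, (Bc 1 b).1 (C.Phi x) = b.1 (C.Phi (sh x)) := by
      intro x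
      have := C.Bc_Phi 1 b x
      simpa using this
    simp_rw [h1]
    have h2 := integral_map (μ := μ) hsh.measurable.aemeasurable
      (f := fun x => b.1 (C.Phi x)) (C.b_cont b).aestronglyMeasurable
    rw [hsh.map_eq] at h2
    exact h2.symm

/-- the four separating functions -/
noncomputable def cs (h : (ℂ × ℂ) →L[ℝ] ℝ) (hh : ∀ l ∈ Lt, ∃ n : ℤ, h l.2.2 = n) (g : ℝ → ℝ)
    (hg : ContDiff ℝ ∞ g) (hper : ∀ (t : ℝ) (n : ℤ), g (t + n * (2 * Real.pi)) = g t) : Bp :=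
  ⟨fun u => g (2 * Real.pi * h u), by
    refine ⟨hg.comp (contDiff_const.mul h.contDiff), ?_⟩
    intro u l hl
    obtain ⟨n, hn⟩ := hh l hl
    show g (2 * Real.pi * h (u + l.2.2)) = g (2 * Real.pi * h u)
    rw [map_add, hn, mul_add, mul_comm (2 * Real.pi) (n : ℝ), hper]⟩

/-- real part of the first coordinate -/
noncomputable def h1 : (ℂ × ℂ) →L[ℝ] ℝ := Complex.reCLM.comp (ContinuousLinearMap.fst ℝ ℂ ℂ)
/-- real part of the second coordinate -/
noncomputable def h2 : (ℂ × ℂ) →L[ℝ] ℝ := Complex.reCLM.comp (ContinuousLinearMap.snd ℝ ℂ ℂ)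

lemma h1_int : ∀ l ∈ Lt, ∃ n : ℤ, h1 l.2.2 = n := by
  rintro _ ⟨k, rfl⟩
  exact ⟨k 3, by simp [h1, lat]⟩

lemma h2_int : ∀ l ∈ Lt, ∃ n : ℤ, h2 l.2.2 = n := by
  rintro _ ⟨k, rfl⟩
  exact ⟨k 5, by simp [h2, lat]⟩

lemma int_of_cos_sin {s t : ℝ} (hc : Real.cos (2 * Real.pi * s) = Real.cos (2 * Real.pi * t))
    (hs : Real.sin (2 * Real.pi * s) = Real.sin (2 * Real.pi * t)) : ∃ n : ℤ, s = t + n := by
  have h : Complex.exp ((2 * Real.pi * s : ℝ) * Complex.I) =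
      Complex.exp ((2 * Real.pi * t : ℝ) * Complex.I) := by
    rw [Complex.exp_mul_I, Complex.exp_mul_I, ← Complex.ofReal_cos, ← Complex.ofReal_cos,
      ← Complex.ofReal_sin, ← Complex.ofReal_sin, hc, hs]
  rw [Complex.exp_eq_exp_iff_exists_int] at h
  obtain ⟨n, hn⟩ := h
  refine ⟨n, ?_⟩
  have h3 := congrArg Complex.im hn
  simp at h3
  have hpi : (0:ℝ) < 2 * Real.pi := by positivity
  have h4 : (2 * Real.pi) * s = (2 * Real.pi) * (t + n) := by linarith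
  exact mul_left_cancel₀ hpi.ne' h4

/-- the algebra of functions on the shift space coming from the torus fibre -/
noncomputable def jj : Bp →ₐ[ℝ] C(Seq, ℝ) where
  toFun b := ⟨fun x => b.1 (C.Phi x), C.b_cont b⟩
  map_one' := rfl
  map_mul' _ _ := rfl
  map_zero' := rfl
  map_add' _ _ := rfl
  commutes' _ := rfl

lemma jj_sep : C.jj.range.SeparatesPoints := by
  intro x y hxy
  by_contra hcon
  push Not at hcon
  apply hxy
  apply C.inj
  have key : ∀ b : Bp, b.1 (C.Phi x) = b.1 (C.Phi y) := by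
    intro b
    exact hcon (fun z => b.1 (C.Phi z)) ⟨C.jj b, ⟨b, rfl⟩, rfl⟩
  have hcos : ∀ (t : ℝ) (n : ℤ), Real.cos (t + n * (2 * Real.pi)) = Real.cos t :=
    fun t n => Real.cos_add_int_mul_two_pi t n
  have hsin : ∀ (t : ℝ) (n : ℤ), Real.sin (t + n * (2 * Real.pi)) = Real.sin t :=
    fun t n => Real.sin_add_int_mul_two_pi t n
  obtain ⟨a, ha⟩ := int_of_cos_sin (key (cs h1 h1_int _ Real.contDiff_cos hcos))
    (key (cs h1 h1_int _ Real.contDiff_sin hsin))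
  obtain ⟨b, hb⟩ := int_of_cos_sin (key (cs h2 h2_int _ Real.contDiff_cos hcos))
    (key (cs h2 h2_int _ Real.contDiff_sin hsin))
  refine ⟨a, b, Prod.ext ?_ ?_⟩
  · simpa [h1, Phi] using ha
  · simpa [h2, Phi] using hb

lemma measure_eq {μ ν : Measure Seq} [IsProbabilityMeasure μ] [IsProbabilityMeasure ν]
    (h : C.Im μ = C.Im ν) : μ {x | x 0 = true} = ν {x | x 0 = true} := by
  have hopen : IsClopen {x : Seq | x 0 = true} := by
    have : {x : Seq | x 0 = true} = (fun x : Seq => x 0) ⁻¹' {true} := rfl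
    rw [this]
    exact (isClopen_discrete _).preimage (continuous_apply 0)
  have hmeas : MeasurableSet {x : Seq | x 0 = true} := hopen.isOpen.measurableSet
  set χ : C(Seq, ℝ) := ⟨fun x => Set.indicator {x : Seq | x 0 = true} (fun _ => (1 : ℝ)) x,
    (continuous_const.indicator (by
      intro a ha
      rw [hopen.frontier_eq] at ha
      exact ha.elim))⟩ with hχ
  have hdense := ContinuousMap.subalgebra_topologicalClosure_eq_top_of_separatesPoints
    C.jj.range C.jj_sep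
  have hmem : χ ∈ C.jj.range.topologicalClosure := by rw [hdense]; trivial
  have hint : ∀ (ρ : Measure Seq) [IsProbabilityMeasure ρ], ∫ x, χ x ∂ρ = ρ.real {x : Seq | x 0 = true} := by
    intro ρ _
    show ∫ x, Set.indicator {x : Seq | x 0 = true} (fun _ => (1 : ℝ)) x ∂ρ = _
    rw [integral_indicator hmeas]
    simp
  have key : ∀ ε : ℝ, 0 < ε → |μ.real {x : Seq | x 0 = true} - ν.real {x : Seq | x 0 = true}| ≤ 2 * ε := by
    intro ε hε
    obtain ⟨g, hg, hgd⟩ := Metric.mem_closure_iff.mp hmem ε hε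
    obtain ⟨b, rfl⟩ := hg
    have hb : ∀ (ρ : Measure Seq) [IsProbabilityMeasure ρ],
        |ρ.real {x : Seq | x 0 = true} - C.Im ρ b| ≤ ε := by
      intro ρ _
      rw [← hint ρ, Im_apply, ← integral_sub (χ.continuous.integrable_of_hasCompactSupport
        (HasCompactSupport.of_compactSpace _)) (C.b_int ρ b)]
      have h3 := norm_integral_le_of_norm_le_const (μ := ρ) (f := fun x => χ x - b.1 (C.Phi x))
        (C := ε) (Eventually.of_forall fun x => by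
          have := ContinuousMap.norm_coe_le_norm (χ - C.jj b) x
          have h4 : ‖χ - C.jj b‖ < ε := by rw [← dist_eq_norm]; exact hgd
          exact this.trans h4.le)
      simpa using h3
    have e1 := hb μ
    have e2 := hb ν
    rw [← h] at e2
    have := abs_sub_le (μ.real {x : Seq | x 0 = true}) (C.Im μ b) (ν.real {x : Seq | x 0 = true})
    rw [abs_sub_comm (C.Im μ b)] at this
    linarith
  have hz : |μ.real {x : Seq | x 0 = true} - ν.real {x : Seq | x 0 = true}| = 0 := by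
    apply le_antisymm _ (abs_nonneg _)
    apply le_of_forall_pos_le_add
    intro ε hε
    have := key (ε / 2) (half_pos hε)
    linarith
  have h5 := sub_eq_zero.mp (abs_eq_zero.mp hz)
  have h6 := (measureReal_eq_measureReal_iff (measure_ne_top μ _) (measure_ne_top ν _)).mp h5
  exact h6

end Cod

end Pool.Agent.H59.Lam
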